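import Pool.Agent.Mg.Fb9bf0c.Gf82352

section

/-!
Odd integers as x^2 + 2 y^2 + 3 z^2 with x + y + z a square: Poisson summation.
-/

set_option autoImplicit false

open Finset Complex
open scoped Real ArithmeticFunction.Moebius

noncomputable section

namespace Pool.Agent.MP_b9bf0c_nt

open Pool.Agent.MP_2a1f0e_nt (ex)
open Pool.Agent.MP_c903c4_nt (Red cc)

namespace Pois

open Pool.Agent.MP_2a1f0e_nt (ex_add ex_int norm_ex)

theorem summable_gauss {a : ℂ} (ha : 0 < a.re) (b : ℂ) :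
    Summable fun n : ℤ => cexp (-π * a * n ^ 2 + 2 * π * b * n) := by
  have h := (summable_jacobiTheta₂_term_iff (-I * b) (I * a)).mpr (by simpa using ha)
  refine h.congr fun n => ?_
  unfold jacobiTheta₂_term
  congr 1
  linear_combination (-2 * π * n * b + π * n ^ 2 * a) * I_mul_I

theorem qf_cast (A B j : ℤ) :
    (qf A B j : ℂ) = ((A : ℂ) * (j : ℂ) ^ 2 + ((A : ℂ) + 2 * B) * j) / 2 := by
  have h : ((2 * qf A B j : ℤ) : ℂ) = ((A * j ^ 2 + (A + 2 * B) * j : ℤ) : ℂ) := by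
    rw [two_qf]
  push_cast at h
  linear_combination h / 2

theorem summable_term {A : ℤ} (hA : 0 < A) (B : ℤ) {z : ℂ} (hz : 0 < z.re) :
    Summable fun j : ℤ => cexp (-(2 * π * z * (qf A B j : ℂ))) := by
  have hA' : (0 : ℝ) < A := by exact_mod_cast hA
  have h1 : 0 < ((A : ℂ) * z).re := by
    simpa using mul_pos hA' hz
  refine (summable_gauss h1 (-(z * ((A : ℂ) + 2 * B)) / 2)).congr fun n => ?_
  rw [qf_cast]
  congr 1
  ring

theorem tsum_split (n : ℕ) (hn : 0 < n) (F : ℤ → ℂ) (hF : Summable F) :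
    ∑' j, F j = ∑ r ∈ range n, ∑' l : ℤ, F (l * n + r) := by
  have : NeZero n := ⟨hn.ne'⟩
  have h1 : Summable fun p : ℤ × Fin n => F ((Int.divModEquiv n).symm p) :=
    (Int.divModEquiv n).symm.summable_iff.mpr hF
  rw [← (Int.divModEquiv n).symm.tsum_eq, h1.tsum_prod]
  simp_rw [tsum_fintype]
  rw [Summable.tsum_finsetSum]
  · rw [← Fin.sum_univ_eq_sum_range (fun r : ℕ => ∑' l : ℤ, F (l * n + r)) n]
    rfl
  · intro r _
    exact h1.comp_injective (i := fun l : ℤ => (l, r)) fun x y h => (Prod.ext_iff.mp h).1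

theorem qf_shift (A B : ℤ) (q : ℕ) (r l : ℤ) :
    qf A B (l * ((2 * q : ℕ) : ℤ) + r) =
      qf A B r + q * (2 * A * q * l ^ 2 + (A + 2 * B) * l + 2 * A * r * l) := by
  have h1 := two_qf A B (l * ((2 * q : ℕ) : ℤ) + r)
  have h2 := two_qf A B r
  apply mul_left_cancel₀ (two_ne_zero (α := ℤ))
  push_cast at h1 ⊢
  linear_combination h1 - h2

theorem term_eq (A B : ℤ) {q : ℕ} (hq : 0 < q) (a : ℤ) (z : ℂ) (r l : ℤ) :
    cexp (-(2 * π * (z + (((a : ℝ) / q : ℝ) : ℂ) * I) *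
        (qf A B (l * ((2 * q : ℕ) : ℤ) + r) : ℂ))) =
      cexp (-(2 * π * (z + (((a : ℝ) / q : ℝ) : ℂ) * I) * (qf A B r : ℂ))) *
        cexp (-π * (4 * (q : ℂ) ^ 2 * A * z) * l ^ 2 +
          2 * π * (-(z * q * (2 * A * r + (A + 2 * B)))) * l) := by
  have hq' : (q : ℂ) ≠ 0 := by exact_mod_cast hq.ne'
  rw [qf_shift, ← Complex.exp_add, Complex.exp_eq_exp_iff_exists_int]
  refine ⟨-(a * (2 * A * q * l ^ 2 + (A + 2 * B) * l + 2 * A * r * l)), ?_⟩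
  push_cast
  field_simp
  ring

theorem dual_eq {A : ℤ} (hA : 0 < A) (B : ℤ) {q : ℕ} (hq : 0 < q) (a : ℤ) {z : ℂ} (hz : z ≠ 0)
    (r : ℕ) (k : ℤ) :
    cexp (-(2 * π * (z + (((a : ℝ) / q : ℝ) : ℂ) * I) * (qf A B r : ℂ))) *
        cexp (-π / (4 * (q : ℂ) ^ 2 * A * z) *
          (k + I * (-(z * q * (2 * A * ((r : ℤ) : ℂ) + (A + 2 * B))))) ^ 2) =
      cexp (π * z * ((A : ℂ) + 2 * B) ^ 2 / (4 * A)) *
        (cexp (-(π * (k : ℂ) ^ 2 / (4 * (q : ℂ) ^ 2 * A * z))) *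
          ex ((k : ℝ) * ((A : ℝ) + 2 * B) / (4 * q * A)) *
            ex (-((a * qf A B r : ℤ) : ℝ) / q + (k : ℝ) * r / (2 * q))) := by
  have hq' : (q : ℂ) ≠ 0 := by exact_mod_cast hq.ne'
  have hA' : (A : ℂ) ≠ 0 := by exact_mod_cast hA.ne'
  unfold ex
  simp only [← Complex.exp_add]
  congr 1
  push_cast
  rw [qf_cast]
  push_cast
  have hI : I ^ 2 = -1 := I_sq
  field_simp
  ring_nf
  simp only [hI]
  ring

end Pois

theorem summable_phi {A : ℤ} (hA : 0 < A) (B : ℤ) {z : ℂ} (hz : 0 < z.re) :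
    Summable fun j : ℤ => ‖cexp (-(2 * π * z * (qf A B j : ℂ)))‖ :=
  (Pois.summable_term hA B hz).norm

theorem phi_eq {A : ℤ} (hA : 0 < A) (B : ℤ) {q : ℕ} (hq : 0 < q) (a : ℤ) {z : ℂ} (hz : 0 < z.re) :
    phi A B (z + (((a : ℝ) / q : ℝ) : ℂ) * I) =
      cexp (π * z * ((A : ℂ) + 2 * B) ^ 2 / (4 * A)) / (4 * (q : ℂ) ^ 2 * A * z) ^ (1 / 2 : ℂ) *
        ∑' k : ℤ, cexp (-(π * (k : ℂ) ^ 2 / (4 * (q : ℂ) ^ 2 * A * z))) *
          ex ((k : ℝ) * ((A : ℝ) + 2 * B) / (4 * q * A)) * SS A B q a k := by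
  have hA' : (0 : ℝ) < A := by exact_mod_cast hA
  have hq' : (0 : ℝ) < q := by exact_mod_cast hq
  have hz0 : z ≠ 0 := by
    rintro rfl
    simp at hz
  have hre : 0 < (z + (((a : ℝ) / q : ℝ) : ℂ) * I).re := by
    rw [add_re, mul_I_re, ofReal_im, neg_zero, add_zero]
    exact hz
  have ha0 : 0 < (4 * (q : ℂ) ^ 2 * A * z).re := by
    have : (4 * (q : ℂ) ^ 2 * A * z) = ((4 * (q : ℝ) ^ 2 * A : ℝ) : ℂ) * z := by
      push_cast
      ring
    rw [this, re_ofReal_mul]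
    positivity
  have hinv : 0 < ((4 * (q : ℂ) ^ 2 * A * z)⁻¹).re := by
    rw [inv_re]
    refine div_pos ha0 (normSq_pos.mpr ?_)
    intro h
    rw [h] at ha0
    simp at ha0
  have hs : Summable fun k : ℤ => cexp (-(π * (k : ℂ) ^ 2 / (4 * (q : ℂ) ^ 2 * A * z))) := by
    refine (Pois.summable_gauss hinv 0).congr fun k => ?_
    congr 1
    ring
  unfold phi
  rw [Pois.tsum_split (2 * q) (by omega) _ (Pois.summable_term hA B hre)]
  simp_rw [Pois.term_eq A B hq a z, tsum_mul_left, Complex.tsum_exp_neg_quadratic ha0]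
  unfold SS
  simp_rw [Finset.mul_sum]
  rw [Summable.tsum_finsetSum, Finset.mul_sum]
  · refine Finset.sum_congr rfl fun r _ => ?_
    rw [mul_left_comm, ← tsum_mul_left]
    simp_rw [Pois.dual_eq hA B hq a hz0 r]
    rw [tsum_mul_left]
    ring
  · intro r _
    refine hs.norm.of_norm_bounded fun k => ?_
    rw [norm_mul, norm_mul, Pool.Agent.MP_2a1f0e_nt.norm_ex, Pool.Agent.MP_2a1f0e_nt.norm_ex,
      mul_one, mul_one]

end Pool.Agent.MP_b9bf0c_nt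

end
end

section

/-!
Odd integers as x^2 + 2 y^2 + 3 z^2 with x + y + z a square: the theta series near a fraction.
-/

set_option autoImplicit false

open Finset Complex
open scoped Real ArithmeticFunction.Moebius

noncomputable section

namespace Pool.Agent.MP_b9bf0c_nt

open Pool.Agent.MP_2a1f0e_nt (ex)
open Pool.Agent.MP_c903c4_nt (Red cc)

namespace Loc

theorem norm_le_den {z : ℂ} (h0 : 0 < z.re) (h1 : z.re ≤ 1 / 4) (h2 : |z.im| ≤ 1 / 2) :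
    ‖z‖ ≤ ‖1 - cexp (-(2 * π * z))‖ := by
  obtain ⟨r, hr⟩ : ∃ r : ℝ, r = Real.exp (-(2 * π * z.re)) := ⟨_, rfl⟩
  obtain ⟨E, hE⟩ : ∃ E : ℂ, E = ex (-z.im) := ⟨_, rfl⟩
  have hexp : cexp (-(2 * π * z)) = (r : ℂ) * E := by
    rw [hr, hE]
    unfold ex
    rw [Complex.ofReal_exp, ← Complex.exp_add]
    congr 1
    conv_lhs => rw [← Complex.re_add_im z]
    push_cast
    ring
  have hE1 : ‖E‖ = 1 := by rw [hE]; exact Pool.Agent.MP_2a1f0e_nt.norm_ex _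
  have hE2 : 4 * |z.im| ≤ ‖E - 1‖ := by
    have := Pool.Agent.MP_2a1f0e_nt.norm_ex_sub_one (x := -z.im) (by rwa [abs_neg])
    rwa [abs_neg, ← hE] at this
  have hpi := Real.pi_gt_three
  have hpi4 := Real.pi_lt_four
  have hr0 : 0 < r := by rw [hr]; exact Real.exp_pos _
  have hr1 : r * Real.exp (2 * π * z.re) = 1 := by
    rw [hr, ← Real.exp_add]; simp
  have hr2 : r ≤ 1 - z.re := by
    have h3 := Real.add_one_le_exp (2 * π * z.re)
    have h4 : r * (6 * z.re + 1) ≤ 1 := by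
      have : 6 * z.re + 1 ≤ Real.exp (2 * π * z.re) := by nlinarith
      nlinarith
    by_contra h
    push Not at h
    nlinarith [mul_pos h0 h0]
  have hr3 : 1 / 16 ≤ r := by
    have h3 : Real.exp (2 * π * z.re) ≤ Real.exp 2 := Real.exp_le_exp.mpr (by nlinarith)
    have h4 : Real.exp 2 ≤ 16 := by
      have h5 : Real.exp 2 = Real.exp 1 * Real.exp 1 := by rw [← Real.exp_add]; norm_num
      have h6 := Real.exp_one_lt_d9
      have h7 := Real.exp_pos 1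
      nlinarith
    nlinarith
  have hA : E.re ^ 2 + E.im ^ 2 = 1 := by
    have := Complex.sq_norm E
    rw [hE1, Complex.normSq_apply] at this
    nlinarith
  have hB : 16 * z.im ^ 2 ≤ (E.re - 1) ^ 2 + E.im ^ 2 := by
    have h3 : (4 * |z.im|) ^ 2 ≤ ‖E - 1‖ ^ 2 := pow_le_pow_left₀ (by positivity) hE2 2
    rw [Complex.sq_norm, Complex.normSq_apply, mul_pow, sq_abs] at h3
    simp only [sub_re, one_re, sub_im, one_im, sub_zero] at h3
    nlinarith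
  rw [hexp]
  refine le_of_sq_le_sq ?_ (norm_nonneg _)
  rw [Complex.sq_norm, Complex.sq_norm, Complex.normSq_apply, Complex.normSq_apply]
  simp only [sub_re, one_re, sub_im, one_im, mul_re, mul_im, ofReal_re, ofReal_im, zero_mul,
    sub_zero, add_zero, zero_sub]
  have h5 : z.re ^ 2 ≤ (1 - r) ^ 2 := pow_le_pow_left₀ h0.le (by linarith) 2
  have h6 : z.im ^ 2 ≤ r * ((E.re - 1) ^ 2 + E.im ^ 2) := by
    nlinarith [sq_nonneg z.im, mul_le_mul_of_nonneg_left hB hr0.le]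
  have h7 : (1 - r * E.re) * (1 - r * E.re) + -(r * E.im) * -(r * E.im) =
      (1 - r) ^ 2 + r * ((E.re - 1) ^ 2 + E.im ^ 2) := by
    linear_combination (r ^ 2 - r) * hA
  rw [h7]
  nlinarith

/-- The sum of the inverse squares. -/
def SQ : ℝ := ∑' k : ℤ, 1 / (k : ℝ) ^ 2

theorem summable_SQ : Summable fun k : ℤ => 1 / (k : ℝ) ^ 2 :=
  Real.summable_one_div_int_pow.mpr (by norm_num)

theorem SQ_nonneg : 0 ≤ SQ := tsum_nonneg fun k => by positivity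

theorem half_sq (x : ℂ) : (x ^ (1 / 2 : ℂ)) ^ 2 = x := by
  simp [one_div]

theorem split {A : ℤ} (hA : 0 < A) (B : ℤ) : ∃ K : ℝ, 0 < K ∧ ∀ (q : ℕ) (a : ℤ) (z : ℂ) (w ν : ℝ),
    0 < q → IsCoprime a (q : ℤ) → 0 < z.re → z.re ≤ 1 → 0 ≤ w → w ^ 2 * (q * ‖z‖) = 1 →
    ν * z.re = (q : ℝ) ^ 2 * ‖z‖ ^ 2 →
    ∃ e : ℂ, phi A B (z + (((a : ℝ) / q : ℝ) : ℂ) * I) =
      cexp (π * z * ((A : ℂ) + 2 * B) ^ 2 / (4 * A)) / (4 * (q : ℂ) ^ 2 * A * z) ^ (1 / 2 : ℂ) *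
        SS A B q a 0 + e ∧
      ‖cexp (π * z * ((A : ℂ) + 2 * B) ^ 2 / (4 * A)) / (4 * (q : ℂ) ^ 2 * A * z) ^ (1 / 2 : ℂ) *
        SS A B q a 0‖ ≤ K * w ∧ ‖e‖ ≤ K * (w * ν) := by
  have hA' : (0 : ℝ) < A := by exact_mod_cast hA
  obtain ⟨K0, hK0⟩ : ∃ K0 : ℝ, K0 = Real.exp (π * ((A : ℝ) + 2 * B) ^ 2 / (4 * A)) := ⟨_, rfl⟩
  have hK0p : 0 < K0 := by rw [hK0]; exact Real.exp_pos _
  have hS := SQ_nonneg
  refine ⟨K0 * (1 + 4 * A * SQ), by positivity, ?_⟩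
  intro q a z w ν hq ha h0 h1 hw hw2 hν
  have hq' : (0 : ℝ) < q := by exact_mod_cast hq
  have hz : z ≠ 0 := fun h => by simp [h] at h0
  have hN : 0 < ‖z‖ := norm_pos_iff.mpr hz
  have hν0 : 0 < ν := by
    by_contra h
    push Not at h
    have : 0 < (q : ℝ) ^ 2 * ‖z‖ ^ 2 := by positivity
    nlinarith
  obtain ⟨u, hu⟩ : ∃ u : ℂ, u = (4 * (q : ℂ) ^ 2 * A * z) ^ (1 / 2 : ℂ) := ⟨_, rfl⟩
  obtain ⟨X, hX⟩ : ∃ X : ℂ, X = cexp (π * z * ((A : ℂ) + 2 * B) ^ 2 / (4 * A)) := ⟨_, rfl⟩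
  have hu2 : ‖u‖ ^ 2 = 4 * (q : ℝ) ^ 2 * A * ‖z‖ := by
    rw [← norm_pow, hu, half_sq]
    simp only [norm_mul, norm_pow, Complex.norm_natCast, Complex.norm_intCast, Complex.norm_ofNat]
    rw [abs_of_pos hA']
  have hu0 : 0 < ‖u‖ := by
    by_contra h
    have h3 : ‖u‖ = 0 := le_antisymm (not_lt.mp h) (norm_nonneg _)
    rw [h3] at hu2
    have : 0 < 4 * (q : ℝ) ^ 2 * A * ‖z‖ := by positivity
    nlinarith
  have hXn : ‖X‖ ≤ K0 := by
    rw [hX, Complex.norm_exp, hK0]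
    refine Real.exp_le_exp.mpr ?_
    have h3 : (π * z * ((A : ℂ) + 2 * B) ^ 2 / (4 * A)) =
        ((π * ((A : ℝ) + 2 * B) ^ 2 / (4 * A) : ℝ) : ℂ) * z := by
      push_cast
      ring
    rw [h3, Complex.re_ofReal_mul]
    have h4 : 0 ≤ π * ((A : ℝ) + 2 * B) ^ 2 / (4 * A) := by positivity
    nlinarith
  have hSS : ∀ k : ℤ, ‖SS A B q a k‖ ≤ w * ‖u‖ := by
    intro k
    refine le_of_sq_le_sq ?_ (by positivity)
    refine (norm_SS_sq hA B hq ha k).trans (le_of_eq ?_)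
    rw [mul_pow, hu2]
    linear_combination (-4 * (q : ℝ) * A) * hw2
  obtain ⟨f, hf⟩ : ∃ f : ℤ → ℂ, f = fun k : ℤ =>
      cexp (-(π * (k : ℂ) ^ 2 / (4 * (q : ℂ) ^ 2 * A * z))) *
        ex ((k : ℝ) * ((A : ℝ) + 2 * B) / (4 * q * A)) * SS A B q a k := ⟨_, rfl⟩
  have hf0 : f 0 = SS A B q a 0 := by
    rw [hf]
    simp [Pool.Agent.MP_2a1f0e_nt.ex_zero]
  have hfk : ∀ k : ℤ, k ≠ 0 → ‖f k‖ ≤ (4 * A * ν * (w * ‖u‖)) * (1 / (k : ℝ) ^ 2) := by
    intro k hk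
    have hk' : (0 : ℝ) < (k : ℝ) ^ 2 := by positivity
    rw [hf]
    simp only [norm_mul, Pool.Agent.MP_2a1f0e_nt.norm_ex, mul_one, Complex.norm_exp]
    have h3 : (-(π * (k : ℂ) ^ 2 / (4 * (q : ℂ) ^ 2 * A * z))) =
        ((-(π * (k : ℝ) ^ 2 / (4 * (q : ℝ) ^ 2 * A)) : ℝ) : ℂ) * z⁻¹ := by
      push_cast
      field_simp
    have h4 : (-(π * (k : ℂ) ^ 2 / (4 * (q : ℂ) ^ 2 * A * z))).re =
        -(π * (k : ℝ) ^ 2 / (4 * A * ν)) := by
      rw [h3, Complex.re_ofReal_mul, Complex.inv_re, Complex.normSq_eq_norm_sq]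
      have h5 : z.re = (q : ℝ) ^ 2 * ‖z‖ ^ 2 / ν := by
        rw [← hν]
        field_simp
      rw [h5]
      field_simp
    rw [h4]
    obtain ⟨x, hx⟩ : ∃ x : ℝ, x = π * (k : ℝ) ^ 2 / (4 * A * ν) := ⟨_, rfl⟩
    have hx0 : 0 < x := by rw [hx]; positivity
    rw [← hx]
    have h6 : Real.exp (-x) ≤ 4 * A * ν * (1 / (k : ℝ) ^ 2) := by
      have h7 : Real.exp (-x) ≤ 1 / x := by
        rw [Real.exp_neg, one_div]
        exact inv_anti₀ hx0 (by linarith [Real.add_one_le_exp x])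
      refine h7.trans ?_
      rw [hx, one_div_div, mul_one_div]
      refine div_le_div_of_nonneg_left (by positivity) hk' ?_
      nlinarith [Real.pi_gt_three]
    calc Real.exp (-x) * ‖SS A B q a k‖ ≤ (4 * A * ν * (1 / (k : ℝ) ^ 2)) * (w * ‖u‖) :=
          mul_le_mul h6 (hSS k) (norm_nonneg _) (by positivity)
      _ = _ := by ring
  have hite : ∀ k : ℤ, ‖(if k = 0 then 0 else f k : ℂ)‖ ≤
      (4 * A * ν * (w * ‖u‖)) * (1 / (k : ℝ) ^ 2) := by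
    intro k
    split_ifs with hk
    · simp [hk]
    · exact hfk k hk
  have hg := summable_SQ.mul_left (4 * A * ν * (w * ‖u‖))
  have hsum : Summable f := by
    refine Summable.of_norm_bounded_eventually hg ?_
    refine (Set.finite_singleton (0 : ℤ)).subset fun k hk => ?_
    by_contra h
    exact hk (hfk k h)
  have hE : ‖∑' k : ℤ, (if k = 0 then 0 else f k : ℂ)‖ ≤ 4 * A * ν * (w * ‖u‖) * SQ :=
    tsum_of_norm_bounded (summable_SQ.hasSum.mul_left _) hite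
  refine ⟨X / u * ∑' k : ℤ, (if k = 0 then 0 else f k : ℂ), ?_, ?_, ?_⟩
  · rw [phi_eq hA B hq a h0, ← hu, ← hX, ← hf0, ← mul_add, ← hsum.tsum_eq_add_tsum_ite 0, hf]
  · rw [← hu, ← hX, norm_mul, norm_div]
    calc ‖X‖ / ‖u‖ * ‖SS A B q a 0‖ ≤ K0 / ‖u‖ * (w * ‖u‖) := by gcongr; exact hSS 0
      _ = K0 * w := by field_simp
      _ ≤ K0 * (1 + 4 * A * SQ) * w := by
        have : 0 ≤ K0 * (4 * A * SQ) * w := by positivity
        nlinarith
  · rw [norm_mul, norm_div]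
    calc ‖X‖ / ‖u‖ * ‖∑' k : ℤ, (if k = 0 then 0 else f k : ℂ)‖ ≤
          K0 / ‖u‖ * (4 * A * ν * (w * ‖u‖) * SQ) := by gcongr
      _ = K0 * (4 * A * SQ) * (w * ν) := by field_simp
      _ ≤ K0 * (1 + 4 * A * SQ) * (w * ν) := by
        have : 0 ≤ K0 * (w * ν) := by positivity
        nlinarith

theorem half_mul {x : ℂ} (hx : x ≠ 0) :
    (11 * x) ^ (1 / 2 : ℂ) * x ^ (1 / 2 : ℂ) = ((√11 : ℝ) : ℂ) * x := by
  have h1 : (11 * x) ^ (1 / 2 : ℂ) = ((√11 : ℝ) : ℂ) * x ^ (1 / 2 : ℂ) := by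
    have h2 : (11 : ℂ) * x = ((11 : ℝ) : ℂ) * x := by norm_num
    rw [Complex.cpow_def_of_ne_zero (mul_ne_zero (by norm_num) hx), Complex.cpow_def_of_ne_zero hx,
      h2, Complex.log_ofReal_mul (by norm_num) hx, add_mul, Complex.exp_add, Real.sqrt_eq_rpow,
      Real.rpow_def_of_pos (by norm_num), Complex.ofReal_exp]
    push_cast
    rfl
  rw [h1, mul_assoc, ← sq, half_sq]

theorem main_diff : ∃ K : ℝ, 0 < K ∧ ∀ z : ℂ, 0 < z.re → z.re ≤ 1 / 4 → |z.im| ≤ 1 / 2 →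
    ‖z‖ ≤ 1 → ‖cexp (9 * π * z / 11) / z - 2 * π * EE z‖ ≤ K := by
  refine ⟨4 * Real.exp 4 + 64 * Real.exp 8, by positivity, fun z h0 h1 h2 h3 => ?_⟩
  have hz : z ≠ 0 := fun h => by simp [h] at h0
  have hN : 0 < ‖z‖ := norm_pos_iff.mpr hz
  have hD := norm_le_den h0 h1 h2
  have hpi := Real.pi_pos
  have hpi4 := Real.pi_lt_four
  obtain ⟨D, hDe⟩ : ∃ D : ℂ, D = 1 - cexp (-(2 * π * z)) := ⟨_, rfl⟩
  rw [← hDe] at hD
  have hD0 : D ≠ 0 := norm_pos_iff.mp (hN.trans_le hD)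
  have e1 : cexp (9 * π * z / 11) / z - 2 * π * EE z =
      (cexp (9 * π * z / 11) - 1) / z -
        (cexp (-(2 * π * z)) - (1 + -(2 * π * z))) / (z * D) := by
    have : cexp (-(2 * π * z)) = 1 - D := by rw [hDe]; ring
    unfold EE
    rw [← hDe, this]
    field_simp
    ring
  have n1 : ‖(9 * π * z / 11 : ℂ)‖ ≤ 4 * ‖z‖ := by
    simp only [norm_div, norm_mul, Complex.norm_ofNat, Complex.norm_real, Real.norm_eq_abs,
      abs_of_pos hpi]
    nlinarith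
  have n2 : ‖(-(2 * π * z) : ℂ)‖ ≤ 8 * ‖z‖ := by
    simp only [norm_neg, norm_mul, Complex.norm_ofNat, Complex.norm_real, Real.norm_eq_abs,
      abs_of_pos hpi]
    nlinarith
  have b1 : ‖cexp (9 * π * z / 11) - 1‖ ≤ 4 * ‖z‖ * Real.exp 4 := by
    have h := Complex.norm_exp_sub_sum_le_norm_mul_exp (9 * π * z / 11) 1
    simp only [range_one, sum_singleton, pow_zero, Nat.factorial_zero, Nat.cast_one, div_one,
      pow_one] at h
    refine h.trans (mul_le_mul n1 (Real.exp_le_exp.mpr (by linarith)) (Real.exp_pos _).le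
      (by positivity))
  have b2 : ‖cexp (-(2 * π * z)) - (1 + -(2 * π * z))‖ ≤ (8 * ‖z‖) ^ 2 * Real.exp 8 := by
    have h := Complex.norm_exp_sub_sum_le_norm_mul_exp (-(2 * π * z)) 2
    simp only [sum_range_succ, range_zero, sum_empty, pow_zero, Nat.factorial_zero, Nat.cast_one,
      div_one, pow_one, zero_add, Nat.factorial_one] at h
    refine h.trans (mul_le_mul (pow_le_pow_left₀ (norm_nonneg _) n2 2)
      (Real.exp_le_exp.mpr (by linarith)) (Real.exp_pos _).le (by positivity))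
  rw [e1]
  refine (norm_sub_le _ _).trans (add_le_add ?_ ?_)
  · rw [norm_div, div_le_iff₀ hN]
    linarith
  · rw [norm_div, norm_mul, div_le_iff₀ (mul_pos hN (hN.trans_le hD))]
    refine b2.trans ?_
    have h5 : ‖z‖ * ‖z‖ ≤ ‖z‖ * ‖D‖ := mul_le_mul_of_nonneg_left hD hN.le
    have h6 := Real.exp_pos 8
    nlinarith [mul_le_mul_of_nonneg_left h5 h6.le]

end Loc

theorem norm_EE_le {z : ℂ} (h0 : 0 < z.re) (h1 : z.re ≤ 1 / 4) (h2 : |z.im| ≤ 1 / 2) :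
    ‖EE z‖ ≤ 1 / ‖z‖ := by
  have hz : z ≠ 0 := fun h => by simp [h] at h0
  unfold EE
  rw [norm_div, norm_one]
  exact one_div_le_one_div_of_le (norm_pos_iff.mpr hz) (Loc.norm_le_den h0 h1 h2)

theorem theta_loc : ∃ C : ℝ, 0 < C ∧ ∀ (M q : ℕ) (a : ℤ) (β : ℝ), 2 ≤ M → 0 < q → q ≤ M →
    IsCoprime a (q : ℤ) → |β| ≤ 1 / ((q : ℝ) * M) →
    ‖th (pt M ((a : ℝ) / q + β)) - kap * gg q a * EE (pt M β)‖ ≤ C * M := by
  obtain ⟨K1, hK1, H1⟩ := Loc.split (A := 11) (by norm_num) (-3)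
  obtain ⟨K2, hK2, H2⟩ := Loc.split (A := 1) (by norm_num) 0
  obtain ⟨K3, hK3, H3⟩ := Loc.main_diff
  refine ⟨K3 + 8 * (K1 * K2), by positivity, ?_⟩
  intro M q a β hM hq hqM ha hβ
  have hM' : (2 : ℝ) ≤ M := by exact_mod_cast hM
  have hq' : (1 : ℝ) ≤ q := by exact_mod_cast hq
  have hqM' : (q : ℝ) ≤ M := by exact_mod_cast hqM
  obtain ⟨z, hz⟩ : ∃ z : ℂ, z = pt M β := ⟨_, rfl⟩
  have hre : z.re = 1 / (M : ℝ) ^ 2 := by
    rw [hz, pt, add_re, ofReal_re, re_ofReal_mul, I_re, mul_zero, add_zero]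
  have him : z.im = β := by
    rw [hz, pt, add_im, ofReal_im, im_ofReal_mul, I_im, mul_one, zero_add]
  have hpt : pt M ((a : ℝ) / q + β) = z + (((a : ℝ) / q : ℝ) : ℂ) * I := by
    rw [hz, pt, pt]
    push_cast
    ring
  have h0 : 0 < z.re := by rw [hre]; positivity
  have hy : z.re * (M : ℝ) ^ 2 = 1 := by rw [hre]; field_simp
  have h1 : z.re ≤ 1 / 4 := by
    have : (4 : ℝ) ≤ (M : ℝ) ^ 2 := by nlinarith
    nlinarith
  have hβ1 : |β| * (q * M) ≤ 1 := by rwa [le_div_iff₀ (by positivity)] at hβ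
  have h2 : |z.im| ≤ 1 / 2 := by
    rw [him]
    have : (2 : ℝ) ≤ q * M := by nlinarith
    nlinarith [abs_nonneg β]
  have hz0 : z ≠ 0 := fun h => by simp [h] at h0
  have hN : 0 < ‖z‖ := norm_pos_iff.mpr hz0
  have hN2 : ‖z‖ ^ 2 = z.re ^ 2 + |β| ^ 2 := by
    rw [Complex.sq_norm, Complex.normSq_apply, him, sq_abs]
    ring
  have h3 : ‖z‖ ≤ 1 := by
    refine le_of_sq_le_sq ?_ zero_le_one
    rw [him] at h2
    nlinarith [abs_nonneg β]
  have h4 : ((q : ℝ) * ‖z‖ * M) ^ 2 ≤ 2 := by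
    have e1 : ((q : ℝ) * ‖z‖ * M) ^ 2 = (q : ℝ) ^ 2 * z.re + (|β| * (q * M)) ^ 2 := by
      rw [mul_pow, mul_pow, hN2]
      linear_combination ((q : ℝ) ^ 2 * z.re) * hy
    have e2 : (q : ℝ) ^ 2 * z.re ≤ 1 := by
      have : (q : ℝ) ^ 2 ≤ (M : ℝ) ^ 2 := pow_le_pow_left₀ (by positivity) hqM' 2
      nlinarith
    have e3 : (|β| * (q * M)) ^ 2 ≤ 1 := pow_le_one₀ (by positivity) hβ1
    linarith
  have h5 : (q : ℝ) * ‖z‖ * M ≤ 2 := le_of_sq_le_sq (by linarith) (by norm_num)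
  obtain ⟨w, hw⟩ : ∃ w : ℝ, w = √(1 / (q * ‖z‖)) := ⟨_, rfl⟩
  have hw0 : 0 ≤ w := by rw [hw]; positivity
  have hw2 : w ^ 2 * (q * ‖z‖) = 1 := by
    rw [hw, Real.sq_sqrt (by positivity)]
    field_simp
  obtain ⟨ν, hν⟩ : ∃ ν : ℝ, ν = ((q : ℝ) * ‖z‖ * M) ^ 2 := ⟨_, rfl⟩
  have hν0 : 0 ≤ ν := by rw [hν]; positivity
  have hν1 : ν * z.re = (q : ℝ) ^ 2 * ‖z‖ ^ 2 := by
    rw [hν]
    linear_combination ((q : ℝ) ^ 2 * ‖z‖ ^ 2) * hy
  have hν2 : ν ≤ 2 := by rwa [hν]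
  have hwν : w ^ 2 * ν ≤ 2 * M := by
    have e1 : w ^ 2 * ν = (q * ‖z‖ * M) * M := by
      rw [hν]
      linear_combination ((q : ℝ) * ‖z‖ * M ^ 2) * hw2
    rw [e1]
    exact mul_le_mul_of_nonneg_right h5 (by positivity)
  obtain ⟨e1, p1, m1, b1⟩ := H1 q a z w ν hq ha h0 (by linarith) hw0 hw2 hν1
  obtain ⟨e2, p2, m2, b2⟩ := H2 q a z w ν hq ha h0 (by linarith) hw0 hw2 hν1
  have hq0 : (q : ℂ) ≠ 0 := by exact_mod_cast hq.ne'
  have h11 : ((√11 : ℝ) : ℂ) ≠ 0 := by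
    have : (0 : ℝ) < √11 := by positivity
    exact_mod_cast this.ne'
  have hx : (4 * (q : ℂ) ^ 2 * z) ≠ 0 := by simp [hq0, hz0]
  have hmm : cexp (π * z * (((11 : ℤ) : ℂ) + 2 * ((-3 : ℤ) : ℂ)) ^ 2 / (4 * ((11 : ℤ) : ℂ))) /
        (4 * (q : ℂ) ^ 2 * ((11 : ℤ) : ℂ) * z) ^ (1 / 2 : ℂ) * SS 11 (-3) q a 0 *
      (cexp (π * z * (((1 : ℤ) : ℂ) + 2 * ((0 : ℤ) : ℂ)) ^ 2 / (4 * ((1 : ℤ) : ℂ))) /
        (4 * (q : ℂ) ^ 2 * ((1 : ℤ) : ℂ) * z) ^ (1 / 2 : ℂ) * SS 1 0 q a 0) - kap * gg q a * EE z =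
      gg q a / ((√11 : ℝ) : ℂ) * (cexp (9 * π * z / 11) / z - 2 * π * EE z) := by
    have a1 : 4 * (q : ℂ) ^ 2 * ((11 : ℤ) : ℂ) * z = 11 * (4 * (q : ℂ) ^ 2 * z) := by
      push_cast
      ring
    have a2 : 4 * (q : ℂ) ^ 2 * ((1 : ℤ) : ℂ) * z = 4 * (q : ℂ) ^ 2 * z := by
      push_cast
      ring
    have a3 : cexp (9 * π * z / 11) =
        cexp (π * z * (((11 : ℤ) : ℂ) + 2 * ((-3 : ℤ) : ℂ)) ^ 2 / (4 * ((11 : ℤ) : ℂ))) *
          cexp (π * z * (((1 : ℤ) : ℂ) + 2 * ((0 : ℤ) : ℂ)) ^ 2 / (4 * ((1 : ℤ) : ℂ))) := by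
      rw [← Complex.exp_add]
      congr 1
      push_cast
      ring
    have a4 := Loc.half_mul hx
    rw [a1, a2, a3]
    generalize cexp (π * z * (((11 : ℤ) : ℂ) + 2 * ((-3 : ℤ) : ℂ)) ^ 2 /
      (4 * ((11 : ℤ) : ℂ))) = X1
    generalize cexp (π * z * (((1 : ℤ) : ℂ) + 2 * ((0 : ℤ) : ℂ)) ^ 2 / (4 * ((1 : ℤ) : ℂ))) = X2
    generalize (11 * (4 * (q : ℂ) ^ 2 * z)) ^ (1 / 2 : ℂ) = u1 at a4 ⊢
    generalize (4 * (q : ℂ) ^ 2 * z) ^ (1 / 2 : ℂ) = u2 at a4 ⊢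
    have a5 : X1 / u1 * SS 11 (-3) q a 0 * (X2 / u2 * SS 1 0 q a 0) =
        X1 * X2 * (SS 11 (-3) q a 0 * SS 1 0 q a 0) / (u1 * u2) := by ring
    rw [a5, a4]
    unfold kap gg
    push_cast
    field_simp
  have hmain : ‖gg q a / ((√11 : ℝ) : ℂ) * (cexp (9 * π * z / 11) / z - 2 * π * EE z)‖ ≤ K3 := by
    rw [norm_mul, norm_div, Complex.norm_real, Real.norm_eq_abs, abs_of_nonneg (by positivity)]
    have g1 : ‖gg q a‖ ≤ 1 := (norm_gg_le hq ha).trans (by rw [div_le_one (by positivity)]; exact hq')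
    have g2 : (1 : ℝ) ≤ √11 := Real.one_le_sqrt.mpr (by norm_num)
    have g3 : ‖gg q a‖ / √11 ≤ 1 := by rw [div_le_one (by positivity)]; linarith
    calc _ ≤ 1 * K3 := mul_le_mul g3 (H3 z h0 h1 h2 h3) (norm_nonneg _) zero_le_one
      _ = K3 := one_mul _
  rw [hpt, ← hz, th, p1, p2]
  rw [← hmm] at hmain
  generalize cexp (π * z * (((11 : ℤ) : ℂ) + 2 * ((-3 : ℤ) : ℂ)) ^ 2 / (4 * ((11 : ℤ) : ℂ))) /
    (4 * (q : ℂ) ^ 2 * ((11 : ℤ) : ℂ) * z) ^ (1 / 2 : ℂ) * SS 11 (-3) q a 0 = x1 at m1 hmain ⊢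
  generalize cexp (π * z * (((1 : ℤ) : ℂ) + 2 * ((0 : ℤ) : ℂ)) ^ 2 / (4 * ((1 : ℤ) : ℂ))) /
    (4 * (q : ℂ) ^ 2 * ((1 : ℤ) : ℂ) * z) ^ (1 / 2 : ℂ) * SS 1 0 q a 0 = x2 at m2 hmain ⊢
  have e0 : (x1 + e1) * (x2 + e2) - kap * gg q a * EE z =
      (x1 * x2 - kap * gg q a * EE z) + (x1 * e2 + e1 * x2 + e1 * e2) := by ring
  have hK : 0 < K1 * K2 := by positivity
  have t1 : ‖x1 * e2‖ ≤ K1 * K2 * (2 * M) := by
    rw [norm_mul]
    calc _ ≤ K1 * w * (K2 * (w * ν)) := mul_le_mul m1 b2 (norm_nonneg _) (by positivity)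
      _ = K1 * K2 * (w ^ 2 * ν) := by ring
      _ ≤ _ := by gcongr
  have t2 : ‖e1 * x2‖ ≤ K1 * K2 * (2 * M) := by
    rw [norm_mul]
    calc _ ≤ K1 * (w * ν) * (K2 * w) := mul_le_mul b1 m2 (norm_nonneg _) (by positivity)
      _ = K1 * K2 * (w ^ 2 * ν) := by ring
      _ ≤ _ := by gcongr
  have t3 : ‖e1 * e2‖ ≤ K1 * K2 * (2 * M * 2) := by
    rw [norm_mul]
    calc _ ≤ K1 * (w * ν) * (K2 * (w * ν)) := mul_le_mul b1 b2 (norm_nonneg _) (by positivity)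
      _ = K1 * K2 * (w ^ 2 * ν * ν) := by ring
      _ ≤ _ := by gcongr
  rw [e0]
  have t4 := norm_add_le (x1 * x2 - kap * gg q a * EE z) (x1 * e2 + e1 * x2 + e1 * e2)
  have t5 := norm_add₃_le (a := x1 * e2) (b := e1 * x2) (c := e1 * e2)
  have t6 : K3 ≤ K3 * M := by nlinarith
  nlinarith

end Pool.Agent.MP_b9bf0c_nt

end
end

section

/-!
Odd integers as x^2 + 2 y^2 + 3 z^2 with x + y + z a square: the theta series on the whole circle.
-/

set_option autoImplicit false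

open Finset Complex
open scoped Real ArithmeticFunction.Moebius

noncomputable section

namespace Pool.Agent.MP_b9bf0c_nt

open Pool.Agent.MP_2a1f0e_nt (ex)
open Pool.Agent.MP_c903c4_nt (Red cc)

namespace Glob

theorem pt_re (M : ℕ) (β : ℝ) : (pt M β).re = 1 / (M : ℝ) ^ 2 := by
  simp only [pt, add_re, ofReal_re, mul_re, I_re, ofReal_im, I_im]
  ring

theorem pt_im (M : ℕ) (β : ℝ) : (pt M β).im = β := by
  simp only [pt, add_im, ofReal_im, mul_im, ofReal_re, I_im, I_re]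
  ring

theorem EE_shift (M : ℕ) (β : ℝ) (i : ℤ) : EE (pt M (β + i)) = EE (pt M β) := by
  have h : -(2 * (π : ℂ) * pt M (β + i)) = -(2 * π * pt M β) + ((-i : ℤ) : ℂ) * (2 * π * I) := by
    simp only [pt]
    push_cast
    ring
  simp only [EE]
  rw [h, Complex.exp_add, Complex.exp_int_mul_two_pi_mul_I, mul_one]

theorem norm_EE_pt {M : ℕ} (hM : 2 ≤ M) {β : ℝ} (hβ : |β| ≤ 1 / 2) :
    ‖EE (pt M β)‖ ≤ 1 / ‖pt M β‖ := by
  have hM' : (2 : ℝ) ≤ M := by exact_mod_cast hM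
  apply norm_EE_le
  · rw [pt_re]; positivity
  · rw [pt_re]
    apply one_div_le_one_div_of_le (by norm_num)
    nlinarith
  · rw [pt_im]; exact hβ

theorem norm_EE_sq {M : ℕ} (hM : 2 ≤ M) {β : ℝ} (hβ : |β| ≤ 1 / 2) :
    ‖EE (pt M β)‖ ≤ (M : ℝ) ^ 2 := by
  have hM' : (2 : ℝ) ≤ M := by exact_mod_cast hM
  refine (norm_EE_pt hM hβ).trans ?_
  have h1 : 1 / (M : ℝ) ^ 2 ≤ ‖pt M β‖ := by
    rw [← pt_re M β]
    exact Complex.re_le_norm _
  have h2 : (0 : ℝ) < 1 / (M : ℝ) ^ 2 := by positivity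
  calc 1 / ‖pt M β‖ ≤ 1 / (1 / (M : ℝ) ^ 2) := one_div_le_one_div_of_le h2 h1
    _ = (M : ℝ) ^ 2 := by rw [one_div_one_div]

theorem norm_EE_im {M : ℕ} (hM : 2 ≤ M) {β δ : ℝ} (hβ : |β| ≤ 1 / 2) (hδ : 0 < δ)
    (h : δ ≤ |β|) : ‖EE (pt M β)‖ ≤ 1 / δ := by
  refine (norm_EE_pt hM hβ).trans ?_
  apply one_div_le_one_div_of_le hδ
  refine h.trans ?_
  have := Complex.abs_im_le_norm (pt M β)
  rwa [pt_im] at this

/-- The numerator nearest to `α q` in the class of `a`. -/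
def nn (α : ℝ) (q a : ℕ) : ℤ := a + q * round (α - (a : ℝ) / q)

/-- The determinant of two fractions. -/
def DD (α : ℝ) (a0 : ℤ) (q0 : ℕ) (q a : ℕ) : ℤ := a0 * q - nn α q a * q0

theorem emod_toNat {q a : ℕ} (ha : a < q) (i : ℤ) : (((a : ℤ) + q * i) % q).toNat = a := by
  rw [Int.add_mul_emod_self_left, Int.emod_eq_of_lt (by positivity) (by exact_mod_cast ha)]
  simp

theorem DD_ne {α : ℝ} {a0 : ℤ} {q0 q a : ℕ} (h0 : IsCoprime a0 (q0 : ℤ)) (hq0 : 0 < q0)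
    (ha : a ∈ Red q) (hD : DD α a0 q0 q a = 0) :
    q = q0 ∧ a = (a0 % q0).toNat := by
  rw [Pool.Agent.MP_c903c4_nt.Four_memRed] at ha
  obtain ⟨h1, h2⟩ := ha
  have hc : IsCoprime (nn α q a) (q : ℤ) := by
    have : IsCoprime (a : ℤ) (q : ℤ) := Nat.isCoprime_iff_coprime.mpr h2
    exact this.add_mul_left_left _
  have he : a0 * q = nn α q a * q0 := by
    unfold DD at hD
    linarith
  have d1 : (q0 : ℤ) ∣ q := by
    apply h0.symm.dvd_of_dvd_mul_left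
    rw [he]
    exact dvd_mul_left _ _
  have d2 : (q : ℤ) ∣ q0 := by
    apply hc.symm.dvd_of_dvd_mul_left
    rw [← he]
    exact dvd_mul_left _ _
  have hq : q = q0 := Nat.dvd_antisymm (by exact_mod_cast d2) (by exact_mod_cast d1)
  subst hq
  refine ⟨rfl, ?_⟩
  have hq' : (q : ℤ) ≠ 0 := by exact_mod_cast hq0.ne'
  have : a0 = nn α q a := mul_right_cancel₀ hq' he
  rw [this]
  exact (emod_toNat h1 _).symm

theorem term_le {M : ℕ} (hM : 2 ≤ M) {α : ℝ} {a0 : ℤ} {q0 q a : ℕ} (hq0 : 0 < q0) (hq0M : q0 ≤ M)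
    (hβ : |α - (a0 : ℝ) / q0| ≤ 1 / ((q0 : ℝ) * M)) (hq : q ∈ Ioc 0 (M / 2)) (ha : a ∈ Red q)
    (hD : DD α a0 q0 q a ≠ 0) :
    ‖gg q a * EE (pt M (α - (a : ℝ) / q))‖ ≤ 2 * q0 / |(DD α a0 q0 q a : ℝ)| ∧
      (DD α a0 q0 q a).natAbs ≤ M ^ 2 := by
  rw [Pool.Agent.MP_c903c4_nt.Four_memRed] at ha
  obtain ⟨-, h2⟩ := ha
  rw [mem_Ioc] at hq
  obtain ⟨hq1, hq2⟩ := hq
  have hq3 : 2 * q ≤ M := by omega
  have hqR : (0 : ℝ) < q := by exact_mod_cast hq1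
  have hq0R : (0 : ℝ) < q0 := by exact_mod_cast hq0
  have hq3R : 2 * (q : ℝ) ≤ M := by exact_mod_cast hq3
  have hq0MR : (q0 : ℝ) ≤ M := by exact_mod_cast hq0M
  set i : ℤ := round (α - (a : ℝ) / q) with hi
  set b : ℝ := α - (a : ℝ) / q - i with hb
  have hb2 : |b| ≤ 1 / 2 := abs_sub_round _
  set D : ℤ := DD α a0 q0 q a with hDdef
  have hD1 : (1 : ℝ) ≤ |(D : ℝ)| := by
    have : (1 : ℤ) ≤ |D| := Int.one_le_abs hD
    exact_mod_cast this
  have hbD : b = (α - (a0 : ℝ) / q0) + (D : ℝ) / (q * q0) := by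
    rw [hb, hDdef]
    simp only [DD, nn, ← hi]
    push_cast
    field_simp
    ring
  have hsmall : |α - (a0 : ℝ) / q0| ≤ |(D : ℝ)| / (2 * q * q0) := by
    refine hβ.trans ?_
    rw [div_le_div_iff₀ (by nlinarith) (by positivity)]
    have h8 : (q0 : ℝ) * (2 * q) ≤ q0 * M := by gcongr
    have h9 : 1 * ((q0 : ℝ) * M) ≤ |(D : ℝ)| * (q0 * M) :=
      mul_le_mul_of_nonneg_right hD1 (by nlinarith)
    linarith
  have hlow : |(D : ℝ)| / (2 * q * q0) ≤ |b| := by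
    have h3 : |(D : ℝ) / (q * q0)| ≤ |b| + |α - (a0 : ℝ) / q0| := by
      have : (D : ℝ) / (q * q0) = b - (α - (a0 : ℝ) / q0) := by rw [hbD]; ring
      rw [this]
      exact abs_sub _ _
    rw [abs_div, abs_of_pos (by positivity : (0 : ℝ) < q * q0)] at h3
    have h4 : |(D : ℝ)| / (q * q0) = 2 * (|(D : ℝ)| / (2 * q * q0)) := by
      field_simp
    linarith
  have hpos : 0 < |(D : ℝ)| / (2 * q * q0) := by positivity
  constructor
  · have e1 : EE (pt M (α - (a : ℝ) / q)) = EE (pt M b) := by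
      rw [← EE_shift M b i]
      congr 2
      rw [hb]
      ring
    rw [norm_mul, e1]
    have g1 : ‖gg q a‖ ≤ 1 / q := norm_gg_le hq1 (Nat.isCoprime_iff_coprime.mpr h2)
    have g2 := norm_EE_im hM hb2 hpos hlow
    calc ‖gg q a‖ * ‖EE (pt M b)‖ ≤ 1 / q * (1 / (|(D : ℝ)| / (2 * q * q0))) := by
          gcongr
      _ = 2 * q0 / |(D : ℝ)| := by
          field_simp
  · have h5 : |(D : ℝ)| ≤ (M : ℝ) ^ 2 := by
      have h6 := hlow.trans hb2
      rw [div_le_iff₀ (by positivity)] at h6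
      have : (q : ℝ) * q0 ≤ M * M := by
        apply mul_le_mul (by linarith) hq0MR hq0R.le (by linarith)
      nlinarith
    have h7 : |D| ≤ (M : ℤ) ^ 2 := by exact_mod_cast h5
    zify
    exact h7

theorem inj {α : ℝ} {a0 : ℤ} {q0 q a q' a' : ℕ} (h0 : IsCoprime a0 (q0 : ℤ)) (hq0 : 0 < q0)
    (ha : a < q) (ha' : a' < q') (hD : DD α a0 q0 q a = DD α a0 q0 q' a')
    (hk : q / q0 = q' / q0) : q = q' ∧ a = a' := by
  have d1 : (q0 : ℤ) ∣ (q' : ℤ) - q := by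
    apply h0.symm.dvd_of_dvd_mul_left
    refine ⟨nn α q' a' - nn α q a, ?_⟩
    unfold DD at hD
    linarith
  have hmod : q % q0 = q' % q0 := (Nat.modEq_iff_dvd).mpr d1
  have hq : q = q' := by
    rw [← Nat.div_add_mod q q0, ← Nat.div_add_mod q' q0, hk, hmod]
  subst hq
  refine ⟨rfl, ?_⟩
  have hq' : (q0 : ℤ) ≠ 0 := by exact_mod_cast hq0.ne'
  have h1 : nn α q a = nn α q a' := by
    apply mul_right_cancel₀ hq'
    unfold DD at hD
    linarith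
  rw [← emod_toNat ha (round (α - (a : ℝ) / q)), ← emod_toNat ha' (round (α - (a' : ℝ) / q))]
  exact congrArg (fun x : ℤ => (x % q).toNat) h1

theorem harm_le (N : ℕ) : ∑ n ∈ Icc 1 N, 1 / (n : ℝ) ≤ 1 + Real.log N := by
  have h := harmonic_le_one_add_log N
  rw [harmonic_eq_sum_Icc] at h
  push_cast at h
  simpa only [one_div] using h

theorem rest_le {M : ℕ} (hM : 2 ≤ M) {α : ℝ} {a0 : ℤ} {q0 : ℕ} (h0 : IsCoprime a0 (q0 : ℤ))
    (hq0 : 0 < q0) (hq0M : q0 ≤ M) (hβ : |α - (a0 : ℝ) / q0| ≤ 1 / ((q0 : ℝ) * M)) :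
    ‖∑ p ∈ ((Ioc 0 (M / 2)).sigma Red).erase ⟨q0, (a0 % q0).toNat⟩,
      gg p.1 p.2 * EE (pt M (α - (p.2 : ℝ) / p.1))‖ ≤ 24 * M * (1 + Real.log M) := by
  classical
  set S : Finset (Σ _ : ℕ, ℕ) := ((Ioc 0 (M / 2)).sigma Red).erase ⟨q0, (a0 % q0).toNat⟩ with hS
  have hmem : ∀ p ∈ S, p.1 ∈ Ioc 0 (M / 2) ∧ p.2 ∈ Red p.1 ∧ DD α a0 q0 p.1 p.2 ≠ 0 := by
    intro p hp
    rw [hS, mem_erase, mem_sigma] at hp
    refine ⟨hp.2.1, hp.2.2, fun hD => hp.1 ?_⟩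
    obtain ⟨e1, e2⟩ := DD_ne h0 hq0 hp.2.2 hD
    obtain ⟨q, a⟩ := p
    simp only at e1 e2
    subst e1
    rw [e2]
  let g : (Σ _ : ℕ, ℕ) → ℕ × ℤ × ℕ := fun p =>
    ((DD α a0 q0 p.1 p.2).natAbs, (DD α a0 q0 p.1 p.2).sign, p.1 / q0)
  let f : ℕ × ℤ × ℕ → ℝ := fun x => 2 * q0 * (1 / (x.1 : ℝ))
  let T : Finset (ℕ × ℤ × ℕ) := Icc 1 (M ^ 2) ×ˢ (Icc (-1 : ℤ) 1 ×ˢ range (M / q0 + 1))
  have hinj : Set.InjOn g S := by
    intro p hp p' hp' h
    obtain ⟨-, h2, -⟩ := hmem p hp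
    obtain ⟨-, h2', -⟩ := hmem p' hp'
    rw [Pool.Agent.MP_c903c4_nt.Four_memRed] at h2 h2'
    simp only [g, Prod.mk.injEq] at h
    obtain ⟨e1, e2, e3⟩ := h
    have hD : DD α a0 q0 p.1 p.2 = DD α a0 q0 p'.1 p'.2 := by
      rw [← Int.sign_mul_natAbs (DD α a0 q0 p.1 p.2), ← Int.sign_mul_natAbs (DD α a0 q0 p'.1 p'.2),
        e1, e2]
    obtain ⟨e4, e5⟩ := inj h0 hq0 h2.1 h2'.1 hD e3
    obtain ⟨q, a⟩ := p
    obtain ⟨q', a'⟩ := p'
    simp only at e4 e5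
    subst e4
    rw [e5]
  have hsub : S.image g ⊆ T := by
    intro x hx
    rw [mem_image] at hx
    obtain ⟨p, hp, rfl⟩ := hx
    obtain ⟨h1, h2, h3⟩ := hmem p hp
    have h4 := (term_le hM hq0 hq0M hβ h1 h2 h3).2
    simp only [g, T, mem_product, mem_Icc, mem_range]
    refine ⟨⟨Int.natAbs_pos.mpr h3, h4⟩, ?_, ?_⟩
    · rcases lt_trichotomy (DD α a0 q0 p.1 p.2) 0 with h | h | h
      · rw [Int.sign_eq_neg_one_of_neg h]; omega
      · exact absurd h h3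
      · rw [Int.sign_eq_one_of_pos h]; omega
    · rw [mem_Ioc] at h1
      have : p.1 / q0 ≤ M / q0 := Nat.div_le_div_right (by omega)
      omega
  have hq0R : (0 : ℝ) < q0 := by exact_mod_cast hq0
  have hq0MR : (q0 : ℝ) ≤ M := by exact_mod_cast hq0M
  have hM' : (2 : ℝ) ≤ M := by exact_mod_cast hM
  have hlog : 0 ≤ Real.log M := Real.log_nonneg (by linarith)
  calc ‖∑ p ∈ S, gg p.1 p.2 * EE (pt M (α - (p.2 : ℝ) / p.1))‖
      ≤ ∑ p ∈ S, ‖gg p.1 p.2 * EE (pt M (α - (p.2 : ℝ) / p.1))‖ := norm_sum_le _ _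
    _ ≤ ∑ p ∈ S, f (g p) := by
        apply sum_le_sum
        intro p hp
        obtain ⟨h1, h2, h3⟩ := hmem p hp
        refine (term_le hM hq0 hq0M hβ h1 h2 h3).1.trans (le_of_eq ?_)
        simp only [f, g, Nat.cast_natAbs, Int.cast_abs]
        ring
    _ = ∑ x ∈ S.image g, f x := (sum_image hinj).symm
    _ ≤ ∑ x ∈ T, f x := by
        apply sum_le_sum_of_subset_of_nonneg hsub
        intro x _ _
        simp only [f]
        positivity
    _ = (3 * ((M / q0 + 1 : ℕ) : ℝ)) * (2 * q0) * ∑ n ∈ Icc 1 (M ^ 2), 1 / (n : ℝ) := by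
        simp only [T, f, sum_product, sum_const, card_product, card_range, nsmul_eq_mul, mul_sum]
        apply sum_congr rfl
        intro n _
        have : (Icc (-1 : ℤ) 1).card = 3 := by decide
        rw [this]
        push_cast
        ring
    _ ≤ (12 * M) * (1 + Real.log ((M ^ 2 : ℕ) : ℝ)) := by
        apply mul_le_mul _ (harm_le _) (sum_nonneg fun n _ => by positivity) (by positivity)
        have h1 : ((M / q0 : ℕ) : ℝ) * q0 ≤ M := by exact_mod_cast Nat.div_mul_le_self M q0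
        rw [Nat.cast_add, Nat.cast_one]
        nlinarith
    _ ≤ 24 * M * (1 + Real.log M) := by
        rw [Nat.cast_pow, Real.log_pow]
        push_cast
        nlinarith

theorem sum_sub_le {M : ℕ} (hM : 2 ≤ M) {α : ℝ} {a0 : ℤ} {q0 : ℕ} (h0 : IsCoprime a0 (q0 : ℤ))
    (hq0 : 0 < q0) (hq0M : q0 ≤ M) (hβ : |α - (a0 : ℝ) / q0| ≤ 1 / ((q0 : ℝ) * M)) :
    ‖gg q0 a0 * EE (pt M (α - (a0 : ℝ) / q0)) - ∑ q ∈ Ioc 0 (M / 2), ∑ a ∈ Red q,
      gg q a * EE (pt M (α - (a : ℝ) / q))‖ ≤ 26 * M * (1 + Real.log M) := by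
  classical
  have hr := rest_le hM h0 hq0 hq0M hβ
  have hq0R : (0 : ℝ) < q0 := by exact_mod_cast hq0
  have hq01 : (1 : ℝ) ≤ q0 := by exact_mod_cast hq0
  have hM' : (2 : ℝ) ≤ M := by exact_mod_cast hM
  have hlog : 0 ≤ Real.log M := Real.log_nonneg (by linarith)
  rw [sum_sigma' (Ioc 0 (M / 2)) Red (fun q a => gg q a * EE (pt M (α - (a : ℝ) / q)))]
  by_cases hs : q0 ≤ M / 2
  · have hq0Z : (0 : ℤ) < q0 := by exact_mod_cast hq0
    have hnn : 0 ≤ a0 % q0 := Int.emod_nonneg _ hq0Z.ne'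
    have hcast : (((a0 % q0).toNat : ℕ) : ℤ) = a0 % q0 := Int.toNat_of_nonneg hnn
    have hdec : a0 = (((a0 % q0).toNat : ℕ) : ℤ) + q0 * (a0 / q0) := by
      rw [hcast]
      exact (Int.emod_add_mul_ediv a0 q0).symm
    have hin : (⟨q0, (a0 % q0).toNat⟩ : Σ _ : ℕ, ℕ) ∈ (Ioc 0 (M / 2)).sigma Red := by
      rw [mem_sigma, mem_Ioc, Pool.Agent.MP_c903c4_nt.Four_memRed]
      refine ⟨⟨hq0, hs⟩, ?_, ?_⟩
      · have := Int.emod_lt_of_pos a0 hq0Z
        simp only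
        omega
      · simp only
        rw [← Nat.isCoprime_iff_coprime]
        rw [hdec] at h0
        exact h0.of_add_mul_left_left
    rw [← add_sum_erase _ _ hin]
    have e1 : gg q0 ((a0 % q0).toNat : ℕ) = gg q0 a0 := by
      rw [← gg_add q0 _ (a0 / q0), ← hdec]
    have e2 : EE (pt M (α - (((a0 % q0).toNat : ℕ) : ℝ) / q0)) =
        EE (pt M (α - (a0 : ℝ) / q0)) := by
      rw [← EE_shift M (α - (a0 : ℝ) / q0) (a0 / q0)]
      congr 2
      have h1 : (a0 : ℝ) = (((a0 % q0).toNat : ℕ) : ℝ) + q0 * ((a0 / q0 : ℤ) : ℝ) := by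
        exact_mod_cast hdec
      rw [h1]
      field_simp
      ring
    simp only
    rw [e1, e2, sub_add_cancel_left, norm_neg]
    refine hr.trans ?_
    nlinarith
  · have hnot : (⟨q0, (a0 % q0).toNat⟩ : Σ _ : ℕ, ℕ) ∉ (Ioc 0 (M / 2)).sigma Red := by
      rw [mem_sigma, mem_Ioc]
      exact fun h => hs h.1.2
    rw [erase_eq_of_notMem hnot] at hr
    refine (norm_sub_le _ _).trans ?_
    have hb2 : |α - (a0 : ℝ) / q0| ≤ 1 / 2 := by
      refine hβ.trans (one_div_le_one_div_of_le (by norm_num) ?_)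
      nlinarith
    have g1 : ‖gg q0 a0‖ ≤ 1 / q0 := norm_gg_le hq0 h0
    have g2 := norm_EE_sq hM hb2
    have h2 : (M : ℝ) ≤ 2 * q0 := by
      have : M ≤ 2 * q0 := by omega
      exact_mod_cast this
    have g3 : ‖gg q0 a0 * EE (pt M (α - (a0 : ℝ) / q0))‖ ≤ 2 * M := by
      rw [norm_mul]
      calc ‖gg q0 a0‖ * ‖EE (pt M (α - (a0 : ℝ) / q0))‖ ≤ 1 / q0 * (M : ℝ) ^ 2 := by gcongr
        _ ≤ 2 * M := by
          rw [one_div_mul_eq_div, div_le_iff₀ hq0R]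
          nlinarith
    nlinarith

end Glob

theorem theta_approx : ∃ C : ℝ, 0 < C ∧ ∀ (M : ℕ) (α : ℝ), 2 ≤ M →
    ‖th (pt M α) - kap * ∑ q ∈ Ioc 0 (M / 2), ∑ a ∈ Red q,
      gg q a * EE (pt M (α - (a : ℝ) / q))‖ ≤ C * M * (1 + Real.log M) := by
  obtain ⟨C, hC, h⟩ := theta_loc
  refine ⟨C + 26 * ‖kap‖, by positivity, fun M α hM => ?_⟩
  obtain ⟨r, hr1, hr2⟩ := Real.exists_rat_abs_sub_le_and_den_le α (n := M) (by omega)
  have hM' : (2 : ℝ) ≤ M := by exact_mod_cast hM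
  have hlog : 0 ≤ Real.log M := Real.log_nonneg (by linarith)
  have hq0R : (0 : ℝ) < r.den := by exact_mod_cast r.den_pos
  have h0 : IsCoprime r.num (r.den : ℤ) := by
    rw [Int.isCoprime_iff_gcd_eq_one]
    exact r.reduced
  have hβ : |α - (r.num : ℝ) / r.den| ≤ 1 / ((r.den : ℝ) * M) := by
    rw [← Rat.cast_def]
    refine hr1.trans (one_div_le_one_div_of_le (by positivity) ?_)
    nlinarith
  have h1 := h M r.den r.num _ hM r.den_pos hr2 h0 hβ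
  rw [add_sub_cancel] at h1
  have h2 := Glob.sum_sub_le hM h0 r.den_pos hr2 hβ
  set X := ∑ q ∈ Ioc 0 (M / 2), ∑ a ∈ Red q, gg q a * EE (pt M (α - (a : ℝ) / q))
  set L := EE (pt M (α - (r.num : ℝ) / r.den))
  have e : th (pt M α) - kap * X =
      (th (pt M α) - kap * gg r.den r.num * L) + kap * (gg r.den r.num * L - X) := by ring
  rw [e]
  refine (norm_add_le _ _).trans ?_
  rw [norm_mul]
  have h3 : ‖kap‖ * ‖gg r.den r.num * L - X‖ ≤ ‖kap‖ * (26 * M * (1 + Real.log M)) := by gcongr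
  have h4 : C * M ≤ C * M * (1 + Real.log M) := by
    have : 0 ≤ C * M := by positivity
    nlinarith
  nlinarith

end Pool.Agent.MP_b9bf0c_nt

end
end

section

/-!
Odd integers as x^2 + 2 y^2 + 3 z^2 with x + y + z a square: the model at integers with no representation.
-/

set_option autoImplicit false

open Finset Complex
open scoped Real ArithmeticFunction.Moebius

noncomputable section

namespace Pool.Agent.MP_b9bf0c_nt

open Pool.Agent.MP_2a1f0e_nt (ex)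
open Pool.Agent.MP_c903c4_nt (Red cc)

namespace Bessel

open Pool.Agent.MP_2a1f0e_nt

@[fun_prop]
lemma cont_ex {f : ℝ → ℝ} (hf : Continuous f) : Continuous fun x => ex (f x) := by
  unfold ex
  fun_prop

lemma int_ex (n : ℤ) : ∫ α in (0 : ℝ)..1, ex (α * n) = if n = 0 then 1 else 0 := by
  split_ifs with h
  · simp [h, ex_zero]
  · have e : ∀ α : ℝ, ex (α * n) = cexp ((n * (2 * π * I)) * α) := fun α => by
      unfold ex
      congr 1
      push_cast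
      ring
    simp_rw [e]
    rw [integral_exp_mul_complex (mul_ne_zero (by exact_mod_cast h) two_pi_I_ne_zero)]
    simp [exp_int_mul_two_pi_mul_I]

lemma int_sq {ι : Type} (s : Finset ι) (c : ι → ℂ) (f : ι → ℤ) (hf : Set.InjOn f s) :
    ∫ α in (0 : ℝ)..1, ‖∑ i ∈ s, c i * ex (α * f i)‖ ^ 2 = ∑ i ∈ s, ‖c i‖ ^ 2 := by
  classical
  apply ofReal_injective
  rw [← intervalIntegral.integral_ofReal]
  simp_rw [normsq_sum, ← mul_sub, ← Int.cast_sub]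
  rw [intervalIntegral.integral_finsetSum fun i _ => Continuous.intervalIntegrable (by fun_prop) _ _,
    ofReal_sum]
  refine sum_congr rfl fun i hi => ?_
  rw [intervalIntegral.integral_finsetSum fun i _ => Continuous.intervalIntegrable (by fun_prop) _ _,
    sum_eq_single_of_mem i hi]
  · rw [intervalIntegral.integral_const_mul, int_ex, if_pos (sub_self _), mul_one, mul_conj,
      normSq_eq_norm_sq]
  · intro j hj hne
    rw [intervalIntegral.integral_const_mul, int_ex, if_neg, mul_zero]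
    exact fun h => hne (hf hi hj (sub_eq_zero.1 h)).symm

lemma dual {R G : ℝ → ℂ} (hR : Continuous R) (hG : Continuous G) {B : ℝ}
    (h : ∀ α, ‖R α‖ ≤ B) (E : Finset ℕ) :
    ∑ ν ∈ E, ‖∫ α in (0 : ℝ)..1, R α * G α * ex (α * (ν : ℤ))‖ ^ 2 ≤
      B ^ 2 * ∫ α in (0 : ℝ)..1, ‖G α‖ ^ 2 := by
  obtain ⟨c, hc⟩ : ∃ c : ℕ → ℂ, ∀ ν, c ν = ∫ α in (0 : ℝ)..1, R α * G α * ex (α * (ν : ℤ)) :=
    ⟨_, fun _ => rfl⟩
  simp_rw [← hc]
  obtain ⟨P, hP⟩ : ∃ P : ℝ → ℂ, P = fun α => ∑ ν ∈ E, (starRingEnd ℂ) (c ν) * ex (α * (ν : ℤ)) :=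
    ⟨_, rfl⟩
  have cP : Continuous P := by rw [hP]; fun_prop
  have h1 : ∫ α in (0 : ℝ)..1, ‖P α‖ ^ 2 = ∑ ν ∈ E, ‖c ν‖ ^ 2 := by
    rw [hP, int_sq E _ (fun ν : ℕ => (ν : ℤ)) fun _ _ _ _ h => Nat.cast_injective h]
    simp
  have h2 : ((∑ ν ∈ E, ‖c ν‖ ^ 2 : ℝ) : ℂ) = ∫ α in (0 : ℝ)..1, R α * G α * P α := by
    simp_rw [hP, mul_sum]
    rw [intervalIntegral.integral_finsetSum fun i _ =>
      Continuous.intervalIntegrable (by fun_prop) _ _, ofReal_sum]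
    refine sum_congr rfl fun ν _ => ?_
    simp_rw [mul_left_comm _ ((starRingEnd ℂ) (c ν))]
    rw [intervalIntegral.integral_const_mul, ← hc, mul_comm, mul_conj, normSq_eq_norm_sq]
  have h3 : ∑ ν ∈ E, ‖c ν‖ ^ 2 ≤
      ∫ α in (0 : ℝ)..1, (B ^ 2 / 2 * ‖G α‖ ^ 2 + 1 / 2 * ‖P α‖ ^ 2) := by
    have h4 := congrArg norm h2
    rw [norm_real, Real.norm_of_nonneg (by positivity)] at h4
    rw [h4]
    refine intervalIntegral.norm_integral_le_of_norm_le zero_le_one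
      (Filter.Eventually.of_forall fun α _ => ?_) (Continuous.intervalIntegrable (by fun_prop) _ _)
    rw [norm_mul, norm_mul]
    nlinarith [mul_le_mul_of_nonneg_right (h α) (mul_nonneg (norm_nonneg (G α)) (norm_nonneg (P α))),
      sq_nonneg (B * ‖G α‖ - ‖P α‖)]
  rw [intervalIntegral.integral_add (Continuous.intervalIntegrable (by fun_prop) _ _)
    (Continuous.intervalIntegrable (by fun_prop) _ _), intervalIntegral.integral_const_mul,
    intervalIntegral.integral_const_mul, h1] at h3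
  linarith

lemma int_tsum {ι : Type} [Countable ι] {c : ι → ℂ} (hc : Summable fun i => ‖c i‖) (f : ι → ℤ)
    {F : ℝ → ℂ} (hF : ∀ α, F α = ∑' i, c i * ex (-(α * f i))) :
    Continuous F ∧ ∀ n : ℤ, HasSum (fun i => if f i = n then c i else 0)
      (∫ α in (0 : ℝ)..1, F α * ex (α * n)) := by
  have hn : ∀ i x, ‖c i * ex x‖ = ‖c i‖ := fun i x => by rw [norm_mul, norm_ex, mul_one]
  refine ⟨?_, fun n => ?_⟩
  · rw [funext hF]
    exact continuous_tsum (fun i => by fun_prop) hc fun i α => (hn i _).le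
  · have h1 : HasSum (fun i => ∫ α in (0 : ℝ)..1, c i * ex (α * (n - f i : ℤ)))
        (∫ α in (0 : ℝ)..1, F α * ex (α * n)) :=
      intervalIntegral.hasSum_integral_of_dominated_convergence (fun i _ => ‖c i‖)
        (fun i => Continuous.aestronglyMeasurable (by fun_prop))
        (fun i => Filter.Eventually.of_forall fun α _ => (hn i _).le)
        (Filter.Eventually.of_forall fun _ _ => hc) intervalIntegrable_const
        (Filter.Eventually.of_forall fun α _ => by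
          rw [hF]
          have e : ∀ i, c i * ex (α * (n - f i : ℤ)) = c i * ex (-(α * f i)) * ex (α * n) :=
            fun i => by
              rw [mul_assoc, ← ex_add]
              congr 2
              push_cast
              ring
          simp_rw [e]
          exact ((hc.congr fun i => (hn i (-(α * f i))).symm).of_norm.hasSum).mul_right _)
    convert h1 using 2 with i
    rw [intervalIntegral.integral_const_mul, int_ex]
    simp only [sub_eq_zero, eq_comm (a := n), mul_ite, mul_one, mul_zero]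

/-- the weight -/
def ww (M : ℕ) (m : ℤ) : ℝ := Real.exp (-(2 * π * (1 / (M : ℝ) ^ 2) * m))

lemma ww_add (M : ℕ) (m n : ℤ) : ww M (m + n) = ww M m * ww M n := by
  unfold ww
  rw [← Real.exp_add]
  congr 1
  push_cast
  ring

lemma exp_pt (M : ℕ) (α : ℝ) (m : ℤ) :
    cexp (-(2 * π * pt M α * m)) = ww M m * ex (-(α * m)) := by
  unfold pt ww ex
  rw [ofReal_exp, ← exp_add]
  congr 1
  push_cast
  ring

lemma norm_pt (M : ℕ) (α : ℝ) (m : ℤ) : ‖cexp (-(2 * π * pt M α * m))‖ = ‖(ww M m : ℂ)‖ := by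
  rw [exp_pt, norm_mul, norm_ex, mul_one]

lemma pt_re {M : ℕ} (hM : 2 ≤ M) (α : ℝ) : 0 < (pt M α).re := by
  have : (0 : ℝ) < M := by exact_mod_cast (by omega : 0 < M)
  unfold pt
  rw [add_re, ofReal_re, re_ofReal_mul, I_re, mul_zero, add_zero]
  positivity

lemma th_co {M : ℕ} (hM : 2 ≤ M) : (Continuous fun α => th (pt M α)) ∧
    ∀ n : ℤ, (∀ j k, qf 11 (-3) j + qf 1 0 k ≠ n) →
      ∫ α in (0 : ℝ)..1, th (pt M α) * ex (α * n) = 0 := by
  have h1 := fun α => summable_phi (A := 11) (by norm_num) (-3) (pt_re hM α)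
  have h2 := fun α => summable_phi (A := 1) (by norm_num) 0 (pt_re hM α)
  have h5 : Summable fun j => ‖(ww M (qf 11 (-3) j) : ℂ)‖ := (h1 0).congr fun j => norm_pt M 0 _
  have h6 : Summable fun j => ‖(ww M (qf 1 0 j) : ℂ)‖ := (h2 0).congr fun j => norm_pt M 0 _
  have h7 := h5.mul_norm h6
  have h8 : ∀ α, th (pt M α) = ∑' p : ℤ × ℤ, (ww M (qf 11 (-3) p.1) : ℂ) * (ww M (qf 1 0 p.2) : ℂ) *
      ex (-(α * (qf 11 (-3) p.1 + qf 1 0 p.2 : ℤ))) := fun α => by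
    unfold th phi
    rw [tsum_mul_tsum_of_summable_norm (h1 α) (h2 α)]
    refine tsum_congr fun p => ?_
    rw [exp_pt, exp_pt, mul_mul_mul_comm, ← ex_add]
    congr 2
    push_cast
    ring
  obtain ⟨h3, h4⟩ := int_tsum h7 (fun p => qf 11 (-3) p.1 + qf 1 0 p.2) h8
  refine ⟨h3, fun n hn => (h4 n).unique ?_⟩
  simp [hn]

lemma EE_co {M : ℕ} (hM : 2 ≤ M) (θ : ℝ) : (Continuous fun α => EE (pt M (α - θ))) ∧
    ∀ n : ℕ, ∫ α in (0 : ℝ)..1, EE (pt M (α - θ)) * ex (α * (n : ℤ)) = ww M n * ex (θ * n) := by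
  have h1 : ∀ β, ‖cexp (-(2 * π * pt M β))‖ < 1 := fun β => by
    rw [norm_exp, Real.exp_lt_one_iff, neg_re, mul_assoc, ← ofReal_ofNat, re_ofReal_mul,
      re_ofReal_mul, neg_lt_zero]
    have := pt_re hM β
    positivity
  have h2 : ∀ β (m : ℕ), cexp (-(2 * π * pt M β)) ^ m = ww M m * ex (-(β * m)) := fun β m => by
    have := exp_pt M β m
    rw [Int.cast_natCast, Int.cast_natCast] at this
    rw [← this, ← exp_nat_mul]
    congr 1
    ring
  obtain ⟨h3, h4⟩ := int_tsum (ι := ℕ) (c := fun m => (ww M m : ℂ) * ex (θ * m))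
    ((summable_norm_geometric_of_norm_lt_one (h1 0)).congr fun m => by
      rw [h2, norm_mul, norm_mul, norm_ex, norm_ex])
    (fun m => m) (F := fun α => EE (pt M (α - θ))) fun α => by
      unfold EE
      rw [one_div, ← tsum_geometric_of_norm_lt_one (h1 _)]
      refine tsum_congr fun m => ?_
      rw [h2, mul_assoc, ← ex_add]
      congr 2
      push_cast
      ring
  refine ⟨h3, fun n => (h4 n).unique ?_⟩
  simpa using hasSum_single (f := fun i : ℕ => if i = n then (ww M i : ℂ) * ex (θ * i) else 0) n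
    fun i hi => if_neg hi

/-- the error term -/
def Er (M : ℕ) (α : ℝ) : ℂ := th (pt M α) - kap * ∑ q ∈ Ioc 0 (M / 2), ∑ a ∈ Red q,
  gg q a * EE (pt M (α - (a : ℝ) / q))

lemma Er_co {M : ℕ} (hM : 2 ≤ M) : Continuous (Er M) ∧
    ∀ n : ℕ, (∀ j k, qf 11 (-3) j + qf 1 0 k ≠ n) →
      ∫ α in (0 : ℝ)..1, Er M α * ex (α * (n : ℤ)) =
        -(kap * ww M n * ∑ q ∈ Ioc 0 (M / 2), ∑ a ∈ Red q, gg q a * ex ((a : ℝ) / q * n)) := by
  obtain ⟨h1, h2⟩ := th_co hM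
  have h3 := fun θ => (EE_co hM θ).1
  refine ⟨by unfold Er; fun_prop, fun n hn => ?_⟩
  simp_rw [Er, sub_mul, mul_assoc, sum_mul, mul_assoc]
  rw [intervalIntegral.integral_sub (Continuous.intervalIntegrable (by fun_prop) _ _)
    (Continuous.intervalIntegrable (by fun_prop) _ _), h2 _ hn, zero_sub,
    intervalIntegral.integral_const_mul,
    intervalIntegral.integral_finsetSum fun i _ => Continuous.intervalIntegrable (by fun_prop) _ _,
    mul_sum (a := (ww M n : ℂ))]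
  congr 2
  refine sum_congr rfl fun q _ => ?_
  rw [intervalIntegral.integral_finsetSum fun i _ => Continuous.intervalIntegrable (by fun_prop) _ _,
    mul_sum]
  refine sum_congr rfl fun a _ => ?_
  rw [intervalIntegral.integral_const_mul, (EE_co hM _).2, mul_left_comm]

lemma coeff {M T ν : ℕ} (hM : 2 ≤ M) (h1 : ¬ Rp ν) (h2 : ∀ s : ℕ, s < T → PP s ≤ ν) :
    ∫ α in (0 : ℝ)..1, Er M α * (∑ s ∈ range T, (ww M (PP s) : ℂ) * ex (α * (-PP s : ℤ))) *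
      ex (α * (ν : ℤ)) = -(kap * ww M ν * JJ (M / 2) T ν) := by
  obtain ⟨h3, h4⟩ := Er_co hM
  simp_rw [mul_sum, sum_mul]
  rw [intervalIntegral.integral_finsetSum fun i _ => Continuous.intervalIntegrable (by fun_prop) _ _]
  have e : JJ (M / 2) T ν = ∑ s ∈ range T, ∑ q ∈ Ioc 0 (M / 2), ∑ a ∈ Red q,
      gg q a * ex ((a : ℝ) / q * (ν - PP s)) := by
    unfold JJ GT
    rw [sum_comm]
    refine sum_congr rfl fun q _ => ?_
    rw [sum_comm]
    refine sum_congr rfl fun a _ => ?_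
    rw [mul_sum, sum_mul]
    refine sum_congr rfl fun s _ => ?_
    rw [mul_assoc, ← ex_add]
    congr 2
    ring
  rw [e, mul_sum, ← sum_neg_distrib]
  refine sum_congr rfl fun s hs => ?_
  obtain ⟨n, hn⟩ := Int.eq_ofNat_of_zero_le (sub_nonneg.2 (h2 s (mem_range.1 hs)))
  have e1 : ∀ α : ℝ, Er M α * ((ww M (PP s) : ℂ) * ex (α * (-PP s : ℤ))) * ex (α * (ν : ℤ)) =
      ww M (PP s) * (Er M α * ex (α * (n : ℤ))) := fun α => by
    rw [← hn, show α * ((ν - PP s : ℤ) : ℝ) = α * (-PP s : ℤ) + α * (ν : ℤ) by push_cast; ring,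
      ex_add]
    ring
  have e2 : (ν : ℝ) - PP s = n := by exact_mod_cast hn
  simp_rw [e1, e2]
  rw [intervalIntegral.integral_const_mul, h4 n fun j k h => h1 ⟨j, k, s, by omega⟩,
    show (ν : ℤ) = PP s + n by omega, ww_add]
  push_cast
  ring

end Bessel

open Bessel in
theorem bessel : ∃ C : ℝ, 0 < C ∧ ∀ (M T : ℕ) (E : Finset ℕ), 2 ≤ M →
    (∀ ν ∈ E, ¬ Rp ν ∧ ν ≤ M ^ 2 ∧ ∀ s : ℕ, s < T → PP s ≤ ν) →
    ∑ ν ∈ E, ‖JJ (M / 2) T ν‖ ^ 2 ≤ C * (M : ℝ) ^ 2 * (1 + Real.log M) ^ 2 * T := by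
  obtain ⟨C, hC, h⟩ := theta_approx
  have hk : 0 < ‖kap‖ := by
    unfold kap
    rw [norm_real, norm_pos_iff]
    positivity
  have hd : 0 < (‖kap‖ * Real.exp (-(2 * π))) ^ 2 := by positivity
  refine ⟨C ^ 2 / (‖kap‖ * Real.exp (-(2 * π))) ^ 2, by positivity, fun M T E hM hE => ?_⟩
  have hM0 : (0 : ℝ) < M := by exact_mod_cast (by omega : 0 < M)
  have hL := Real.log_natCast_nonneg M
  have h1 := dual (G := fun α => ∑ s ∈ range T, (ww M (PP s) : ℂ) * ex (α * (-PP s : ℤ)))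
    (Er_co hM).1 (by fun_prop) (B := C * M * (1 + Real.log M))
    (fun α => h M α hM) E
  rw [int_sq _ _ (fun s : ℕ => -PP s) fun _ _ _ _ h => PP_inj (neg_injective h)] at h1
  have h2 : ∑ s ∈ range T, ‖(ww M (PP s) : ℂ)‖ ^ 2 ≤ T := by
    refine (sum_le_card_nsmul _ _ 1 fun s _ => ?_).trans (by simp)
    refine pow_le_one₀ (norm_nonneg _) ?_
    have : (0 : ℝ) < PP s := by exact_mod_cast PP_pos s
    rw [norm_real, ww, Real.norm_of_nonneg (Real.exp_pos _).le, Real.exp_le_one_iff, neg_nonpos]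
    positivity
  have h3 := h1.trans (mul_le_mul_of_nonneg_left h2 (sq_nonneg _))
  rw [div_mul_eq_mul_div, div_mul_eq_mul_div, div_mul_eq_mul_div, le_div_iff₀ hd, sum_mul]
  refine le_trans (sum_le_sum fun ν hν => ?_) (h3.trans_eq (by ring))
  obtain ⟨h4, h5, h6⟩ := hE ν hν
  rw [coeff hM h4 h6, norm_neg, norm_mul, norm_mul, ← mul_pow, mul_comm]
  refine pow_le_pow_left₀ (by positivity) (mul_le_mul_of_nonneg_right
    (mul_le_mul_of_nonneg_left ?_ hk.le) (norm_nonneg _)) 2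
  rw [norm_real, ww, Real.norm_of_nonneg (Real.exp_pos _).le, Real.exp_le_exp, neg_le_neg_iff,
    mul_assoc]
  refine mul_le_of_le_one_right (by positivity) ?_
  rw [one_div_mul_eq_div, div_le_one (by positivity)]
  exact_mod_cast h5

end Pool.Agent.MP_b9bf0c_nt

end
end
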