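import Pool.Agent.Mg.Fb9bf0c.Gf82352
import Pool.Agent.Mg.Fb9bf0c.G84a038

section

/-!
Odd integers as x^2 + 2 y^2 + 3 z^2 with x + y + z a square: the mollified Euler product.
-/

set_option autoImplicit false

open Finset Complex
open scoped Real ArithmeticFunction.Moebius

noncomputable section

namespace Pool.Agent.MP_b9bf0c_nt

open Pool.Agent.MP_2a1f0e_nt (ex)
open Pool.Agent.MP_c903c4_nt (Red cc)

namespace Euler

theorem sum_eq_prod {f : ℕ → ℝ} (h1 : f 1 = 1) (hm : ∀ a b : ℕ, a.Coprime b → f (a * b) = f a * f b)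
    {S : Finset ℕ} (hS : ∀ p ∈ S, p.Prime) :
    ∑ l ∈ (∏ p ∈ S, p ^ 4).divisors, f l = ∏ p ∈ S, ∑ j ∈ range 5, f (p ^ j) := by
  let F : ArithmeticFunction ℝ := ⟨fun n => if n = 0 then 0 else f n, if_pos rfl⟩
  have hF : ∀ n, n ≠ 0 → F n = f n := fun n hn => if_neg hn
  have h2 : F.IsMultiplicative := ArithmeticFunction.IsMultiplicative.iff_ne_zero.2
    ⟨(hF 1 one_ne_zero).trans h1, fun ha hb h => by
      rw [hF _ ha, hF _ hb, hF _ (mul_ne_zero ha hb), hm _ _ h]⟩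
  have h3 : ∀ n, (F * (ArithmeticFunction.zeta : ArithmeticFunction ℝ)) n =
      ∑ l ∈ n.divisors, f l := fun n => by
    rw [ArithmeticFunction.coe_mul_zeta_apply]
    exact sum_congr rfl fun l hl => hF l (Nat.pos_of_mem_divisors hl).ne'
  rw [← h3, (h2.mul ArithmeticFunction.isMultiplicative_zeta.natCast).map_prod _ _
    fun p hp q hq h => Nat.coprime_pow_primes 4 4 (hS p hp) (hS q hq) h]
  exact prod_congr rfl fun p hp => by rw [h3, Nat.sum_divisors_prime_pow (hS p hp)]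

theorem dvd_of_ne {k : ℕ → ℝ} (hm : ∀ a b : ℕ, a.Coprime b → k (a * b) = k a * k b)
    (h5 : ∀ p : ℕ, p.Prime → ∀ j, 5 ≤ j → k (p ^ j) = 0) {l D : ℕ} (h0 : l ≠ 0) (hD : l ≤ D)
    (hk : k l ≠ 0) : l ∣ ∏ p ∈ (range (D + 1)).filter Nat.Prime, p ^ 4 := by
  refine (Nat.dvd_iff_prime_pow_dvd_dvd _ _).2 fun p j hp hj => ?_
  rcases Nat.eq_zero_or_pos j with rfl | hj0
  · simp
  have h1 : p ≤ D := (Nat.le_of_dvd (Nat.pos_of_ne_zero h0)
    ((dvd_pow_self p hj0.ne').trans hj)).trans hD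
  obtain ⟨e, m, hpm, rfl⟩ := Nat.exists_eq_pow_mul_and_not_dvd h0 p hp.ne_one
  have hc := (Nat.Prime.coprime_iff_not_dvd hp).2 hpm
  have he : e ≤ 4 := by
    by_contra h
    rw [hm _ _ (hc.pow_left e), h5 p hp e (by omega), zero_mul] at hk
    exact hk rfl
  exact ((hc.pow_left j).dvd_of_dvd_mul_right hj).trans ((pow_dvd_pow p he).trans
    (dvd_prod_of_mem _ (mem_filter.2 ⟨mem_range.2 (by omega), hp⟩)))

theorem prod_ite (S B : Finset ℕ) (A : ℝ) :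
    ∏ p ∈ S, (if p ∈ B then A else 1) = A ^ (S ∩ B).card := by
  rw [prod_ite_mem, prod_const]

theorem exp_le {x : ℝ} (h0 : 0 ≤ x) (h : x ≤ 1 / 2) : Real.exp (-(2 * x)) ≤ 1 - x := by
  rw [Real.exp_neg, inv_le_iff_one_le_mul₀ (Real.exp_pos _)]
  nlinarith [Real.add_one_le_exp (2 * x), mul_nonneg h0 (sub_nonneg.2 h)]

theorem two_pow_le {n : ℕ} (hn : n ≠ 0) : 2 ^ n.primeFactors.card ≤ n.divisors.card := by
  rw [Nat.card_divisors hn]
  exact pow_card_le_prod _ _ _ fun p hp => Nat.succ_le_succ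
    ((Nat.prime_of_mem_primeFactors hp).factorization_pos_of_dvd hn (Nat.dvd_of_mem_primeFactors hp))

theorem uu_prime (ν : ℕ) {p : ℕ} (hp : p.Prime) (h : p ≠ 3) : uu ν p = -hh ν p := by
  rw [uu, if_neg fun h3 => h ((Nat.prime_dvd_prime_iff_eq Nat.prime_three hp).1 h3).symm,
    ArithmeticFunction.moebius_apply_prime hp]
  simp

theorem kk_eq {ν p : ℕ} (hp : p.Prime) (h : uu ν p = 0) (j : ℕ) : kk ν (p ^ j) = hh ν (p ^ j) := by
  cases j with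
  | zero => rw [pow_zero, kk_one, hh_one]
  | succ j => rw [kk_pow ν hp, h, mul_zero, add_zero]

end Euler

theorem euler : ∃ c C : ℝ, 0 < c ∧ 0 < C ∧ ∀ (k : ℕ → ℝ) (B : Finset ℕ) (D : ℕ), 1 ≤ D →
    k 1 = 1 → (∀ a b : ℕ, a.Coprime b → k (a * b) = k a * k b) →
    (∀ p : ℕ, p.Prime → p ∉ B → k p = 0 ∧ |k (p ^ 2)| ≤ 9 / (p : ℝ) ^ 2 ∧
      (p < 5 → k (p ^ 2) = 0) ∧ ∀ j, 3 ≤ j → k (p ^ j) = 0) →
    (∀ p : ℕ, p.Prime → p ∈ B → (∀ j, 1 ≤ j → |k (p ^ j)| ≤ 3 / p) ∧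
      (∀ j, 5 ≤ j → k (p ^ j) = 0) ∧ 2 / 5 ≤ ∑ j ∈ range 5, k (p ^ j)) →
    c / 4 ^ B.card - C * 16 ^ B.card / (D : ℝ) ^ (1 / 8 : ℝ) ≤ ∑ l ∈ Ioc 0 D, k l := by
  have s1 : Summable fun n : ℕ => 2 * (9 / (n : ℝ) ^ 2) := by
    simpa only [div_eq_mul_inv] using
      ((Real.summable_nat_pow_inv.2 one_lt_two).mul_left 9).mul_left 2
  have s2 : Summable fun n : ℕ => 9 * (n : ℝ) ^ (-7 / 4 : ℝ) :=
    (Real.summable_nat_rpow.2 (by norm_num)).mul_left 9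
  refine ⟨Real.exp (-∑' n : ℕ, 2 * (9 / (n : ℝ) ^ 2)), Real.exp (∑' n : ℕ, 9 * (n : ℝ) ^ (-7 / 4 : ℝ)),
    Real.exp_pos _, Real.exp_pos _, fun k B D hD h1 hm hg hb => ?_⟩
  set S := (range (D + 1)).filter Nat.Prime with hSdef
  have hS : ∀ p ∈ S, p.Prime := fun p hp => (mem_filter.1 hp).2
  have hL : ∏ p ∈ S, p ^ 4 ≠ 0 := prod_ne_zero_iff.2 fun p hp => pow_ne_zero _ (hS p hp).ne_zero
  have hD0 : (0 : ℝ) < D := by exact_mod_cast hD
  have hc : (S ∩ B).card ≤ B.card := card_le_card inter_subset_right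
  have e1 : ∑ l ∈ Ioc 0 D, k l = ∑ l ∈ (∏ p ∈ S, p ^ 4).divisors with l ≤ D, k l := by
    refine (sum_subset (fun l hl => ?_) fun l hl hn => ?_).symm
    · rw [mem_filter] at hl
      exact mem_Ioc.2 ⟨Nat.pos_of_mem_divisors hl.1, hl.2⟩
    · rw [mem_Ioc] at hl
      by_contra hk
      refine hn (mem_filter.2 ⟨Nat.mem_divisors.2 ⟨Euler.dvd_of_ne hm (fun p hp j hj => ?_)
        hl.1.ne' hl.2 hk, hL⟩, hl.2⟩)
      by_cases h : p ∈ B
      · exact (hb p hp h).2.1 j hj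
      · exact (hg p hp h).2.2.2 j (by omega)
  have e2 : Real.exp (-∑' n : ℕ, 2 * (9 / (n : ℝ) ^ 2)) / 4 ^ B.card ≤
      ∑ l ∈ (∏ p ∈ S, p ^ 4).divisors, k l := by
    rw [Euler.sum_eq_prod h1 hm hS]
    refine le_trans ?_ (prod_le_prod (f := fun p : ℕ => (if p ∈ B then (1 / 4 : ℝ) else 1) *
      Real.exp (-(2 * (9 / (p : ℝ) ^ 2)))) (fun p _ => by positivity) fun p hp => ?_)
    · rw [prod_mul_distrib, Euler.prod_ite, ← Real.exp_sum, sum_neg_distrib, div_eq_inv_mul,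
        ← inv_pow, one_div]
      refine mul_le_mul (pow_le_pow_of_le_one (by norm_num) (by norm_num) hc)
        (Real.exp_le_exp.2 (neg_le_neg (s1.sum_le_tsum _ fun _ _ => by positivity)))
        (Real.exp_pos _).le (by positivity)
    · have h2 : Real.exp (-(2 * (9 / (p : ℝ) ^ 2))) ≤ 1 :=
        Real.exp_le_one_iff.2 (neg_nonpos.2 (by positivity))
      split_ifs with h
      · linarith [(hb p (hS p hp) h).2.2]
      · obtain ⟨g1, g2, g3, g4⟩ := hg p (hS p hp) h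
        simp only [sum_range_succ, range_zero, sum_empty, pow_zero, pow_one, h1, g1, g4 3 le_rfl,
          g4 4 (by norm_num), zero_add, add_zero, one_mul]
        rcases lt_or_ge p 5 with h5 | h5
        · rw [g3 h5, add_zero]
          exact h2
        · have h6 : (5 : ℝ) ≤ p := by exact_mod_cast h5
          have h7 : 9 / (p : ℝ) ^ 2 ≤ 1 / 2 := by
            rw [div_le_iff₀ (by positivity)]
            nlinarith
          linarith [Euler.exp_le (by positivity) h7, (abs_le.1 g2).1]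
  have e3 : ∑ l ∈ (∏ p ∈ S, p ^ 4).divisors, |k l| * (l : ℝ) ^ (1 / 8 : ℝ) ≤
      Real.exp (∑' n : ℕ, 9 * (n : ℝ) ^ (-7 / 4 : ℝ)) * 16 ^ B.card := by
    rw [Euler.sum_eq_prod (f := fun l => |k l| * (l : ℝ) ^ (1 / 8 : ℝ)) (by simp [h1])
      (fun a b h => by
        rw [hm a b h, abs_mul, Nat.cast_mul, Real.mul_rpow a.cast_nonneg b.cast_nonneg]
        ring) hS]
    refine (prod_le_prod (g := fun p : ℕ => (if p ∈ B then (16 : ℝ) else 1) *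
      Real.exp (9 * (p : ℝ) ^ (-7 / 4 : ℝ))) (fun p _ => by positivity) fun p hp => ?_).trans ?_
    · have hp1 : (1 : ℝ) ≤ p := by exact_mod_cast (hS p hp).one_le
      have h2 := Real.add_one_le_exp (9 * (p : ℝ) ^ (-7 / 4 : ℝ))
      have h3 : 0 ≤ 9 * (p : ℝ) ^ (-7 / 4 : ℝ) := by positivity
      split_ifs with h
      · have h4 : ∀ j, 1 ≤ j → j ≤ 4 → |k (p ^ j)| * ((p ^ j : ℕ) : ℝ) ^ (1 / 8 : ℝ) ≤ 3 := by
          intro j hj hj'
          have h5 : ((p ^ j : ℕ) : ℝ) ^ (1 / 8 : ℝ) ≤ p := by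
            rw [Nat.cast_pow, ← Real.rpow_natCast, ← Real.rpow_mul (by positivity)]
            refine (Real.rpow_le_rpow_of_exponent_le hp1 ?_).trans_eq (Real.rpow_one _)
            have : (j : ℝ) ≤ 4 := by exact_mod_cast hj'
            linarith
          refine (mul_le_mul ((hb p (hS p hp) h).1 j hj) h5 (by positivity)
            (by positivity)).trans_eq ?_
          field_simp
        simp only [sum_range_succ, range_zero, sum_empty, pow_zero, h1, abs_one, Nat.cast_one,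
          Real.one_rpow]
        linarith [h4 1 le_rfl (by norm_num), h4 2 (by norm_num) (by norm_num),
          h4 3 (by norm_num) (by norm_num), h4 4 (by norm_num) le_rfl]
      · obtain ⟨g1, g2, -, g4⟩ := hg p (hS p hp) h
        have h5 : |k (p ^ 2)| * ((p ^ 2 : ℕ) : ℝ) ^ (1 / 8 : ℝ) ≤ 9 * (p : ℝ) ^ (-7 / 4 : ℝ) := by
          refine (mul_le_mul_of_nonneg_right g2 (by positivity)).trans_eq ?_
          rw [Nat.cast_pow, ← Real.rpow_natCast, ← Real.rpow_mul (by positivity), div_mul_eq_mul_div,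
            mul_div_assoc, ← Real.rpow_sub (by positivity)]
          norm_num
        simp only [sum_range_succ, range_zero, sum_empty, pow_zero, pow_one, h1, g1, g4 3 le_rfl,
          g4 4 (by norm_num), abs_one, abs_zero, Nat.cast_one, Real.one_rpow, zero_mul]
        linarith
    · rw [prod_mul_distrib, Euler.prod_ite, ← Real.exp_sum, mul_comm]
      exact mul_le_mul (Real.exp_le_exp.2 (s2.sum_le_tsum _ fun _ _ => by positivity))
        (pow_le_pow_right₀ (by norm_num) hc) (by positivity) (Real.exp_pos _).le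
  have e4 : ∑ l ∈ (∏ p ∈ S, p ^ 4).divisors with ¬ l ≤ D, k l ≤
      (∑ l ∈ (∏ p ∈ S, p ^ 4).divisors, |k l| * (l : ℝ) ^ (1 / 8 : ℝ)) / (D : ℝ) ^ (1 / 8 : ℝ) := by
    rw [sum_div, sum_filter]
    refine sum_le_sum fun l _ => ?_
    split_ifs with h
    · positivity
    · rw [le_div_iff₀ (by positivity)]
      exact mul_le_mul (le_abs_self _) (Real.rpow_le_rpow hD0.le
        (by exact_mod_cast (not_le.1 h).le) (by norm_num)) (by positivity) (abs_nonneg _)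
  have e5 := sum_filter_add_sum_filter_not (∏ p ∈ S, p ^ 4).divisors (· ≤ D) k
  have e6 := div_le_div_of_nonneg_right e3 (Real.rpow_nonneg hD0.le (1 / 8))
  linarith

theorem kk_lower : ∃ c C : ℝ, 0 < c ∧ 0 < C ∧ ∀ (τ : ℝ) (ν D : ℕ), Free ν → Dv τ (2 * ν + 1) →
    1 ≤ D → c / τ ^ 2 - C * τ ^ 4 / (D : ℝ) ^ (1 / 8 : ℝ) ≤ ∑ l ∈ Ioc 0 D, kk ν l := by
  obtain ⟨c, C, hc, hC, h⟩ := euler
  refine ⟨c / 4, C * 16, by positivity, by positivity, fun τ ν D hν hτ hD => ?_⟩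
  have hn : 2 * ν + 1 ≠ 0 := by omega
  set B := insert 3 ((2 * ν + 1).primeFactors.erase 11) with hB
  have hmem : ∀ p, p.Prime → (p ∈ B ↔ p = 3 ∨ p ≠ 11 ∧ p ∣ 2 * ν + 1) := fun p hp => by
    simp [hB, hp]
  have h66 : ∀ p : ℕ, p.Prime → p ∣ 66 → p = 2 ∨ p = 3 ∨ p = 11 := fun p hp h => by
    rw [show 66 = 2 * (3 * 11) from rfl, hp.dvd_mul, hp.dvd_mul,
      Nat.prime_dvd_prime_iff_eq hp Nat.prime_two, Nat.prime_dvd_prime_iff_eq hp Nat.prime_three,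
      Nat.prime_dvd_prime_iff_eq hp Nat.prime_eleven] at h
    exact h
  refine le_trans ?_ (h (kk ν) B D hD (kk_one ν) (fun a b => kk_mul ν) (fun p hp hpB => ?_)
    fun p hp hpB => ?_)
  · have h1 : (2 : ℝ) ^ B.card ≤ 2 * τ := by
      have h2 : B.card ≤ (2 * ν + 1).primeFactors.card + 1 :=
        (card_insert_le _ _).trans (Nat.succ_le_succ card_erase_le)
      have h3 : (2 : ℝ) ^ (2 * ν + 1).primeFactors.card ≤ τ :=
        le_trans (by exact_mod_cast Euler.two_pow_le hn) (hτ _ hn le_rfl)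
      refine (pow_le_pow_right₀ one_le_two h2).trans ?_
      rw [pow_succ]
      linarith
    have h2 : (4 : ℝ) ^ B.card ≤ 4 * τ ^ 2 := by
      have := pow_le_pow_left₀ (by positivity) h1 2
      rwa [← pow_mul, mul_comm B.card, pow_mul, mul_pow, show (2 : ℝ) ^ 2 = 4 by norm_num] at this
    have h3 : (16 : ℝ) ^ B.card ≤ 16 * τ ^ 4 := by
      have := pow_le_pow_left₀ (by positivity) h1 4
      rwa [← pow_mul, mul_comm B.card, pow_mul, mul_pow, show (2 : ℝ) ^ 4 = 16 by norm_num] at this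
    refine sub_le_sub ?_ (div_le_div_of_nonneg_right ?_ (by positivity))
    · rw [div_div]
      exact div_le_div_of_nonneg_left hc.le (by positivity) h2
    · rw [mul_assoc]
      exact mul_le_mul_of_nonneg_left h3 hC.le
  · rw [hmem p hp, not_or, not_and_or, not_not] at hpB
    by_cases hb : p = 2 ∨ p = 11
    · have h1 : uu ν p = 0 := by
        rw [Euler.uu_prime ν hp hpB.1, ← pow_one p, hh_bad ν hb 0, neg_zero]
      have h2 : ∀ j, 1 ≤ j → kk ν (p ^ j) = 0 := fun j hj => by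
        obtain ⟨i, rfl⟩ := Nat.exists_eq_add_of_le' hj
        rw [Euler.kk_eq hp h1, hh_bad ν hb]
      refine ⟨by simpa using h2 1 le_rfl, ?_, fun _ => h2 2 one_le_two, fun j hj => h2 j (by omega)⟩
      rw [h2 2 one_le_two, abs_zero]
      positivity
    · obtain ⟨g1, g2⟩ := hh_good (ν := ν) hp fun h => by
        rcases hp.dvd_mul.1 h with h | h
        · have := h66 p hp h
          tauto
        · tauto
      have h1 := Euler.uu_prime ν hp hpB.1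
      refine ⟨?_, ?_, fun h5 => ?_, fun j hj => ?_⟩
      · have := kk_pow ν hp 0
        rwa [zero_add, pow_one, pow_zero, hh_one, h1, one_mul, add_neg_cancel] at this
      · rw [kk_pow ν hp 1, g2 _ le_rfl, pow_one, h1, zero_add, mul_neg, abs_neg, abs_mul]
        refine (mul_le_mul g1 g1 (abs_nonneg _) (by positivity)).trans_eq ?_
        ring
      · have := hp.two_le
        have h4 : p ≠ 4 := by
          rintro rfl
          norm_num at hp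
        omega
      · obtain ⟨i, rfl⟩ := Nat.exists_eq_add_of_le' (show 1 ≤ j by omega)
        rw [kk_pow ν hp, g2 _ (by omega), g2 _ (by omega), zero_mul, add_zero]
  · by_cases h3 : p = 3
    · subst h3
      obtain ⟨g1, g2, g3⟩ := hh_three hν
      simp only [Euler.kk_eq hp (show uu ν 3 = 0 by simp [uu])]
      exact ⟨fun j _ => (g1 j).trans_eq (by norm_num), g2, le_trans (by norm_num) g3⟩
    · obtain ⟨h11, hd⟩ := ((hmem p hp).1 hpB).resolve_left h3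
      have h2 : p ≠ 2 := by
        rintro rfl
        omega
      obtain ⟨g1, g2, g3⟩ := hh_dvd hν hp (fun h => by have := h66 p hp h; tauto) hd
      have h5 : (5 : ℝ) ≤ p := by
        have := hp.two_le
        have h4 : p ≠ 4 := by
          rintro rfl
          norm_num at hp
        exact_mod_cast (by omega : 5 ≤ p)
      have h6 : 1 / (p : ℝ) ≤ 1 / 5 := one_div_le_one_div_of_le (by norm_num) h5
      simp only [Euler.kk_eq hp (show uu ν p = 0 by rw [Euler.uu_prime ν hp h3, g1, neg_zero])]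
      refine ⟨fun j hj => (g2 j hj).trans (div_le_div_of_nonneg_right (by norm_num)
        (by positivity)), g3, ?_⟩
      simp only [sum_range_succ, range_zero, sum_empty, pow_zero, pow_one, hh_one, g1]
      linarith [(abs_le.1 (g2 2 (by norm_num))).1, (abs_le.1 (g2 3 (by norm_num))).1,
        (abs_le.1 (g2 4 (by norm_num))).1]

end Pool.Agent.MP_b9bf0c_nt

end
end

section

/-!
Odd integers as x^2 + 2 y^2 + 3 z^2 with x + y + z a square: the exceptional set in one block.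
-/

set_option autoImplicit false

open Finset Complex
open scoped Real ArithmeticFunction.Moebius

noncomputable section

namespace Pool.Agent.MP_b9bf0c_nt

open Pool.Agent.MP_2a1f0e_nt (ex)
open Pool.Agent.MP_c903c4_nt (Red cc)

namespace Core

theorem sum_HH : ∃ C : ℝ, 0 < C ∧ ∀ (T : ℕ) (Λ : ℝ) (E : Finset ℕ), 1 ≤ T →
    Dv Λ (33 ^ 5 * T ^ 8) → 1 + Real.log (4356 * T ^ 2 : ℕ) ≤ Λ →
    (∀ ν ∈ E, ν ∈ Ioc (33 ^ 4 * T ^ 4) (16 * (33 ^ 4 * T ^ 4)) ∧ ¬ Rp ν) →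
    ∑ ν ∈ E, HH T ν ^ 2 ≤ C * Λ ^ 2 * (T : ℝ) ^ 3 := by
  obtain ⟨Cb, hCb, hb⟩ := bessel
  refine ⟨(2 * Cb + 6000) * 4356 ^ 2, by positivity, fun T Λ E hT hτ hL hE => ?_⟩
  set M : ℕ := 4356 * T ^ 2 with hM
  have hT2 : T ≤ T ^ 2 := by nlinarith
  have hT' : (1 : ℝ) ≤ T := by exact_mod_cast hT
  have hN : M ^ 2 = 16 * (33 ^ 4 * T ^ 4) := by rw [hM]; ring
  have hΛ : 1 ≤ Λ := hτ.one_le (Nat.one_le_iff_ne_zero.2 (by positivity))
  have hM1 : (1 : ℝ) ≤ M := by exact_mod_cast (by omega : 1 ≤ M)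
  have hl0 : 0 ≤ 1 + Real.log M := by have := Real.log_nonneg hM1; linarith
  have h1 := hb M T E (by omega) fun ν hν => by
    obtain ⟨h, h'⟩ := hE ν hν
    rw [mem_Ioc] at h
    refine ⟨h', hN ▸ h.2, fun s hs => (PP_le hs).trans ?_⟩
    exact_mod_cast h.1.le
  have hQ : T ≤ M / 2 := by omega
  have hQ1 : (1 : ℝ) ≤ (M / 2 : ℕ) := by exact_mod_cast hT.trans hQ
  have hQM : ((M / 2 : ℕ) : ℝ) ≤ M := by exact_mod_cast Nat.div_le_self M 2
  have h2 := JJ_approx (τ := Λ) (T := T) (Q := M / 2) (N := M ^ 2)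
    (hτ.mono (Nat.mul_le_mul (by norm_num) (Nat.pow_le_pow_right hT (by norm_num)))) hT hQ
    (Nat.one_le_iff_ne_zero.2 (by positivity))
  have h3 : ∑ ν ∈ E, ‖JJ (M / 2) T ν - (T : ℂ) * (HH T ν : ℂ)‖ ^ 2 ≤
      3000 * (M : ℝ) ^ 2 * Λ ^ 2 * T := by
    refine (sum_le_sum_of_subset_of_nonneg (fun ν hν => ?_) fun _ _ _ => by positivity).trans
      (h2.trans ?_)
    · have := mem_Ioc.1 (hE ν hν).1
      exact mem_Ioc.2 ⟨by omega, by omega⟩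
    · have h4 : 1 + Real.log (M / 2 : ℕ) ≤ Λ :=
        le_trans (by have := Real.log_le_log (by linarith) hQM; linarith) hL
      have h5 : ((M / 2 : ℕ) : ℝ) ^ 2 ≤ (M : ℝ) ^ 2 := by gcongr
      have h6 : 0 ≤ 1 + Real.log (M / 2 : ℕ) := by have := Real.log_nonneg hQ1; linarith
      calc _ ≤ 1000 * (2 * (M : ℝ) ^ 2 + (M : ℝ) ^ 2) * Λ * T * Λ := by
            push_cast
            gcongr
        _ = _ := by ring
  have h4 : ∑ ν ∈ E, ‖JJ (M / 2) T ν‖ ^ 2 ≤ Cb * (M : ℝ) ^ 2 * Λ ^ 2 * T :=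
    h1.trans (by gcongr)
  have h5 : (T : ℝ) ^ 2 * ∑ ν ∈ E, HH T ν ^ 2 ≤ 2 * ∑ ν ∈ E, ‖JJ (M / 2) T ν‖ ^ 2 +
      2 * ∑ ν ∈ E, ‖JJ (M / 2) T ν - (T : ℂ) * (HH T ν : ℂ)‖ ^ 2 := by
    rw [mul_sum, mul_sum, mul_sum, ← sum_add_distrib]
    refine sum_le_sum fun ν _ => ?_
    have h6 := norm_sub_le (JJ (M / 2) T ν) (JJ (M / 2) T ν - (T : ℂ) * (HH T ν : ℂ))
    rw [sub_sub_cancel, norm_mul, Complex.norm_natCast, Complex.norm_real, Real.norm_eq_abs] at h6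
    have h7 : ((T : ℝ) * |HH T ν|) ^ 2 ≤ _ := pow_le_pow_left₀ (by positivity) h6 2
    rw [mul_pow, sq_abs] at h7
    nlinarith [sq_nonneg (‖JJ (M / 2) T ν‖ - ‖JJ (M / 2) T ν - (T : ℂ) * (HH T ν : ℂ)‖)]
  refine le_of_mul_le_mul_left (h5.trans ?_) (by positivity : (0 : ℝ) < (T : ℝ) ^ 2)
  have hM' : (M : ℝ) = 4356 * (T : ℝ) ^ 2 := by rw [hM]; push_cast; ring
  calc _ ≤ 2 * (Cb * (M : ℝ) ^ 2 * Λ ^ 2 * T) + 2 * (3000 * (M : ℝ) ^ 2 * Λ ^ 2 * T) := by gcongr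
    _ = _ := by rw [hM']; ring

theorem aux : ∃ C : ℝ, 0 < C ∧ ∀ (T : ℕ) (Λ : ℝ) (E : Finset ℕ), 1 ≤ T →
    Dv Λ (33 ^ 5 * T ^ 8) → 1 + Real.log (4356 * T ^ 2 : ℕ) ≤ Λ →
    (∀ ν ∈ E, ν ∈ Ioc (33 ^ 4 * T ^ 4) (16 * (33 ^ 4 * T ^ 4)) ∧ Free ν ∧ ¬ Rp ν) →
    (E.card : ℝ) ≤ C * Λ ^ 48 * (T : ℝ) ^ 3 := by
  obtain ⟨C₁, hC₁, h1⟩ := sum_HH
  obtain ⟨c, C₂, hc, hC₂, h2⟩ := kk_lower
  refine ⟨16 * 33 ^ 4 * (2 * C₂ / c) ^ 8 + 8 / c ^ 2 * (C₁ + 200 * (32 * 33 ^ 4 + 1)),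
    by positivity, fun T Λ E hT hτ hL hE => ?_⟩
  have hT' : (1 : ℝ) ≤ T := by exact_mod_cast hT
  have hΛ : 1 ≤ Λ := hτ.one_le (Nat.one_le_iff_ne_zero.2 (by positivity))
  have h48 : T ^ 4 ≤ T ^ 8 := Nat.pow_le_pow_right hT (by norm_num)
  have h14 : 1 ≤ T ^ 4 := Nat.one_le_pow _ _ hT
  by_cases hs : c * (T : ℝ) ^ (1 / 8 : ℝ) ≤ 2 * C₂ * Λ ^ 6
  · have h3 : (T : ℝ) ≤ (2 * C₂ / c) ^ 8 * Λ ^ 48 := by
      have h4 : (T : ℝ) ^ (1 / 8 : ℝ) ≤ 2 * C₂ / c * Λ ^ 6 := by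
        rw [div_mul_eq_mul_div, le_div_iff₀ hc]
        linarith
      have h5 := pow_le_pow_left₀ (by positivity) h4 8
      rw [← Real.rpow_natCast, ← Real.rpow_mul (by positivity)] at h5
      norm_num at h5
      refine h5.trans_eq ?_
      ring
    have h4 : E.card ≤ 16 * (33 ^ 4 * T ^ 4) := by
      refine (card_le_card fun ν hν => (hE ν hν).1).trans ?_
      rw [Nat.card_Ioc]
      omega
    have h5 : (E.card : ℝ) ≤ 16 * 33 ^ 4 * T * (T : ℝ) ^ 3 := by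
      have h6 : (E.card : ℝ) ≤ 16 * (33 ^ 4 * (T : ℝ) ^ 4) := by exact_mod_cast h4
      refine h6.trans_eq ?_
      ring
    calc _ ≤ 16 * 33 ^ 4 * ((2 * C₂ / c) ^ 8 * Λ ^ 48) * (T : ℝ) ^ 3 := h5.trans (by gcongr)
      _ = 16 * 33 ^ 4 * (2 * C₂ / c) ^ 8 * Λ ^ 48 * (T : ℝ) ^ 3 := by ring
      _ ≤ _ := by gcongr; exact le_add_of_nonneg_right (by positivity)
  push Not at hs
  have hlT : 1 + Real.log T ≤ Λ := by
    refine le_trans ?_ hL
    have : (T : ℝ) ≤ (4356 * T ^ 2 : ℕ) := by exact_mod_cast (by nlinarith : T ≤ 4356 * T ^ 2)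
    have := Real.log_le_log (by linarith) this
    linarith
  have hl0 : 0 ≤ 1 + Real.log T := by have := Real.log_nonneg hT'; linarith
  have h3 : ∀ ν ∈ E, c ^ 2 / (8 * Λ ^ 4) ≤ Λ ^ 6 * HH T ν ^ 2 + RR T ν ^ 2 := by
    intro ν hν
    obtain ⟨a1, a2, -⟩ := hE ν hν
    rw [mem_Ioc] at a1
    have b1 := h2 Λ ν T a2 (hτ.mono (by omega)) hT
    have b2 := abs_Mo_le (τ := Λ) a2 (hτ.mono (by
      have : T ≤ T ^ 8 := Nat.le_self_pow (by norm_num) T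
      omega)) hT
    have b3 : |Mo T ν| ≤ Λ ^ 3 := b2.trans (by rw [pow_succ Λ 2]; gcongr)
    have b4 : C₂ * Λ ^ 4 / (T : ℝ) ^ (1 / 8 : ℝ) ≤ c / (2 * Λ ^ 2) := by
      rw [div_le_div_iff₀ (by positivity) (by positivity)]
      nlinarith
    have b5 : c / (2 * Λ ^ 2) ≤ Λ ^ 3 * |HH T ν| + |RR T ν| := by
      have e : c / Λ ^ 2 = c / (2 * Λ ^ 2) + c / (2 * Λ ^ 2) := by field_simp; ring
      have b6 : HH T ν * Mo T ν ≤ Λ ^ 3 * |HH T ν| := by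
        refine (le_abs_self _).trans ?_
        rw [abs_mul, mul_comm]
        gcongr
      have b7 := neg_le_abs (RR T ν)
      have b8 : RR T ν = HH T ν * Mo T ν - ∑ l ∈ Ioc 0 T, kk ν l := rfl
      linarith
    have b6 := pow_le_pow_left₀ (by positivity) b5 2
    have e : c ^ 2 / (8 * Λ ^ 4) = (c / (2 * Λ ^ 2)) ^ 2 / 2 := by field_simp; ring
    rw [e, ← sq_abs (HH T ν), ← sq_abs (RR T ν)]
    nlinarith [sq_nonneg (Λ ^ 3 * |HH T ν| - |RR T ν|)]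
  have h4 := h1 T Λ E hT hτ hL fun ν hν => ⟨(hE ν hν).1, (hE ν hν).2.2⟩
  have h5 := RR_sq (τ := Λ) (D := T) (N := 16 * (33 ^ 4 * T ^ 4)) (hτ.mono (by omega)) hT
    (by omega) E fun ν hν => by
      have := mem_Ioc.1 (hE ν hν).1
      exact ⟨(hE ν hν).2.1, by omega, this.2⟩
  have h6 : ∑ ν ∈ E, RR T ν ^ 2 ≤ 200 * (32 * 33 ^ 4 + 1) * Λ ^ 14 * (T : ℝ) ^ 3 := by
    refine h5.trans ?_
    rw [div_le_iff₀ (by positivity)]
    calc _ ≤ 200 * (2 * ((16 * (33 ^ 4 * T ^ 4) : ℕ) : ℝ) + (T : ℝ) ^ 4) * Λ ^ 11 * Λ ^ 3 := by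
          gcongr
      _ = _ := by push_cast; ring
  have h7 := card_nsmul_le_sum E _ _ h3
  rw [sum_add_distrib, ← mul_sum, nsmul_eq_mul, ← le_div_iff₀ (by positivity)] at h7
  have h8 : Λ ^ 12 ≤ Λ ^ 48 := pow_le_pow_right₀ hΛ (by norm_num)
  have h9 : Λ ^ 18 ≤ Λ ^ 48 := pow_le_pow_right₀ hΛ (by norm_num)
  calc _ ≤ (Λ ^ 6 * (C₁ * Λ ^ 2 * (T : ℝ) ^ 3) +
        200 * (32 * 33 ^ 4 + 1) * Λ ^ 14 * (T : ℝ) ^ 3) / (c ^ 2 / (8 * Λ ^ 4)) :=
        h7.trans (by gcongr)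
    _ = 8 / c ^ 2 * (C₁ * Λ ^ 12 + 200 * (32 * 33 ^ 4 + 1) * Λ ^ 18) * (T : ℝ) ^ 3 := by
        field_simp
    _ ≤ 8 / c ^ 2 * (C₁ * Λ ^ 48 + 200 * (32 * 33 ^ 4 + 1) * Λ ^ 48) * (T : ℝ) ^ 3 := by gcongr
    _ = 8 / c ^ 2 * (C₁ + 200 * (32 * 33 ^ 4 + 1)) * Λ ^ 48 * (T : ℝ) ^ 3 := by ring
    _ ≤ _ := by gcongr; exact le_add_of_nonneg_left (by positivity)

end Core

open Classical in
theorem core {ε : ℝ} (hε : 0 < ε) : ∃ C : ℝ, 0 < C ∧ ∀ T : ℕ, 1 ≤ T →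
    (((Ioc (33 ^ 4 * T ^ 4) (16 * (33 ^ 4 * T ^ 4))).filter fun ν : ℕ => Free ν ∧ ¬ Rp ν).card : ℝ) ≤
      C * (T : ℝ) ^ (3 + ε) := by
  obtain ⟨C, hC, h⟩ := Core.aux
  have hδ : 0 < ε / 384 := by positivity
  obtain ⟨Cd, hCd, hd⟩ := Pool.Agent.MP_2a1f0e_nt.divisor_bound hδ
  obtain ⟨A, hA0, hA1, hA2⟩ : ∃ A : ℝ, 0 < A ∧ Cd * (33 ^ 5 : ℝ) ^ (ε / 384) ≤ A ∧
      4357 + 96 / ε ≤ A := ⟨Cd * (33 ^ 5 : ℝ) ^ (ε / 384) + (4357 + 96 / ε), by positivity,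
    le_add_of_nonneg_right (by positivity), le_add_of_nonneg_left (by positivity)⟩
  refine ⟨C * A ^ 48, by positivity, fun T hT => ?_⟩
  have hT' : (1 : ℝ) ≤ T := by exact_mod_cast hT
  have h1 : (1 : ℝ) ≤ (T : ℝ) ^ (ε / 48) := Real.one_le_rpow hT' (by positivity)
  refine (h T (A * (T : ℝ) ^ (ε / 48)) _ hT (fun m h0 hm => (hd m).trans ?_) ?_
    fun ν hν => mem_filter.1 hν).trans (le_of_eq ?_)
  · have h2 : (m : ℝ) ^ (ε / 384) ≤ (33 ^ 5 : ℝ) ^ (ε / 384) * (T : ℝ) ^ (ε / 48) := by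
      have h3 : (m : ℝ) ≤ 33 ^ 5 * (T : ℝ) ^ 8 := by exact_mod_cast hm
      refine (Real.rpow_le_rpow (by positivity) h3 hδ.le).trans_eq ?_
      rw [Real.mul_rpow (by positivity) (by positivity), ← Real.rpow_natCast (T : ℝ),
        ← Real.rpow_mul (by positivity)]
      congr 2
      push_cast
      ring
    calc _ ≤ Cd * ((33 ^ 5 : ℝ) ^ (ε / 384) * (T : ℝ) ^ (ε / 48)) := by gcongr
      _ = Cd * (33 ^ 5 : ℝ) ^ (ε / 384) * (T : ℝ) ^ (ε / 48) := by ring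
      _ ≤ _ := by gcongr
  · have h2 := Real.log_le_rpow_div (by positivity : (0 : ℝ) ≤ T) (by positivity : 0 < ε / 48)
    have h3 := Real.log_le_self (by norm_num : (0 : ℝ) ≤ 4356)
    push_cast
    rw [Real.log_mul (by norm_num) (by positivity), Real.log_pow]
    calc _ ≤ 4357 * (T : ℝ) ^ (ε / 48) + 2 * ((T : ℝ) ^ (ε / 48) / (ε / 48)) := by
          push_cast
          linarith
      _ = (4357 + 96 / ε) * (T : ℝ) ^ (ε / 48) := by field_simp; ring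
      _ ≤ _ := by gcongr
  · rw [mul_pow, ← Real.rpow_natCast ((T : ℝ) ^ (ε / 48)), ← Real.rpow_mul (by positivity),
      Real.rpow_add (by positivity), show ε / 48 * ((48 : ℕ) : ℝ) = ε by push_cast; ring,
      Real.rpow_ofNat]
    ring

end Pool.Agent.MP_b9bf0c_nt

end
end

section

/-!
Odd integers as x^2 + 2 y^2 + 3 z^2 with x + y + z a square: the exceptional set.
-/

set_option autoImplicit false

open Finset
open scoped Classical

namespace Pool.Agent.MP_b9bf0c_nt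

/-- A representation with a square sum of the variables. -/
def Rep (n : ℕ) : Prop :=
  ∃ x y z m : ℤ, (n : ℤ) = x ^ 2 + 2 * y ^ 2 + 3 * z ^ 2 ∧ x + y + z = m ^ 2

theorem rep_of_Rp {ν : ℕ} (h : Rp ν) : Rep (2 * ν + 1) := by
  obtain ⟨j, k, s, h⟩ := h
  have h1 := two_qf 11 (-3) j
  have h2 := two_qf 1 0 k
  obtain ⟨z, w, hw, hz⟩ : ∃ z w : ℤ, w ^ 2 = (2 * k + 1) ^ 2 ∧
      4 * z = 792 * s ^ 2 + 144 * s + 7 + 2 * j + w := by
    rcases Int.even_or_odd' (j + k) with ⟨i, hi | hi⟩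
    · exact ⟨198 * s ^ 2 + 36 * s + 2 + i, 2 * k + 1, rfl, by linear_combination -2 * hi⟩
    · exact ⟨198 * s ^ 2 + 36 * s + 2 + i - k, -(2 * k + 1), by ring, by linear_combination -2 * hi⟩
  refine ⟨(33 * s + 3) ^ 2 - (297 * s ^ 2 + 54 * s + 2 - 2 * j) - z,
    297 * s ^ 2 + 54 * s + 2 - 2 * j, z, 33 * s + 3, ?_, by ring⟩
  have hw' : w = 4 * z - (792 * s ^ 2 + 144 * s + 7 + 2 * j) := by linear_combination -hz
  rw [hw'] at hw
  unfold PP at h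
  push_cast
  apply mul_left_cancel₀ (by norm_num : (4 : ℤ) ≠ 0)
  linear_combination 8 * h + 4 * h1 + 4 * h2 - hw

theorem Rep.mul {n : ℕ} (h : Rep n) (k : ℕ) : Rep (k ^ 4 * n) := by
  obtain ⟨x, y, z, m, h1, h2⟩ := h
  refine ⟨k ^ 2 * x, k ^ 2 * y, k ^ 2 * z, k * m, ?_, by linear_combination (k : ℤ) ^ 2 * h2⟩
  push_cast
  linear_combination (k : ℤ) ^ 4 * h1

theorem exists_free (n : ℕ) (hn : n ≠ 0) :
    ∃ k m : ℕ, 1 ≤ k ∧ n = k ^ 4 * m ∧ ∀ p : ℕ, p.Prime → ¬ p ^ 4 ∣ m := by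
  induction n using Nat.strong_induction_on with
  | _ n ih =>
    by_cases h : ∃ p : ℕ, p.Prime ∧ p ^ 4 ∣ n
    · obtain ⟨p, hp, m, rfl⟩ := h
      have hm : m ≠ 0 := right_ne_zero_of_mul hn
      obtain ⟨k, m', h1, rfl, h2⟩ := ih m (lt_mul_of_one_lt_left (Nat.pos_of_ne_zero hm)
        (Nat.one_lt_pow (by norm_num) hp.one_lt)) hm
      exact ⟨p * k, m', Nat.mul_pos hp.pos h1, by ring, h2⟩
    · exact ⟨1, n, le_rfl, by simp, fun p hp hd => h ⟨p, hp, hd⟩⟩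

theorem blocks {ε : ℝ} (hε : 0 < ε) : ∃ C : ℝ, 0 < C ∧ ∀ i : ℕ,
    (((range (33 ^ 4 * 16 ^ i + 1)).filter fun ν : ℕ => Free ν ∧ ¬ Rp ν).card : ℝ) ≤
      C * ((2 : ℝ) ^ i) ^ (3 + ε) := by
  obtain ⟨C, hC, h⟩ := core hε
  refine ⟨C + (33 ^ 4 + 1), by positivity, fun i => ?_⟩
  induction i with
  | zero =>
    have : (((range (33 ^ 4 * 16 ^ 0 + 1)).filter fun ν : ℕ => Free ν ∧ ¬ Rp ν).card : ℝ) ≤
        33 ^ 4 + 1 := by exact_mod_cast (card_filter_le _ _).trans (by simp)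
    rw [pow_zero (2 : ℝ), Real.one_rpow]
    linarith
  | succ i ih =>
    have h1 := h (2 ^ i) Nat.one_le_two_pow
    have e : (2 ^ i) ^ 4 = 16 ^ i := by rw [← pow_mul, mul_comm, pow_mul]; norm_num
    rw [e] at h1
    have h2 : (range (33 ^ 4 * 16 ^ (i + 1) + 1)).filter (fun ν : ℕ => Free ν ∧ ¬ Rp ν) ⊆
        (range (33 ^ 4 * 16 ^ i + 1)).filter (fun ν : ℕ => Free ν ∧ ¬ Rp ν) ∪
          (Ioc (33 ^ 4 * 16 ^ i) (16 * (33 ^ 4 * 16 ^ i))).filter fun ν : ℕ => Free ν ∧ ¬ Rp ν := by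
      intro ν hν
      rw [← filter_union]
      rw [mem_filter] at hν ⊢
      refine ⟨?_, hν.2⟩
      have := mem_range.1 hν.1
      rw [pow_succ] at this
      rw [mem_union, mem_range, mem_Ioc]
      omega
    have h3 := (Nat.cast_le (α := ℝ)).2 ((card_le_card h2).trans (card_union_le _ _))
    rw [Nat.cast_add] at h3
    have h4 : (2 : ℝ) ≤ (2 : ℝ) ^ (3 + ε) := by
      simpa using Real.rpow_le_rpow_of_exponent_le (one_le_two (α := ℝ)) (by linarith : 1 ≤ 3 + ε)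
    have h5 : 0 < ((2 : ℝ) ^ i) ^ (3 + ε) := by positivity
    rw [pow_succ (2 : ℝ), Real.mul_rpow (by positivity) (by norm_num)]
    rw [Nat.cast_pow, Nat.cast_ofNat] at h1
    have h6 : (C + (33 ^ 4 + 1)) * (((2 : ℝ) ^ i) ^ (3 + ε) * 2) ≤
        (C + (33 ^ 4 + 1)) * (((2 : ℝ) ^ i) ^ (3 + ε) * (2 : ℝ) ^ (3 + ε)) := by gcongr
    nlinarith

theorem free_bound {ε : ℝ} (hε : 0 < ε) : ∃ C : ℝ, 0 < C ∧ ∀ Y : ℕ,
    (((Ioc 0 Y).filter fun n : ℕ => Odd n ∧ (∀ p : ℕ, p.Prime → ¬ p ^ 4 ∣ n) ∧ ¬ Rep n).card : ℝ) ≤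
      C * (Y : ℝ) ^ (3 / 4 + ε) := by
  obtain ⟨C, hC, h⟩ := blocks (ε := 4 * ε) (by positivity)
  refine ⟨C * (16 : ℝ) ^ (3 / 4 + ε), by positivity, fun Y => ?_⟩
  rcases Nat.eq_zero_or_pos Y with rfl | hY
  · simp only [Ioc_self, filter_empty, card_empty, Nat.cast_zero]
    positivity
  have h1 : Y < 16 ^ (Nat.log 16 Y + 1) := Nat.lt_pow_succ_log_self (by norm_num) Y
  have h2 : 16 ^ (Nat.log 16 Y + 1) ≤ 16 * Y := by
    have := Nat.pow_log_le_self 16 hY.ne'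
    rw [pow_succ]
    omega
  generalize Nat.log 16 Y + 1 = i at h1 h2
  refine le_trans ?_ ((h i).trans ?_)
  · refine Nat.cast_le.2 (card_le_card_of_injOn (fun n => n / 2) (fun n hn => ?_) fun n hn m hm e => ?_)
    · obtain ⟨a1, ⟨ν, rfl⟩, a2, a3⟩ := mem_filter.1 (mem_coe.1 hn)
      have := mem_Ioc.1 a1
      have e : (2 * ν + 1) / 2 = ν := by omega
      simp only [e, coe_filter, mem_range, Set.mem_ofPred_eq]
      exact ⟨by omega, a2, fun hr => a3 (rep_of_Rp hr)⟩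
    · obtain ⟨-, ⟨a, rfl⟩, -⟩ := mem_filter.1 (mem_coe.1 hn)
      obtain ⟨-, ⟨b, rfl⟩, -⟩ := mem_filter.1 (mem_coe.1 hm)
      simp only at e
      omega
  · have e : ((2 : ℝ) ^ i) ^ (3 + 4 * ε) = ((16 : ℝ) ^ i) ^ (3 / 4 + ε) := by
      rw [show (16 : ℝ) ^ i = ((2 : ℝ) ^ i) ^ (4 : ℝ) by
        rw [Real.rpow_ofNat, ← pow_mul, mul_comm, pow_mul]; norm_num,
        ← Real.rpow_mul (by positivity)]
      congr 1
      ring
    rw [e, mul_assoc, ← Real.mul_rpow (by norm_num) (by positivity)]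
    gcongr
    exact_mod_cast h2

theorem main {ε : ℝ} (hε : 0 < ε) : ∃ C : ℝ, ∀ X : ℕ,
    (((Ioc 0 X).filter fun n : ℕ => Odd n ∧ ¬ Rep n).card : ℝ) ≤ C * (X : ℝ) ^ (3 / 4 + ε) := by
  obtain ⟨C, hC, h⟩ := free_bound hε
  refine ⟨C * 2, fun X => ?_⟩
  have h1 : (Ioc 0 X).filter (fun n : ℕ => Odd n ∧ ¬ Rep n) ⊆ (Ioc 0 X).biUnion fun k =>
      ((Ioc 0 (X / k ^ 4)).filter fun n : ℕ =>
        Odd n ∧ (∀ p : ℕ, p.Prime → ¬ p ^ 4 ∣ n) ∧ ¬ Rep n).image (k ^ 4 * ·) := by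
    intro n hn
    obtain ⟨a1, a2, a3⟩ := mem_filter.1 hn
    rw [mem_Ioc] at a1
    obtain ⟨k, m, b1, rfl, b2⟩ := exists_free n a1.1.ne'
    have hm : 0 < m := Nat.pos_of_mul_pos_left a1.1
    have hk : k ≤ k ^ 4 * m := (Nat.le_self_pow (by norm_num) k).trans (Nat.le_mul_of_pos_right _ hm)
    refine mem_biUnion.2 ⟨k, mem_Ioc.2 ⟨b1, hk.trans a1.2⟩, mem_image.2 ⟨m, mem_filter.2
      ⟨mem_Ioc.2 ⟨hm, ?_⟩, (Nat.odd_mul.1 a2).2, b2, fun hr => a3 (hr.mul k)⟩, rfl⟩⟩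
    rw [Nat.le_div_iff_mul_le (by positivity), mul_comm]
    exact a1.2
  have h2 : ∀ k ∈ Ioc 0 X, ((((Ioc 0 (X / k ^ 4)).filter fun n : ℕ =>
      Odd n ∧ (∀ p : ℕ, p.Prime → ¬ p ^ 4 ∣ n) ∧ ¬ Rep n).image (k ^ 4 * ·)).card : ℝ) ≤
        C * (X : ℝ) ^ (3 / 4 + ε) * ((k : ℝ) ^ 2)⁻¹ := by
    intro k hk
    have hk1 : (1 : ℝ) ≤ k := by exact_mod_cast (mem_Ioc.1 hk).1
    refine le_trans (Nat.cast_le.2 card_image_le) ((h _).trans ?_)
    have h3 : ((X / k ^ 4 : ℕ) : ℝ) ≤ X / (k : ℝ) ^ 4 := by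
      rw [← Nat.cast_pow]
      exact Nat.cast_div_le
    have h4 : (k : ℝ) ^ 2 ≤ ((k : ℝ) ^ 4) ^ (3 / 4 + ε) := by
      rw [← Real.rpow_natCast (k : ℝ) 4, ← Real.rpow_mul (by positivity), ← Real.rpow_natCast]
      refine Real.rpow_le_rpow_of_exponent_le hk1 ?_
      push_cast
      linarith
    rw [mul_assoc, ← div_eq_mul_inv]
    calc _ ≤ C * (X / (k : ℝ) ^ 4) ^ (3 / 4 + ε) := by gcongr
      _ = C * ((X : ℝ) ^ (3 / 4 + ε) / ((k : ℝ) ^ 4) ^ (3 / 4 + ε)) := by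
        rw [Real.div_rpow (by positivity) (by positivity)]
      _ ≤ _ := by gcongr
  have h3 : ∑ k ∈ Ioc 0 X, ((k : ℝ) ^ 2)⁻¹ ≤ 2 := by
    have := sum_Ioo_inv_sq_le (α := ℝ) 0 (X + 1)
    rw [show Ioo 0 (X + 1) = Ioc 0 X by ext; simp] at this
    simpa using this
  calc _ ≤ ∑ k ∈ Ioc 0 X, C * (X : ℝ) ^ (3 / 4 + ε) * ((k : ℝ) ^ 2)⁻¹ := by
        refine le_trans ?_ (sum_le_sum h2)
        exact_mod_cast (card_le_card h1).trans card_biUnion_le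
    _ ≤ C * (X : ℝ) ^ (3 / 4 + ε) * 2 := by rw [← mul_sum]; gcongr
    _ = _ := by ring

end Pool.Agent.MP_b9bf0c_nt

end
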