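import Pool.Agent.MP_c903c4_nt.Four
import Pool.Agent.MP_2a1f0e_nt.Div

section

/-!
Odd integers as x^2 + 2 y^2 + 3 z^2 with x + y + z a square: definitions and basic facts.
-/

set_option autoImplicit false

open Finset Complex
open scoped Real ArithmeticFunction.Moebius

noncomputable section

namespace Pool.Agent.MP_b9bf0c_nt

open Pool.Agent.MP_2a1f0e_nt (ex)
open Pool.Agent.MP_c903c4_nt (Red cc)

/-- Triangular numbers. -/
def tri (k : ℤ) : ℤ := k * (k + 1) / 2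

/-- The integer valued quadratic polynomial `(A j ^ 2 + (A + 2 B) j) / 2`. -/
def qf (A B j : ℤ) : ℤ := A * tri j + B * j

/-- The quartic polynomial `(3 (33 s + 3) ^ 4 - 1) / 11`. -/
def PP (s : ℤ) : ℤ := 22 + 243 * s * (4 + 66 * s + 484 * s ^ 2 + 1331 * s ^ 3)

/-- Representable integers. -/
def Rp (ν : ℤ) : Prop := ∃ j k s : ℤ, ν = qf 11 (-3) j + qf 1 0 k + PP s

/-- Complete quadratic exponential sums. -/
def SS (A B : ℤ) (q : ℕ) (a k : ℤ) : ℂ :=
  ∑ r ∈ range (2 * q), ex (-((a * qf A B r : ℤ) : ℝ) / q + (k : ℝ) * r / (2 * q))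

/-- The coefficient of the fraction `a / q`. -/
def gg (q : ℕ) (a : ℤ) : ℂ := SS 11 (-3) q a 0 * SS 1 0 q a 0 / (4 * (q : ℂ) ^ 2)

/-- One dimensional theta series. -/
def phi (A B : ℤ) (z : ℂ) : ℂ := ∑' j : ℤ, cexp (-(2 * π * z * (qf A B j : ℂ)))

/-- The binary theta series. -/
def th (z : ℂ) : ℂ := phi 11 (-3) z * phi 1 0 z

/-- The geometric series. -/
def EE (z : ℂ) : ℂ := 1 / (1 - cexp (-(2 * π * z)))

/-- The normalising constant. -/
def kap : ℂ := ((2 * π / √11 : ℝ) : ℂ)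

/-- The point with real part `1 / M ^ 2` and imaginary part `β`. -/
def pt (M : ℕ) (β : ℝ) : ℂ := ((1 / (M : ℝ) ^ 2 : ℝ) : ℂ) + (β : ℂ) * I

/-- The quartic exponential sum. -/
def GT (T : ℕ) (α : ℝ) : ℂ := ∑ s ∈ range T, ex (-(α * (PP s : ℝ)))

/-- The model for the number of representations. -/
def JJ (Q T : ℕ) (ν : ℕ) : ℂ :=
  ∑ q ∈ Ioc 0 Q, ∑ a ∈ Red q, gg q a * GT T ((a : ℝ) / q) * ex ((a : ℝ) * ν / q)

/-- The number `11 (2 ν + 1) - 6 (33 s + 3) ^ 4`. -/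
def mm (ν : ℕ) (s : ℤ) : ℤ := 22 * (ν - PP s) + 9

/-- The number of roots modulo `d`. -/
def rho (ν d : ℕ) : ℕ := ((range d).filter fun s : ℕ => (d : ℤ) ∣ mm ν s).card

/-- The quadratic character of discriminant `-11` on the integers coprime to `22`. -/
def chi (q : ℕ) : ℤ := if q.Coprime 22 then jacobiSym (-11) q else 0

/-- The terms of the singular series. -/
def hh (ν q : ℕ) : ℝ :=
  (chi q : ℝ) / q * ∑ x ∈ q.divisorsAntidiagonal, (μ x.1 : ℝ) * (rho ν x.2 : ℝ)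

/-- The truncated singular series. -/
def HH (D ν : ℕ) : ℝ := ∑ q ∈ Ioc 0 D, hh ν q

/-- The terms of the mollifier. -/
def uu (ν e : ℕ) : ℝ := if 3 ∣ e then 0 else (μ e : ℝ) * hh ν e

/-- The mollifier. -/
def Mo (D ν : ℕ) : ℝ := ∑ e ∈ Ioc 0 D, uu ν e

/-- The Dirichlet convolution of the series and the mollifier. -/
def kk (ν l : ℕ) : ℝ := ∑ x ∈ l.divisorsAntidiagonal, hh ν x.1 * uu ν x.2

/-- The remainder of the mollified series. -/
def RR (D ν : ℕ) : ℝ := HH D ν * Mo D ν - ∑ l ∈ Ioc 0 D, kk ν l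

/-- `2 ν + 1` is not divisible by the fourth power of a prime. -/
def Free (ν : ℕ) : Prop := ∀ p : ℕ, p.Prime → ¬ p ^ 4 ∣ 2 * ν + 1

/-- A bound for the divisor function. -/
def Dv (τ : ℝ) (N : ℕ) : Prop := ∀ m : ℕ, m ≠ 0 → m ≤ N → (m.divisors.card : ℝ) ≤ τ

/-- The number of collisions of the quartic polynomial modulo `q` among `0, ..., T - 1`. -/
def col (T q : ℕ) : ℕ := cc (range T) (fun s : ℕ => PP s) q

theorem two_tri (k : ℤ) : 2 * tri k = k * (k + 1) :=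
  Int.mul_ediv_cancel' (Int.even_mul_succ_self k).two_dvd

theorem two_qf (A B j : ℤ) : 2 * qf A B j = A * j ^ 2 + (A + 2 * B) * j := by
  unfold qf
  linear_combination A * two_tri j

theorem qf_add (A B j h : ℤ) : qf A B (j + h) = qf A B j + qf A B h + A * j * h := by
  have h1 := two_qf A B (j + h)
  have h2 := two_qf A B j
  have h3 := two_qf A B h
  apply mul_left_cancel₀ (two_ne_zero (α := ℤ))
  linear_combination h1 - h2 - h3

theorem qf_one_nonneg (j : ℤ) : 0 ≤ qf 1 0 j := by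
  have := two_qf 1 0 j
  rcases le_or_gt 0 j with h | h <;> nlinarith

theorem qf_eleven_nonneg (j : ℤ) : 0 ≤ qf 11 (-3) j := by
  have := two_qf 11 (-3) j
  rcases le_or_gt 0 j with h | h <;> nlinarith

theorem eleven_PP (s : ℤ) : 11 * PP s = 3 * (33 * s + 3) ^ 4 - 1 := by
  unfold PP
  ring

theorem mm_eq (ν : ℕ) (s : ℤ) : mm ν s = 11 * (2 * ν + 1) - 6 * (33 * s + 3) ^ 4 := by
  unfold mm
  linear_combination -2 * eleven_PP s

theorem PP_dvd (d s t : ℤ) (h : d ∣ s - t) : d ∣ PP s - PP t := by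
  refine h.trans ⟨243 * (4 + 66 * (s + t) + 484 * (s ^ 2 + s * t + t ^ 2) +
    1331 * (s + t) * (s ^ 2 + t ^ 2)), ?_⟩
  unfold PP
  ring

theorem PP_pos (s : ℕ) : 0 < PP s := by
  unfold PP
  positivity

theorem PP_lt {s t : ℕ} (h : s < t) : PP s < PP t := by
  have h1 : (33 * (s : ℤ) + 3) ^ 4 < (33 * (t : ℤ) + 3) ^ 4 :=
    pow_lt_pow_left₀ (by omega) (by positivity) (by norm_num)
  have h2 := eleven_PP s
  have h3 := eleven_PP t
  omega

theorem PP_inj {s t : ℕ} (h : PP s = PP t) : s = t := by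
  rcases lt_trichotomy s t with h1 | h1 | h1
  · exact absurd h (PP_lt h1).ne
  · exact h1
  · exact absurd h (PP_lt h1).ne'

theorem PP_le {s T : ℕ} (h : s < T) : PP s ≤ 33 ^ 4 * (T : ℤ) ^ 4 := by
  have h1 : (33 * (s : ℤ) + 3) ^ 4 ≤ (33 * (T : ℤ)) ^ 4 :=
    pow_le_pow_left₀ (by positivity) (by omega) 4
  have h2 := eleven_PP s
  have h3 : (0 : ℤ) ≤ (33 * (T : ℤ)) ^ 4 := by positivity
  rw [← mul_pow]
  omega

theorem chi_mul (a b : ℕ) : chi (a * b) = chi a * chi b := by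
  unfold chi
  by_cases ha : a.Coprime 22
  · by_cases hb : b.Coprime 22
    · rw [if_pos ha, if_pos hb, if_pos (Nat.Coprime.mul_left ha hb)]
      refine jacobiSym.mul_right' _ ?_ ?_
      · rintro rfl
        simp at ha
      · rintro rfl
        simp at hb
    · rw [if_neg hb, if_neg fun h => hb (Nat.Coprime.coprime_mul_left h), mul_zero]
  · rw [if_neg ha, if_neg fun h => ha (Nat.Coprime.coprime_mul_right h), zero_mul]

theorem abs_chi_le (a : ℕ) : |chi a| ≤ 1 := by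
  unfold chi
  split_ifs
  · rcases jacobiSym.trichotomy (-11) a with h | h | h <;> simp [h]
  · simp

theorem chi_one : chi 1 = 1 := by simp [chi]

theorem chi_three : chi 3 = 1 := by
  unfold chi
  norm_num

theorem chi_pow (a j : ℕ) : chi (a ^ j) = chi a ^ j := by
  induction j with
  | zero => simp [chi_one]
  | succ j ih => rw [pow_succ, chi_mul, ih, pow_succ]

theorem Dv.mono {τ : ℝ} {N N' : ℕ} (h : Dv τ N) (hN : N' ≤ N) : Dv τ N' :=
  fun m h0 hm => h m h0 (hm.trans hN)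

theorem Dv.one_le {τ : ℝ} {N : ℕ} (h : Dv τ N) (hN : 1 ≤ N) : 1 ≤ τ := by
  simpa using h 1 one_ne_zero hN

end Pool.Agent.MP_b9bf0c_nt

end
end

section

/-!
Odd integers as x^2 + 2 y^2 + 3 z^2 with x + y + z a square: quadratic exponential sums.
-/

set_option autoImplicit false

open Finset Complex
open scoped Real ArithmeticFunction.Moebius

noncomputable section

namespace Pool.Agent.MP_b9bf0c_nt

open Pool.Agent.MP_2a1f0e_nt (ex)
open Pool.Agent.MP_c903c4_nt (Red cc)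

namespace Gauss

open Pool.Agent.MP_2a1f0e_nt

/-- The additive character modulo `q`. -/
def e (q : ℕ) (m : ℤ) : ℂ := ex ((m : ℝ) / q)

theorem e_add (q : ℕ) (m n : ℤ) : e q (m + n) = e q m * e q n := by
  rw [e, e, e, ← ex_add, Int.cast_add, add_div]

theorem e_dvd {q : ℕ} {m : ℤ} (h : (q : ℤ) ∣ m) : e q m = 1 := by
  obtain ⟨t, rfl⟩ := h
  rcases eq_or_ne q 0 with rfl | hq
  · simp [e, ex_zero]
  · have hq' : (q : ℝ) ≠ 0 := Nat.cast_ne_zero.2 hq
    rw [e, ← ex_int t]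
    congr 1
    push_cast
    field_simp

theorem e_congr {q : ℕ} {m n : ℤ} (h : (q : ℤ) ∣ m - n) : e q m = e q n := by
  rw [← sub_add_cancel m n, e_add, e_dvd h, one_mul]

theorem e_mul (q : ℕ) {d : ℕ} (hd : d ≠ 0) (m : ℤ) : e (d * q) (d * m) = e q m := by
  have hd' : (d : ℝ) ≠ 0 := Nat.cast_ne_zero.2 hd
  rw [e, e]
  congr 1
  push_cast
  exact mul_div_mul_left _ _ hd'

theorem norm_e (q : ℕ) (m : ℤ) : ‖e q m‖ = 1 := norm_ex _

theorem conj_e (q : ℕ) (m : ℤ) : (starRingEnd ℂ) (e q m) = e q (-m) := by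
  rw [e, e, conj_ex, Int.cast_neg, neg_div]

theorem sum_e {q : ℕ} (hq : 0 < q) (m : ℤ) :
    ∑ r ∈ range q, e q (m * r) = if (q : ℤ) ∣ m then (q : ℂ) else 0 := by
  rw [← gs_div q hq m, gs]
  refine sum_congr rfl fun r _ => ?_
  rw [e]
  congr 1
  push_cast
  ring

theorem dvd_of_e {q : ℕ} (hq : 0 < q) {m : ℤ} (h : e q m = 1) : (q : ℤ) ∣ m := by
  by_contra hm
  have h1 := gs_div q hq m
  rw [if_neg hm, gs] at h1
  have h2 : ex ((m : ℝ) / q) = 1 := h
  simp only [ex_nat_mul, h2, one_pow, sum_const, card_range, nsmul_eq_mul, mul_one,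
    Nat.cast_eq_zero] at h1
  omega

/-- Periodic functions. -/
def Per (n : ℕ) (f : ℤ → ℂ) : Prop := ∀ x y : ℤ, (n : ℤ) ∣ x - y → f x = f y

theorem sum_zmod (n : ℕ) [NeZero n] (f : ℤ → ℂ) :
    ∑ r ∈ range n, f r = ∑ x : ZMod n, f (x.val : ℕ) := by
  refine sum_nbij' (fun r => (r : ZMod n)) (fun x => x.val) (fun _ _ => mem_univ _)
    (fun x _ => mem_range.2 x.val_lt) (fun r hr => ZMod.val_cast_of_lt (mem_range.1 hr))
    (fun x _ => ZMod.natCast_zmod_val x) fun r hr => ?_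
  rw [ZMod.val_cast_of_lt (mem_range.1 hr)]

theorem sum_affine {n : ℕ} {f : ℤ → ℂ} (hf : Per n f) {u : ℤ} (hu : IsCoprime (n : ℤ) u)
    (v : ℤ) : ∑ r ∈ range n, f (u * r + v) = ∑ r ∈ range n, f r := by
  rcases eq_or_ne n 0 with rfl | hn
  · simp
  have : NeZero n := ⟨hn⟩
  rw [sum_zmod n fun r => f (u * r + v), sum_zmod n f]
  obtain ⟨w, hw⟩ := (ZMod.coe_int_isUnit_iff_isCoprime u n).2 hu
  have hb : Function.Bijective fun x : ZMod n => (u : ZMod n) * x + v :=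
    (Equiv.addRight (v : ZMod n)).bijective.comp (hw ▸ w.mulLeft_bijective)
  refine Fintype.sum_bijective _ hb _ _ fun x => hf _ _ ?_
  rw [← ZMod.intCast_zmod_eq_zero_iff_dvd]
  simp

theorem sum_shift {n : ℕ} {f : ℤ → ℂ} (hf : Per n f) (v : ℤ) :
    ∑ r ∈ range n, f (r + v) = ∑ r ∈ range n, f r := by
  simpa using sum_affine hf isCoprime_one_right v

theorem sum_mul (a b : ℕ) (f : ℤ → ℂ) :
    ∑ r ∈ range (a * b), f r = ∑ v ∈ range a, ∑ w ∈ range b, f (v + a * w) := by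
  induction b with
  | zero => simp
  | succ b ih =>
    rw [Nat.mul_succ, sum_range_add, ih, ← sum_add_distrib]
    refine sum_congr rfl fun v _ => ?_
    rw [sum_range_succ]
    congr 2
    push_cast
    ring

theorem sum_two {n : ℕ} {f : ℤ → ℂ} (hf : Per n f) :
    ∑ r ∈ range (2 * n), f r = 2 * ∑ r ∈ range n, f r := by
  rw [two_mul, sum_range_add, two_mul]
  congr 1
  exact sum_congr rfl fun r _ => hf _ _ ⟨1, by push_cast; ring⟩

/-- The summand of `SS`. -/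
def FF (A B : ℤ) (q : ℕ) (a k r : ℤ) : ℂ := e (2 * q) (-(2 * a * qf A B r) + k * r)

theorem SS_eq (A B : ℤ) (q : ℕ) (a k : ℤ) :
    SS A B q a k = ∑ r ∈ range (2 * q), FF A B q a k r := by
  refine sum_congr rfl fun r _ => ?_
  rw [FF, e, ← mul_div_mul_left _ (q : ℝ) two_ne_zero, ← add_div]
  congr 2 <;> push_cast <;> ring

theorem FF_per (A B : ℤ) (q : ℕ) (a k : ℤ) : Per (2 * q) (FF A B q a k) := fun x y h => by
  refine e_congr (h.trans ⟨k - a * (A * (x + y) + (A + 2 * B)), ?_⟩)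
  linear_combination (-a) * two_qf A B x + a * two_qf A B y

theorem FF_add (A B : ℤ) (q : ℕ) (a k r h : ℤ) : FF A B q a k (r + h) =
    FF A B q a k r * FF A B q a k h * e (2 * q) (-(2 * a * A * h) * r) := by
  rw [FF, FF, FF, ← e_add, ← e_add, qf_add]
  congr 1
  ring

theorem FF_zero (A B : ℤ) (q : ℕ) (a r : ℤ) : FF A B q a 0 r = e q (-(a * qf A B r)) := by
  rw [FF, ← e_mul q two_ne_zero]
  congr 1
  push_cast
  ring

theorem SS_zero {A B : ℤ} {q : ℕ} (hq : 0 < q) {a h : ℤ} (ha : IsCoprime a (q : ℤ))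
    (h1 : (q : ℤ) ∣ A * h) (h2 : ¬ (q : ℤ) ∣ qf A B h) : SS A B q a 0 = 0 := by
  have h3 : FF A B q a 0 h ≠ 1 := fun h4 => by
    rw [FF_zero] at h4
    exact h2 (ha.symm.dvd_of_dvd_mul_left (dvd_neg.1 (dvd_of_e hq h4)))
  have h4 := sum_shift (FF_per A B q a 0) h
  have h5 : ∀ r : ℕ, FF A B q a 0 (r + h) = FF A B q a 0 r * FF A B q a 0 h := fun r => by
    obtain ⟨t, ht⟩ := h1
    rw [FF_add, e_dvd ⟨-(a * t * r), by push_cast; linear_combination (-(2 * a * r)) * ht⟩,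
      mul_one]
  simp only [h5] at h4
  rw [← Finset.sum_mul, ← SS_eq] at h4
  exact (mul_eq_zero.1 (by linear_combination h4 :
    SS A B q a 0 * (FF A B q a 0 h - 1) = 0)).resolve_right (sub_ne_zero.2 h3)

/-- The quadratic Gauss sum. -/
def G (q : ℕ) (b : ℤ) : ℂ := ∑ u ∈ range q, e q (b * (u : ℤ) ^ 2)

theorem G_per (q : ℕ) (b : ℤ) : Per q fun u => e q (b * u ^ 2) := fun x y h =>
  e_congr (h.trans ⟨b * (x + y), by ring⟩)

theorem G_mul {a c : ℕ} (ha : a ≠ 0) (hc : c ≠ 0) (h : a.Coprime c) (b : ℤ) :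
    G (a * c) b = G a (b * c) * G c (b * a) := by
  have hp : Per a fun v => ∑ w ∈ range c, e (a * c) (b * (v + a * w) ^ 2) := fun x y ⟨t, ht⟩ => by
    have h1 : Per c fun w => e (a * c) (b * (y + a * w) ^ 2) := fun w w' ⟨s, hs⟩ =>
      G_per (a * c) b _ _ ⟨s, by push_cast; linear_combination a * hs⟩
    beta_reduce
    rw [← sum_shift h1 t]
    refine sum_congr rfl fun w _ => ?_
    congr 3
    linear_combination ht
  rw [G, sum_mul a c fun u => e (a * c) (b * u ^ 2),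
    ← sum_affine hp (Nat.isCoprime_iff_coprime.2 h) 0, G, G, sum_mul_sum]
  refine sum_congr rfl fun v _ => sum_congr rfl fun w _ => ?_
  rw [← e_mul a hc, ← e_mul c ha, mul_comm c a, ← e_add]
  exact e_congr ⟨2 * b * v * w, by push_cast; ring⟩

theorem G_sq {p m : ℕ} (hp : p ≠ 0) (hm : m ≠ 0) {b : ℤ} (h : IsCoprime (p : ℤ) (2 * b)) :
    G (p * (p * m)) b = p * G m b := by
  have h1 : ∀ v : ℕ, ∑ w ∈ range p, e (p * m * p) (b * (v + (p * m : ℕ) * w) ^ 2) =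
      if (p : ℤ) ∣ v then p * e (p * m * p) (b * v ^ 2) else 0 := fun v => by
    have h2 : ∀ w : ℕ, e (p * m * p) (b * (v + (p * m : ℕ) * w) ^ 2) =
        e (p * m * p) (b * v ^ 2) * e p (2 * b * v * w) := fun w => by
      rw [← e_mul p (mul_ne_zero hp hm), ← e_add]
      exact e_congr ⟨b * m * w ^ 2, by push_cast; ring⟩
    simp only [h2]
    rw [← mul_sum, sum_e (Nat.pos_of_ne_zero hp)]
    by_cases h3 : (p : ℤ) ∣ v
    · rw [if_pos h3, if_pos (h3.mul_left _), mul_comm]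
    · rw [if_neg h3, if_neg fun h4 => h3 (h.dvd_of_dvd_mul_left h4), mul_zero]
  rw [mul_comm p (p * m), G, sum_mul (p * m) p fun u => e (p * m * p) (b * u ^ 2)]
  simp only [h1]
  rw [sum_mul p m fun v => if (p : ℤ) ∣ v then p * e (p * m * p) (b * v ^ 2) else 0,
    sum_eq_single 0, G, mul_sum]
  · refine sum_congr rfl fun w _ => ?_
    rw [if_pos (by simp), ← e_mul m (mul_ne_zero hp hp), mul_right_comm p p m]
    congr 2
    push_cast
    ring
  · refine fun v hv h0 => sum_eq_zero fun w _ => if_neg fun h4 => h0 ?_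
    exact Nat.eq_zero_of_dvd_of_lt
      (Int.natCast_dvd_natCast.1 ((dvd_add_left (dvd_mul_right _ _)).1 h4)) (mem_range.1 hv)
  · exact fun h0 => absurd (mem_range.2 (Nat.pos_of_ne_zero hp)) h0

theorem G_prime {p : ℕ} [Fact p.Prime] (h2 : p ≠ 2) {b : ℤ} (hb : (b : ZMod p) ≠ 0) :
    (legendreSym p b : ℂ) * G p b =
      gaussSum ((quadraticChar (ZMod p)).ringHomComp (Int.castRingHom ℂ)) ZMod.stdAddChar := by
  have hc : ringChar (ZMod p) ≠ 2 := by rwa [ZMod.ringChar_zmod_n]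
  have h1 : G p b = ∑ x : ZMod p, ZMod.stdAddChar ((b : ZMod p) * x ^ 2) := by
    rw [G, sum_zmod p fun u => e p (b * u ^ 2)]
    refine sum_congr rfl fun x _ => ?_
    have h3 : (b : ZMod p) * x ^ 2 = ((b * ((x.val : ℕ) : ℤ) ^ 2 : ℤ) : ZMod p) := by simp
    rw [h3, ZMod.stdAddChar_coe, e, ex]
    congr 1
    push_cast
    ring
  have h3 : ∑ x : ZMod p, ZMod.stdAddChar ((b : ZMod p) * x ^ 2) = ∑ y : ZMod p,
      ((quadraticChar (ZMod p) y : ℂ) + 1) * ZMod.stdAddChar ((b : ZMod p) * y) := by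
    rw [← sum_fiberwise_of_maps_to (t := univ) (g := fun x : ZMod p => x ^ 2)
      fun _ _ => mem_univ _]
    refine sum_congr rfl fun y _ => ?_
    rw [sum_congr rfl fun x hx => by rw [(mem_filter.1 hx).2], sum_const, nsmul_eq_mul]
    congr 1
    have h4 := quadraticChar_card_sqrts hc y
    rw [Set.toFinset_ofPred] at h4
    exact_mod_cast h4
  have h4 := AddChar.sum_mulShift (b : ZMod p) (ZMod.isPrimitive_stdAddChar p)
  rw [if_neg hb] at h4
  rw [← gaussSum_mulShift _ _ (Units.mk0 _ hb), h1, h3]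
  simp only [add_mul, one_mul, sum_add_distrib, mul_comm (b : ZMod p), h4, Nat.cast_zero,
    add_zero]
  simp [gaussSum, legendreSym, mul_comm (b : ZMod p)]

theorem GG_prime {p : ℕ} (hp : p.Prime) {b d : ℤ} (h : IsCoprime (p : ℤ) (2 * b * d)) :
    G p b * G p (d * b) = jacobiSym (-d) p * p := by
  have := Fact.mk hp
  have hp' : Prime (p : ℤ) := Nat.prime_iff_prime_int.1 hp
  have h0 : ¬ (p : ℤ) ∣ 2 * b * d := (hp'.irreducible.coprime_iff_not_dvd).1 h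
  have h2 : p ≠ 2 := by
    rintro rfl
    exact h0 ⟨b * d, by push_cast; ring⟩
  have hb : (b : ZMod p) ≠ 0 := fun h1 =>
    h0 ((((ZMod.intCast_zmod_eq_zero_iff_dvd b p).1 h1).mul_left _).mul_right _)
  have hd : (d : ZMod p) ≠ 0 := fun h1 =>
    h0 (((ZMod.intCast_zmod_eq_zero_iff_dvd d p).1 h1).mul_left _)
  have hc : ringChar (ZMod p) ≠ 2 := by rwa [ZMod.ringChar_zmod_n]
  have g1 := G_prime h2 hb
  have g2 := G_prime h2 (b := d * b) (by push_cast; exact mul_ne_zero hd hb)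
  have g3 := gaussSum_sq ((MulChar.ringHomComp_ne_one_iff (f := Int.castRingHom ℂ)
    Int.cast_injective).2 (quadraticChar_ne_one hc))
    ((quadraticChar_isQuadratic (ZMod p)).comp _) (ZMod.isPrimitive_stdAddChar p)
  have g4 : ((quadraticChar (ZMod p)).ringHomComp (Int.castRingHom ℂ)) (-1) =
      (legendreSym p (-1) : ℂ) := by simp [legendreSym]
  have g5 : (legendreSym p b : ℂ) ^ 2 = 1 := by exact_mod_cast legendreSym.sq_one p hb
  have g6 : (legendreSym p d : ℂ) ^ 2 = 1 := by exact_mod_cast legendreSym.sq_one p hd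
  rw [g4, ZMod.card] at g3
  rw [legendreSym.mul] at g2
  rw [← jacobiSym.legendreSym.to_jacobiSym, neg_eq_neg_one_mul, legendreSym.mul]
  push_cast at g2 ⊢
  generalize gaussSum ((quadraticChar (ZMod p)).ringHomComp (Int.castRingHom ℂ))
    ZMod.stdAddChar = g at *
  linear_combination (legendreSym p d : ℂ) * g3 + (legendreSym p d : ℂ) * g * g1 +
    (legendreSym p d : ℂ) * (legendreSym p b : ℂ) * G p b * g2 -
    G p b * G p (d * b) * (legendreSym p d : ℂ) ^ 2 * g5 - G p b * G p (d * b) * g6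

theorem GG (d : ℤ) (q : ℕ) : q ≠ 0 → ∀ b : ℤ, IsCoprime (q : ℤ) (2 * b * d) →
    G q b * G q (d * b) = jacobiSym (-d) q * q := by
  induction q using Nat.strong_induction_on with
  | _ q ih =>
  intro hq b h
  rcases eq_or_ne q 1 with rfl | h1
  · simp [G, e, ex_zero]
  obtain ⟨p, hp, m, rfl⟩ := Nat.exists_prime_and_dvd h1
  have hm : m ≠ 0 := right_ne_zero_of_mul hq
  have hlt : m < p * m := (Nat.lt_mul_iff_one_lt_left (Nat.pos_of_ne_zero hm)).2 hp.one_lt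
  rw [Nat.cast_mul] at h
  by_cases hpm : p ∣ m
  · obtain ⟨n, rfl⟩ := hpm
    have hn : n ≠ 0 := right_ne_zero_of_mul hm
    rw [Nat.cast_mul] at h
    have h2 := ih n (((Nat.lt_mul_iff_one_lt_left (Nat.pos_of_ne_zero hn)).2 hp.one_lt).trans hlt)
      hn b h.of_mul_left_right.of_mul_left_right
    have h3 : jacobiSym (-d) p ^ 2 = 1 := jacobiSym.sq_one
      (Int.isCoprime_iff_gcd_eq_one.1 h.of_mul_left_left.of_mul_right_right.symm.neg_left)
    have h4 : IsCoprime (p : ℤ) (2 * (d * b)) := by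
      have h5 := h.of_mul_left_left
      rwa [mul_assoc, mul_comm b] at h5
    have h5 : (jacobiSym (-d) p : ℂ) ^ 2 = 1 := by exact_mod_cast h3
    rw [G_sq hp.ne_zero hn h.of_mul_left_left.of_mul_right_left, G_sq hp.ne_zero hn h4,
      jacobiSym.mul_right' _ hp.ne_zero hm, jacobiSym.mul_right' _ hp.ne_zero hn]
    push_cast
    linear_combination (p : ℂ) ^ 2 * h2 - (p : ℂ) ^ 2 * n * (jacobiSym (-d) n : ℂ) * h5
  · have hc : p.Coprime m := (Nat.Prime.coprime_iff_not_dvd hp).2 hpm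
    have hc' : IsCoprime (p : ℤ) m := Nat.isCoprime_iff_coprime.2 hc
    have h2 := ih m hlt hm (b * p) (by
      have h3 := h.of_mul_left_right.mul_right hc'.symm
      rwa [mul_right_comm, mul_assoc 2] at h3)
    have h3 := GG_prime hp (b := b * m) (d := d) (by
      have h3 := h.of_mul_left_left.mul_right hc'
      rwa [mul_right_comm, mul_assoc 2] at h3)
    rw [G_mul hp.ne_zero hm hc, G_mul hp.ne_zero hm hc, jacobiSym.mul_right' _ hp.ne_zero hm,
      mul_assoc d, mul_assoc d]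
    push_cast
    linear_combination G m (b * p) * G m (d * (b * p)) * h3 +
      (jacobiSym (-d) p : ℂ) * p * h2

theorem SS_G {A B : ℤ} {q : ℕ} {a b u v t : ℤ} (hu : IsCoprime (q : ℤ) u)
    (h : ∀ r : ℤ, (q : ℤ) ∣ -(a * qf A B r) - (b * (u * r + v) ^ 2 + t)) :
    SS A B q a 0 = 2 * (G q b * e q t) := by
  have h1 : ∀ r : ℤ, FF A B q a 0 r = e q (b * (u * r + v) ^ 2) * e q t := fun r => by
    rw [FF_zero, ← e_add, e_congr (h r)]
  have h2 : Per q fun r => e q (b * (u * r + v) ^ 2) := fun x y hxy =>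
    G_per q b _ _ (hxy.trans ⟨u, by ring⟩)
  rw [SS_eq]
  simp only [h1]
  rw [← Finset.sum_mul, sum_two h2, sum_affine (G_per q b) hu v, G, mul_assoc]

end Gauss

open Gauss

theorem norm_SS_sq {A : ℤ} (hA : 0 < A) (B : ℤ) {q : ℕ} (hq : 0 < q) {a : ℤ}
    (ha : IsCoprime a (q : ℤ)) (k : ℤ) : ‖SS A B q a k‖ ^ 2 ≤ 4 * (q : ℝ) * (A : ℝ) := by
  have h1 : ∀ r : ℤ, (starRingEnd ℂ) (FF A B q a k r) * FF A B q a k r = 1 := fun r => by
    rw [FF, conj_e, ← e_add, neg_add_cancel, e_dvd (dvd_zero _)]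
  have h2 : ((‖SS A B q a k‖ ^ 2 : ℝ) : ℂ) = ∑ h ∈ range (2 * q),
      FF A B q a k h * if ((2 * q : ℕ) : ℤ) ∣ -(2 * a * A * h) then ((2 * q : ℕ) : ℂ) else 0 := by
    rw [← Complex.normSq_eq_norm_sq, Complex.normSq_eq_conj_mul_self, SS_eq, map_sum, Finset.sum_mul]
    simp only [← sum_e (by omega : 0 < 2 * q), mul_sum]
    rw [sum_comm (s := range (2 * q)) (t := range (2 * q))
      (f := fun h r : ℕ => FF A B q a k h * e (2 * q) (-(2 * a * A * h) * r))]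
    refine sum_congr rfl fun r _ => ?_
    rw [← mul_sum, ← sum_shift (FF_per A B q a k) r, mul_sum]
    refine sum_congr rfl fun h _ => ?_
    rw [add_comm, FF_add, ← mul_assoc, ← mul_assoc, h1, one_mul]
  obtain ⟨n, rfl⟩ := Int.eq_ofNat_of_zero_le hA.le
  have hn : 0 < n := by exact_mod_cast hA
  have h3 : ((range (2 * q)).filter fun h : ℕ => q ∣ n * h).card ≤ 2 * n := by
    rw [← card_range (2 * n)]
    refine card_le_card_of_injOn (fun h => n * h / q) (fun h hh => ?_) fun x hx y hy hxy => ?_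
    · have h4 := mem_range.1 (mem_filter.1 (mem_coe.1 hh)).1
      refine mem_coe.2 (mem_range.2 ((Nat.div_lt_iff_lt_mul hq).2 ?_))
      nlinarith
    · exact Nat.eq_of_mul_eq_mul_left hn ((Nat.div_left_inj (mem_filter.1 (mem_coe.1 hx)).2
        (mem_filter.1 (mem_coe.1 hy)).2).1 hxy)
  calc ‖SS n B q a k‖ ^ 2 = ‖((‖SS n B q a k‖ ^ 2 : ℝ) : ℂ)‖ := by
        rw [Complex.norm_real, Real.norm_of_nonneg (by positivity)]
    _ ≤ ∑ h ∈ range (2 * q), if q ∣ n * h then 2 * (q : ℝ) else 0 := by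
        rw [h2]
        refine (norm_sum_le _ _).trans (sum_le_sum fun h _ => ?_)
        rw [norm_mul, FF, norm_e, one_mul]
        split_ifs with h4 h5
        · simp
        · refine absurd (Int.natCast_dvd_natCast.1 (ha.symm.dvd_of_dvd_mul_left ?_)) h5
          obtain ⟨t, ht⟩ := h4
          refine ⟨-t, mul_left_cancel₀ two_ne_zero ?_⟩
          push_cast at ht ⊢
          linear_combination -ht
        · rw [norm_zero]
          positivity
        · simp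
    _ ≤ 4 * (q : ℝ) * ((n : ℤ) : ℝ) := by
        rw [← sum_filter, sum_const, nsmul_eq_mul]
        have h4 : (((range (2 * q)).filter fun h : ℕ => q ∣ n * h).card : ℝ) ≤ 2 * n := by
          exact_mod_cast h3
        have h5 : (0 : ℝ) ≤ q := Nat.cast_nonneg q
        push_cast
        nlinarith

theorem gg_add (q : ℕ) (a i : ℤ) : gg q (a + q * i) = gg q a := by
  have h : ∀ A B : ℤ, SS A B q (a + q * i) 0 = SS A B q a 0 := fun A B => by
    rw [SS_eq, SS_eq]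
    refine sum_congr rfl fun r _ => ?_
    rw [FF_zero, FF_zero]
    exact e_congr ⟨-(i * qf A B r), by ring⟩
  rw [gg, gg, h, h]

theorem gg_eq_zero {q : ℕ} (hq : 0 < q) {a : ℤ} (ha : IsCoprime a (q : ℤ))
    (h : ¬ q.Coprime 22) : gg q a = 0 := by
  have h1 : 2 ∣ q ∨ 11 ∣ q := by
    by_contra h2
    rw [not_or] at h2
    exact h (Nat.Coprime.mul_right ((Nat.prime_two.coprime_iff_not_dvd.2 h2.1).symm)
      ((Nat.Prime.coprime_iff_not_dvd (by norm_num)).2 h2.2).symm)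
  rcases h1 with ⟨w, hw⟩ | ⟨w, hw⟩
  · have hw0 : (w : ℤ) ≠ 0 := by omega
    have h2 : ¬ (q : ℤ) ∣ qf 1 0 q := fun ⟨t, ht⟩ => by
      have h3 := two_qf 1 0 q
      rw [ht, hw] at h3
      push_cast at h3
      have h4 : 2 * t = 2 * w + 1 := mul_left_cancel₀ (mul_ne_zero two_ne_zero hw0)
        (by linear_combination h3)
      omega
    rw [gg, SS_zero hq ha (dvd_mul_left _ _) h2, mul_zero, zero_div]
  · have hw0 : (w : ℤ) ≠ 0 := by omega
    have h2 : ¬ (q : ℤ) ∣ qf 11 (-3) (2 * w) := fun ⟨t, ht⟩ => by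
      have h3 := two_qf 11 (-3) (2 * w)
      rw [ht, hw] at h3
      push_cast at h3
      have h4 : 11 * t = 22 * w + 5 := mul_left_cancel₀ (mul_ne_zero two_ne_zero hw0)
        (by linear_combination h3)
      omega
    rw [gg, SS_zero hq ha ⟨2, by rw [hw]; push_cast; ring⟩ h2, zero_mul, zero_div]

theorem gg_eq {q : ℕ} (hq : 0 < q) {a c : ℤ} (ha : IsCoprime a (q : ℤ)) (h : q.Coprime 22)
    (hc : (q : ℤ) ∣ 88 * c - 1) :
    gg q a = (chi q : ℂ) / q * ex (((36 * a * c : ℤ) : ℝ) / q) := by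
  have h22 : IsCoprime (q : ℤ) 22 := Nat.isCoprime_iff_coprime.2 h
  have h2 : IsCoprime (q : ℤ) 2 := IsCoprime.of_mul_right_left (z := 11) h22
  have hc' : IsCoprime (q : ℤ) c := by
    obtain ⟨t, ht⟩ := hc
    exact ⟨-t, 88, by linear_combination ht⟩
  have s1 := SS_G (A := 11) (B := -3) (a := a) (b := -(a * c)) (v := 5) (t := 25 * a * c) h22
    fun r => hc.trans ⟨a * qf 11 (-3) r, by linear_combination (-(44 * a * c)) * two_qf 11 (-3) r⟩
  have s2 := SS_G (A := 1) (B := 0) (a := a) (b := 11 * -(a * c)) (v := 1) (t := 11 * a * c) h2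
    fun r => hc.trans ⟨a * qf 1 0 r, by linear_combination (-(44 * a * c)) * two_qf 1 0 r⟩
  have s3 := GG 11 q hq.ne' (-(a * c)) (by
    rw [mul_right_comm]
    exact h22.mul_right (ha.symm.mul_right hc').neg_right)
  have s4 : ex (((36 * a * c : ℤ) : ℝ) / q) = e q (25 * a * c) * e q (11 * a * c) := by
    rw [← e_add, e]
    congr 3
    ring
  have hq' : (q : ℂ) ≠ 0 := Nat.cast_ne_zero.2 hq.ne'
  rw [gg, s1, s2, s4, chi, if_pos h]
  field_simp
  linear_combination (4 * e q (25 * a * c) * e q (11 * a * c)) * s3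

theorem norm_gg_le {q : ℕ} (hq : 0 < q) {a : ℤ} (ha : IsCoprime a (q : ℤ)) :
    ‖gg q a‖ ≤ 1 / q := by
  by_cases h : q.Coprime 22
  · have h88 : IsCoprime (q : ℤ) 88 := Nat.isCoprime_iff_coprime.2
      (Nat.Coprime.coprime_dvd_right (by norm_num : 88 ∣ 22 ^ 3) (h.pow_right 3))
    obtain ⟨t, c, hc⟩ := h88
    rw [gg_eq hq ha h (c := c) ⟨-t, by linear_combination hc⟩, norm_mul,
      Pool.Agent.MP_2a1f0e_nt.norm_ex, mul_one, norm_div, Complex.norm_natCast,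
      Complex.norm_intCast]
    gcongr
    exact_mod_cast abs_chi_le q
  · rw [gg_eq_zero hq ha h, norm_zero]
    positivity

end Pool.Agent.MP_b9bf0c_nt

end
end

section

/-!
Odd integers as x^2 + 2 y^2 + 3 z^2 with x + y + z a square: the terms of the singular series.
-/

set_option autoImplicit false

open Finset Complex
open scoped Real ArithmeticFunction.Moebius

noncomputable section

namespace Pool.Agent.MP_b9bf0c_nt

open Pool.Agent.MP_2a1f0e_nt (ex)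
open Pool.Agent.MP_c903c4_nt (Red cc)

namespace Arith

theorem rama (m : ℤ) {q : ℕ} (hq : 0 < q) : ∑ r ∈ Red q, ex ((r : ℝ) * m / q) =
    ∑ x ∈ q.divisorsAntidiagonal, (μ x.1 : ℂ) * (if (x.2 : ℤ) ∣ m then (x.2 : ℂ) else 0) := by
  refine ((ArithmeticFunction.sum_eq_iff_sum_mul_moebius_eq
    (f := fun q : ℕ => ∑ r ∈ Red q, ex ((r : ℝ) * m / q))
    (g := fun d : ℕ => if (d : ℤ) ∣ m then (d : ℂ) else 0)).1 (fun d hd => ?_) q hq).symm
  have e1 := Pool.Agent.MP_c903c4_nt.Four_red hd fun x => ex (x * m)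
  have e2 := Pool.Agent.MP_2a1f0e_nt.gs_div d hd m
  unfold Pool.Agent.MP_2a1f0e_nt.gs at e2
  simp only [div_mul_eq_mul_div] at e1
  simp only [← mul_div_assoc] at e2
  rw [← e1, e2]

theorem mm_congr (ν : ℕ) {d s t : ℕ} (h : s ≡ t [MOD d]) :
    (d : ℤ) ∣ mm ν s ↔ (d : ℤ) ∣ mm ν t := by
  have h1 : (d : ℤ) ∣ mm ν s - mm ν t := by
    have h2 := (PP_dvd d t s h.dvd).mul_left 22
    have h3 : mm ν s - mm ν t = 22 * (PP t - PP s) := by
      unfold mm
      ring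
    rwa [h3]
  exact dvd_iff_dvd_of_dvd_sub h1

theorem count (ν d k : ℕ) (w : ℂ) :
    ∑ s ∈ range (d * k), (if (d : ℤ) ∣ mm ν s then w else 0) = k * (rho ν d : ℂ) * w := by
  induction k with
  | zero => simp
  | succ k ih =>
    rw [Nat.mul_succ, sum_range_add, ih]
    have h : ∑ s ∈ range d, (if (d : ℤ) ∣ mm ν (d * k + s : ℕ) then w else 0) =
        (rho ν d : ℂ) * w := by
      rw [rho, ← nsmul_eq_mul, ← sum_const, sum_filter]
      refine sum_congr rfl fun s _ => if_congr (mm_congr ν ?_) rfl rfl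
      simp [Nat.ModEq]
    rw [h]
    push_cast
    ring

theorem conv_mul {f g : ℕ → ℝ} (f0 : f 0 = 0) (g0 : g 0 = 0) (f1 : f 1 = 1) (g1 : g 1 = 1)
    (hf : ∀ a b : ℕ, a.Coprime b → f (a * b) = f a * f b)
    (hg : ∀ a b : ℕ, a.Coprime b → g (a * b) = g a * g b) {a b : ℕ} (h : a.Coprime b) :
    ∑ x ∈ (a * b).divisorsAntidiagonal, f x.1 * g x.2 =
      (∑ x ∈ a.divisorsAntidiagonal, f x.1 * g x.2) *
        ∑ x ∈ b.divisorsAntidiagonal, f x.1 * g x.2 := by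
  have h1 : ArithmeticFunction.IsMultiplicative (⟨f, f0⟩ : ArithmeticFunction ℝ) :=
    ⟨f1, fun {a b} h => hf a b h⟩
  have h2 : ArithmeticFunction.IsMultiplicative (⟨g, g0⟩ : ArithmeticFunction ℝ) :=
    ⟨g1, fun {a b} h => hg a b h⟩
  exact (h1.mul h2).map_mul_of_coprime h

theorem mu_mul {a b : ℕ} (h : a.Coprime b) : (μ (a * b) : ℝ) = (μ a : ℝ) * μ b := by
  rw [ArithmeticFunction.isMultiplicative_moebius.map_mul_of_coprime h, Int.cast_mul]

theorem mu_pow {p : ℕ} (hp : p.Prime) (i : ℕ) : μ (p ^ (i + 1 + 1)) = 0 := by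
  rw [ArithmeticFunction.moebius_apply_prime_pow hp (by omega), if_neg (by omega)]

theorem div_pow_one {p : ℕ} (hp : p.Prime) (j : ℕ) : p ^ (j + 1) / p = p ^ j := by
  rw [pow_succ, Nat.mul_div_cancel _ hp.pos]

end Arith

theorem hh_eq (ν : ℕ) {q : ℕ} (hq : 0 < q) : (hh ν q : ℂ) =
    ∑ a ∈ Red q, gg q a * (GT q ((a : ℝ) / q) / q) * ex ((a : ℝ) * ν / q) := by
  have hcop : ∀ a ∈ Red q, IsCoprime (a : ℤ) (q : ℤ) := fun a ha =>
    Nat.isCoprime_iff_coprime.2 (Pool.Agent.MP_c903c4_nt.Four_memRed.1 ha).2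
  by_cases h : q.Coprime 22
  · have h88 : IsCoprime (88 : ℤ) (q : ℤ) := by
      have h1 : Nat.Coprime 88 q := by
        have h2 : Nat.Coprime (22 ^ 3) q := Nat.Coprime.pow_left 3 h.symm
        exact Nat.Coprime.coprime_dvd_left (by norm_num) h2
      exact_mod_cast Nat.isCoprime_iff_coprime.2 h1
    obtain ⟨c, e, hce⟩ := h88
    have hc : (q : ℤ) ∣ 88 * c - 1 := ⟨-e, by linear_combination hce⟩
    have hq0 : (q : ℂ) ≠ 0 := by exact_mod_cast hq.ne'
    have hq1 : (q : ℝ) ≠ 0 := by exact_mod_cast hq.ne'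
    have h1 : ∀ a ∈ Red q, gg q a * (GT q ((a : ℝ) / q) / q) * ex ((a : ℝ) * ν / q) =
        ∑ s ∈ range q, (chi q : ℂ) / q ^ 2 * ex ((a : ℝ) * ((4 * c * mm ν s : ℤ) : ℝ) / q) := by
      intro a ha
      rw [gg_eq hq (hcop a ha) h hc, GT, sum_div, mul_sum, sum_mul]
      refine sum_congr rfl fun s _ => ?_
      have h2 : (a : ℝ) * ((4 * c * mm ν s : ℤ) : ℝ) / q =
          ((36 * a * c : ℤ) : ℝ) / q + -((a : ℝ) / q * (PP s : ℝ)) + (a : ℝ) * ν / q +
            ((-(a * e * (ν - PP s)) : ℤ) : ℝ) := by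
        have h3 : (c : ℝ) * 88 + e * q = 1 := by exact_mod_cast hce
        unfold mm
        push_cast
        field_simp
        linear_combination (a * (ν - PP s) : ℝ) * h3
      rw [h2, Pool.Agent.MP_2a1f0e_nt.ex_add, Pool.Agent.MP_2a1f0e_nt.ex_add,
        Pool.Agent.MP_2a1f0e_nt.ex_add, Pool.Agent.MP_2a1f0e_nt.ex_int]
      field_simp
    rw [sum_congr rfl h1, sum_comm]
    have h2 : ∀ s ∈ range q, ∑ a ∈ Red q,
        (chi q : ℂ) / q ^ 2 * ex ((a : ℝ) * ((4 * c * mm ν s : ℤ) : ℝ) / q) =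
        ∑ x ∈ q.divisorsAntidiagonal, (chi q : ℂ) / q ^ 2 * (μ x.1 : ℂ) *
          (if (x.2 : ℤ) ∣ mm ν s then (x.2 : ℂ) else 0) := by
      intro s _
      rw [← mul_sum, Arith.rama _ hq, mul_sum]
      refine sum_congr rfl fun x hx => ?_
      have h6 : (x.2 : ℤ) ∣ 4 * c * mm ν s ↔ (x.2 : ℤ) ∣ mm ν s := by
        refine ⟨fun h3 => ?_, fun h3 => h3.mul_left _⟩
        have h4 : (x.2 : ℤ) ∣ q := by
          exact_mod_cast Nat.dvd_of_mem_divisors (Nat.snd_mem_divisors_of_mem_antidiagonal hx)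
        have h5 : mm ν s = 22 * (4 * c * mm ν s) + q * (e * mm ν s) := by
          linear_combination -mm ν s * hce
        rw [h5]
        exact (h3.mul_left _).add (h4.mul_right _)
      rw [if_congr h6 rfl rfl]
      ring
    rw [sum_congr rfl h2, sum_comm, hh, mul_sum, Complex.ofReal_sum]
    refine sum_congr rfl fun x hx => ?_
    have h3 : x.2 * x.1 = q := by rw [mul_comm]; exact (Nat.mem_divisorsAntidiagonal.1 hx).1
    have h4 := Arith.count ν x.2 x.1 (x.2 : ℂ)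
    rw [h3] at h4
    rw [← mul_sum, h4]
    have h5 : (x.2 : ℂ) * x.1 = q := by exact_mod_cast h3
    push_cast
    field_simp
    linear_combination -(chi q : ℂ) * (μ x.1 : ℂ) * (rho ν x.2 : ℂ) * h5
  · rw [sum_eq_zero fun a ha => by rw [gg_eq_zero hq (hcop a ha) h, zero_mul, zero_mul]]
    simp [hh, chi, h]

theorem rho_mul (ν : ℕ) {a b : ℕ} (h : a.Coprime b) : rho ν (a * b) = rho ν a * rho ν b := by
  rcases Nat.eq_zero_or_pos a with rfl | ha
  · simp [rho]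
  rcases Nat.eq_zero_or_pos b with rfl | hb
  · simp [rho]
  have hab : IsCoprime (a : ℤ) (b : ℤ) := Nat.isCoprime_iff_coprime.2 h
  unfold rho
  rw [← card_product]
  refine card_bij (fun s _ => (s % a, s % b)) ?_ ?_ ?_
  · intro s hs
    simp only [mem_filter, mem_range, mem_product] at hs ⊢
    have h1 : ((a * b : ℕ) : ℤ) ∣ mm ν s := hs.2
    push_cast at h1
    exact ⟨⟨Nat.mod_lt _ ha, (Arith.mm_congr ν (Nat.mod_modEq s a)).2
      ((dvd_mul_right _ _).trans h1)⟩, Nat.mod_lt _ hb,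
      (Arith.mm_congr ν (Nat.mod_modEq s b)).2 ((dvd_mul_left _ _).trans h1)⟩
  · intro s hs t ht hst
    simp only [mem_filter, mem_range, Prod.mk.injEq] at hs ht hst
    exact ((Nat.modEq_and_modEq_iff_modEq_mul h).1 hst).eq_of_lt_of_lt hs.1 ht.1
  · rintro ⟨x, y⟩ hxy
    simp only [mem_filter, mem_range, mem_product] at hxy
    obtain ⟨⟨hx, hx'⟩, hy, hy'⟩ := hxy
    have h1 := (Nat.chineseRemainder h x y).2
    refine ⟨Nat.chineseRemainder h x y, ?_, ?_⟩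
    · simp only [mem_filter, mem_range]
      refine ⟨Nat.chineseRemainder_lt_mul h x y ha.ne' hb.ne', ?_⟩
      push_cast
      exact hab.mul_dvd ((Arith.mm_congr ν h1.1).2 hx') ((Arith.mm_congr ν h1.2).2 hy')
    · rw [Prod.mk.injEq]
      exact ⟨(show _ % a = x % a from h1.1).trans (Nat.mod_eq_of_lt hx),
        (show _ % b = y % b from h1.2).trans (Nat.mod_eq_of_lt hy)⟩

theorem rho_one (ν : ℕ) : rho ν 1 = 1 := by simp [rho]

theorem hh_one (ν : ℕ) : hh ν 1 = 1 := by simp [hh, chi_one, rho_one]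

theorem hh_mul (ν : ℕ) {a b : ℕ} (h : a.Coprime b) : hh ν (a * b) = hh ν a * hh ν b := by
  unfold hh
  rw [Arith.conv_mul (f := fun n => (μ n : ℝ)) (g := fun n => (rho ν n : ℝ)) (by simp)
    (by simp [rho]) (by simp) (by simp [rho_one]) (fun a b h => Arith.mu_mul h)
    (fun a b h => by rw [rho_mul ν h, Nat.cast_mul]) h, chi_mul]
  push_cast
  ring

theorem hh_pow (ν : ℕ) {p : ℕ} (hp : p.Prime) (j : ℕ) : hh ν (p ^ (j + 1)) =
    ((chi p : ℝ) / p) ^ (j + 1) * ((rho ν (p ^ (j + 1)) : ℝ) - rho ν (p ^ j)) := by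
  unfold hh
  rw [Nat.sum_divisorsAntidiagonal (f := fun a b => (μ a : ℝ) * (rho ν b : ℝ)),
    Nat.sum_divisors_prime_pow hp, sum_range_succ', sum_range_succ',
    sum_eq_zero fun i _ => by rw [Arith.mu_pow hp, Int.cast_zero, zero_mul], chi_pow]
  simp only [zero_add, pow_one, pow_zero, Nat.div_one, Arith.div_pow_one hp,
    ArithmeticFunction.moebius_apply_prime hp, ArithmeticFunction.moebius_apply_one]
  push_cast
  ring

theorem uu_one (ν : ℕ) : uu ν 1 = 1 := by simp [uu, hh_one]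

theorem uu_mul (ν : ℕ) {a b : ℕ} (h : a.Coprime b) : uu ν (a * b) = uu ν a * uu ν b := by
  unfold uu
  by_cases ha : 3 ∣ a
  · rw [if_pos (ha.mul_right b), if_pos ha, zero_mul]
  by_cases hb : 3 ∣ b
  · rw [if_pos (hb.mul_left a), if_pos hb, mul_zero]
  rw [if_neg ha, if_neg hb, if_neg fun h3 => ((Nat.prime_three.dvd_mul).1 h3).elim ha hb,
    Arith.mu_mul h, hh_mul ν h]
  ring

theorem kk_one (ν : ℕ) : kk ν 1 = 1 := by simp [kk, hh_one, uu_one]

theorem kk_mul (ν : ℕ) {a b : ℕ} (h : a.Coprime b) : kk ν (a * b) = kk ν a * kk ν b :=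
  Arith.conv_mul (f := hh ν) (g := uu ν) (by simp [hh]) (by simp [uu]) (hh_one ν) (uu_one ν)
    (fun _ _ h => hh_mul ν h) (fun _ _ h => uu_mul ν h) h

theorem kk_pow (ν : ℕ) {p : ℕ} (hp : p.Prime) (j : ℕ) :
    kk ν (p ^ (j + 1)) = hh ν (p ^ (j + 1)) + hh ν (p ^ j) * uu ν p := by
  unfold kk
  rw [Nat.sum_divisorsAntidiagonal' (f := fun a b => hh ν a * uu ν b),
    Nat.sum_divisors_prime_pow hp, sum_range_succ', sum_range_succ',
    sum_eq_zero fun i _ => by simp [uu, Arith.mu_pow hp]]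
  simp only [zero_add, pow_one, pow_zero, Nat.div_one, Arith.div_pow_one hp, uu_one]
  ring

end Pool.Agent.MP_b9bf0c_nt

end
end

section

/-!
Odd integers as x^2 + 2 y^2 + 3 z^2 with x + y + z a square: local factors.
-/

set_option autoImplicit false

open Finset Complex
open scoped Real ArithmeticFunction.Moebius

noncomputable section

namespace Pool.Agent.MP_b9bf0c_nt

open Pool.Agent.MP_2a1f0e_nt (ex)
open Pool.Agent.MP_c903c4_nt (Red cc)

namespace Local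

theorem sum_split (f : ℕ → ℕ) (a b : ℕ) :
    ∑ s ∈ range (a * b), f s = ∑ w ∈ range b, ∑ s ∈ range a, f (a * w + s) := by
  induction b with
  | zero => simp
  | succ b ih => rw [Nat.mul_succ, sum_range_add, ih, sum_range_succ]

theorem count_lin {p : ℕ} (hp : p.Prime) {c : ℤ} (hc : ¬ (p : ℤ) ∣ c) (d : ℤ) :
    ∑ w ∈ range p, (if (p : ℤ) ∣ d + c * w then 1 else 0) = 1 := by
  haveI := Fact.mk hp
  have hc' : (c : ZMod p) ≠ 0 := fun h => hc ((ZMod.intCast_zmod_eq_zero_iff_dvd c p).1 h)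
  have key : ∀ w : ℕ, (p : ℤ) ∣ d + c * w ↔ (w : ZMod p) = -d / c := by
    intro w
    rw [← ZMod.intCast_zmod_eq_zero_iff_dvd, eq_div_iff hc']
    push_cast
    constructor <;> intro h <;> linear_combination h
  rw [sum_eq_single ((-d / c : ZMod p).val)]
  · rw [if_pos ((key _).2 (ZMod.natCast_zmod_val _))]
  · intro w hw hne
    refine if_neg fun h => hne ?_
    rw [← (key w).1 h, ZMod.val_natCast, Nat.mod_eq_of_lt (mem_range.1 hw)]
  · intro h
    exact absurd (mem_range.2 (ZMod.val_lt _)) h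

theorem rho_le (ν d : ℕ) : rho ν d ≤ d := (card_filter_le _ _).trans_eq (card_range d)

theorem rho_eq (ν d : ℕ) : rho ν d = ∑ s ∈ range d, if (d : ℤ) ∣ mm ν s then 1 else 0 := by
  rw [rho, card_filter]

theorem abs_hh (ν : ℕ) {p : ℕ} (hp : p.Prime) (j : ℕ) {B : ℝ}
    (hB : |(rho ν (p ^ (j + 1)) : ℝ) - rho ν (p ^ j)| ≤ B) :
    |hh ν (p ^ (j + 1))| ≤ B / (p : ℝ) ^ (j + 1) := by
  have hp0 : (0 : ℝ) < p := by exact_mod_cast hp.pos
  have h1 : |(chi p : ℝ)| ≤ 1 := by exact_mod_cast abs_chi_le p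
  rw [hh_pow ν hp, abs_mul, abs_pow, abs_div, abs_of_pos hp0, div_pow, div_mul_eq_mul_div]
  refine div_le_div_of_nonneg_right ?_ (by positivity)
  calc _ ≤ 1 * B := mul_le_mul (pow_le_one₀ (abs_nonneg _) h1) hB (abs_nonneg _) zero_le_one
    _ = B := one_mul B

theorem not_dvd_of {p : ℕ} {m : ℕ} (h : ¬ p ∣ m) {c : ℕ} (hc : c ∣ m) : ¬ (p : ℤ) ∣ (c : ℤ) :=
  fun h1 => h ((Int.natCast_dvd_natCast.1 h1).trans hc)

theorem rho_four {ν p : ℕ} (hp : p.Prime) (h : ¬ p ∣ 66) : rho ν p ≤ 4 := by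
  classical
  haveI := Fact.mk hp
  have nz : ∀ c : ℕ, c ∣ 66 → ((c : ℕ) : ZMod p) ≠ 0 := fun c hc h1 =>
    h (((ZMod.natCast_eq_zero_iff c p).1 h1).trans hc)
  have h6 : (6 : ZMod p) ≠ 0 := by exact_mod_cast nz 6 (by norm_num)
  have h33 : (33 : ZMod p) ≠ 0 := by exact_mod_cast nz 33 (by norm_num)
  set a : ZMod p := 11 * (2 * ν + 1) / 6 with ha
  refine le_trans (card_le_card_of_injOn (t := (Polynomial.nthRoots 4 a).toFinset)
    (fun s : ℕ => (33 * s + 3 : ZMod p)) ?_ ?_)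
    ((Multiset.toFinset_card_le _).trans (Polynomial.card_nthRoots 4 a))
  · intro s hs
    have h1 := (mem_filter.1 (mem_coe.1 hs)).2
    rw [← ZMod.intCast_zmod_eq_zero_iff_dvd, mm_eq] at h1
    push_cast at h1
    rw [mem_coe, Multiset.mem_toFinset, Polynomial.mem_nthRoots (by norm_num), ha,
      eq_div_iff h6]
    linear_combination -h1
  · intro s hs t ht hst
    have hs' := mem_range.1 (mem_filter.1 (mem_coe.1 hs)).1
    have ht' := mem_range.1 (mem_filter.1 (mem_coe.1 ht)).1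
    have h1 : (s : ZMod p) = t := mul_left_cancel₀ h33 (add_right_cancel hst)
    have h2 := congrArg ZMod.val h1
    rwa [ZMod.val_natCast, ZMod.val_natCast, Nat.mod_eq_of_lt hs', Nat.mod_eq_of_lt ht'] at h2

theorem hensel {ν p : ℕ} (hp : p.Prime) (h : ¬ p ∣ 66 * (2 * ν + 1)) (j : ℕ) :
    rho ν (p ^ (j + 2)) = rho ν (p ^ (j + 1)) := by
  have hpz : Prime (p : ℤ) := Nat.prime_iff_prime_int.1 hp
  rw [rho_eq, rho_eq, pow_succ p (j + 1), sum_split, sum_comm]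
  refine sum_congr rfl fun s _ => ?_
  set P : ℕ := p ^ (j + 1) with hP
  have hP0 : (P : ℤ) ≠ 0 := by exact_mod_cast (pow_pos hp.pos _).ne'
  have hpP : (p : ℤ) ∣ P := by
    rw [hP]; push_cast; exact dvd_pow_self _ (by omega)
  set t : ℤ := 33 * s + 3 with ht
  have e : ∀ w : ℕ, mm ν ((P * w + s : ℕ) : ℤ) = mm ν s + P * (-(792 * t ^ 3) * w -
      P * (6 * w ^ 2 * (6 * 33 ^ 2 * t ^ 2 + 4 * 33 ^ 3 * t * (P * w) + 33 ^ 4 * (P * w) ^ 2))) := by
    intro w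
    rw [mm_eq, mm_eq, ht]
    push_cast
    ring
  by_cases hs : (P : ℤ) ∣ mm ν s
  · obtain ⟨d, hd⟩ := hs
    have hc : ¬ (p : ℤ) ∣ -(792 * t ^ 3) := by
      rw [dvd_neg]
      intro h1
      rcases hpz.dvd_or_dvd h1 with h2 | h2
      · have h3 : (p : ℤ) ∣ 66 ^ 3 := h2.trans (by norm_num)
        exact not_dvd_of h (dvd_mul_right 66 _) (by exact_mod_cast hpz.dvd_of_dvd_pow h3)
      · have h3 : (p : ℤ) ∣ t := hpz.dvd_of_dvd_pow h2
        have h4 : (p : ℤ) ∣ mm ν s := hd ▸ hpP.mul_right d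
        refine not_dvd_of h (c := 11 * (2 * ν + 1)) ⟨6, by ring⟩ ?_
        have h5 : ((11 * (2 * ν + 1) : ℕ) : ℤ) = mm ν s + t * (6 * t ^ 3) := by
          rw [mm_eq, ht]; push_cast; ring
        rw [h5]
        exact h4.add (h3.mul_right _)
    rw [if_pos ⟨d, hd⟩]
    refine Eq.trans (sum_congr rfl fun w _ => if_congr ?_ rfl rfl) (count_lin hp hc d)
    rw [e, hd, ← mul_add, Nat.cast_mul, mul_dvd_mul_iff_left hP0, ← add_sub_assoc]
    exact dvd_sub_left (hpP.mul_right _) |>.trans Iff.rfl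
  · rw [if_neg hs]
    refine sum_eq_zero fun w _ => if_neg fun h1 => hs ?_
    rw [e, Nat.cast_mul] at h1
    exact (dvd_add_left (dvd_mul_right _ _)).1 ((dvd_mul_right _ _).trans h1)

theorem dvd_iff {ν p : ℕ} (hν : Free ν) (hp : p.Prime) (h66 : ¬ p ∣ 66) (h : p ∣ 2 * ν + 1)
    (j : ℕ) (s : ℤ) : ((p ^ (j + 1) : ℕ) : ℤ) ∣ mm ν s ↔
      (p : ℤ) ∣ 33 * s + 3 ∧ p ^ (j + 1) ∣ 2 * ν + 1 := by
  have hpz : Prime (p : ℤ) := Nat.prime_iff_prime_int.1 hp
  have hn : (p : ℤ) ∣ 2 * ν + 1 := by exact_mod_cast h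
  have cop : ∀ i : ℕ, ((p : ℤ)) ^ i ∣ 11 * (2 * ν + 1) → p ^ i ∣ 2 * ν + 1 := by
    intro i hi
    have h1 : p ^ i ∣ 11 * (2 * ν + 1) := by exact_mod_cast hi
    refine Nat.Coprime.dvd_of_dvd_mul_left (Nat.Coprime.pow_left i ?_) h1
    exact (Nat.Prime.coprime_iff_not_dvd hp).2 fun h2 => h66 (h2.trans (by norm_num))
  rw [mm_eq]
  push_cast
  constructor
  · intro h1
    have h2 : (p : ℤ) ∣ 6 * (33 * s + 3) ^ 4 :=
      (dvd_sub_right (hn.mul_left 11)).1 ((dvd_pow_self _ (by omega)).trans h1)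
    have h3 : (p : ℤ) ∣ 33 * s + 3 := by
      rcases hpz.dvd_or_dvd h2 with h4 | h4
      · exact absurd h4 (not_dvd_of h66 (c := 6) (by norm_num))
      · exact hpz.dvd_of_dvd_pow h4
    have h4 : (p : ℤ) ^ 4 ∣ 6 * (33 * s + 3) ^ 4 := (pow_dvd_pow_of_dvd h3 4).mul_left 6
    refine ⟨h3, ?_⟩
    rcases le_total (j + 1) 4 with hj | hj
    · exact cop _ ((dvd_sub_left ((pow_dvd_pow _ hj).trans h4)).1 h1)
    · exact absurd (cop _ ((dvd_sub_left h4).1 ((pow_dvd_pow _ hj).trans h1))) (hν p hp)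
  · rintro ⟨h3, h1⟩
    have hj : j + 1 ≤ 4 := by
      by_contra hj
      exact hν p hp ((pow_dvd_pow _ (by omega)).trans h1)
    have h4 : (p : ℤ) ^ 4 ∣ 6 * (33 * s + 3) ^ 4 := (pow_dvd_pow_of_dvd h3 4).mul_left 6
    have h5 : (p : ℤ) ^ (j + 1) ∣ 2 * ν + 1 := by exact_mod_cast h1
    exact (h5.mul_left 11).sub ((pow_dvd_pow _ hj).trans h4)

theorem rho_dvd {ν p : ℕ} (hν : Free ν) (hp : p.Prime) (h66 : ¬ p ∣ 66) (h : p ∣ 2 * ν + 1)
    (j : ℕ) : rho ν (p ^ (j + 1)) = if p ^ (j + 1) ∣ 2 * ν + 1 then p ^ j else 0 := by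
  rw [rho_eq]
  simp only [dvd_iff hν hp h66 h]
  split_ifs with h1
  · simp only [h1, and_true]
    rw [pow_succ', sum_split]
    have h33 : ¬ (p : ℤ) ∣ 33 := not_dvd_of h66 (c := 33) (by norm_num)
    calc _ = ∑ _w ∈ range (p ^ j), 1 := sum_congr rfl fun w _ => by
          refine Eq.trans (sum_congr rfl fun s _ => if_congr (iff_of_eq ?_) rfl rfl)
            (count_lin hp h33 (33 * (p * w) + 3))
          congr 1
          push_cast
          ring
      _ = p ^ j := by simp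
  · simp [h1]

theorem rho_three (ν : ℕ) {j : ℕ} (hj : j ≤ 5) :
    rho ν (3 ^ j) = if 3 ^ j ∣ 2 * ν + 1 then 3 ^ j else 0 := by
  have key : ∀ s : ℤ, ((3 ^ j : ℕ) : ℤ) ∣ mm ν s ↔ 3 ^ j ∣ 2 * ν + 1 := by
    intro s
    have h4 : ((3 ^ j : ℕ) : ℤ) ∣ 6 * (33 * s + 3) ^ 4 := by
      push_cast
      exact (pow_dvd_pow _ hj).trans ⟨2 * (11 * s + 1) ^ 4, by ring⟩
    rw [mm_eq, dvd_sub_left h4]
    have h5 : (11 * (2 * ν + 1) : ℤ) = ((11 * (2 * ν + 1) : ℕ) : ℤ) := by push_cast; ring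
    rw [h5, Int.natCast_dvd_natCast]
    exact Nat.Coprime.dvd_mul_left (Nat.Coprime.pow_left j (by norm_num))
  rw [rho_eq]
  simp only [key]
  split_ifs <;> simp

theorem rho_three_zero {ν : ℕ} (hν : Free ν) {j : ℕ} (hj : 4 ≤ j) : rho ν (3 ^ j) = 0 := by
  rw [rho, card_eq_zero, filter_eq_empty_iff]
  intro s _ h1
  have h2 : ((3 ^ 4 : ℕ) : ℤ) ∣ mm ν s :=
    (Int.natCast_dvd_natCast.2 (pow_dvd_pow 3 hj)).trans h1
  have h4 : ((3 ^ 4 : ℕ) : ℤ) ∣ 6 * (33 * (s : ℤ) + 3) ^ 4 := ⟨6 * (11 * s + 1) ^ 4, by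
    push_cast; ring⟩
  rw [mm_eq, dvd_sub_left h4] at h2
  have h5 : 3 ^ 4 ∣ 11 * (2 * ν + 1) := by exact_mod_cast h2
  exact hν 3 Nat.prime_three (Nat.Coprime.dvd_of_dvd_mul_left (by norm_num) h5)

end Local

open Local

theorem hh_bad (ν : ℕ) {p : ℕ} (hp : p = 2 ∨ p = 11) (j : ℕ) : hh ν (p ^ (j + 1)) = 0 := by
  have h1 : chi p = 0 := by
    rcases hp with rfl | rfl <;> exact if_neg (by norm_num)
  have h2 : p.Prime := by
    rcases hp with rfl | rfl <;> norm_num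
  rw [hh_pow ν h2, h1]
  simp

theorem hh_good {ν p : ℕ} (hp : p.Prime) (h : ¬ p ∣ 66 * (2 * ν + 1)) :
    |hh ν p| ≤ 3 / p ∧ ∀ j, 2 ≤ j → hh ν (p ^ j) = 0 := by
  constructor
  · have h4 : (rho ν p : ℝ) ≤ 4 := by
      exact_mod_cast rho_four hp fun h1 => h (h1.mul_right _)
    have h0 : (0 : ℝ) ≤ rho ν p := Nat.cast_nonneg _
    have := abs_hh ν hp 0 (B := 3) (by
      rw [zero_add, pow_one, pow_zero, rho_one, abs_le]
      push_cast
      constructor <;> linarith)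
    simpa using this
  · intro j hj
    obtain ⟨i, rfl⟩ : ∃ i, j = i + 1 + 1 := ⟨j - 2, by omega⟩
    rw [hh_pow ν hp, hensel hp h, sub_self, mul_zero]

theorem hh_dvd {ν p : ℕ} (hν : Free ν) (hp : p.Prime) (h66 : ¬ p ∣ 66) (h : p ∣ 2 * ν + 1) :
    hh ν p = 0 ∧ (∀ j, 1 ≤ j → |hh ν (p ^ j)| ≤ 1 / p) ∧ ∀ j, 5 ≤ j → hh ν (p ^ j) = 0 := by
  have hp0 : (0 : ℝ) < p := by exact_mod_cast hp.pos
  refine ⟨?_, fun j hj => ?_, fun j hj => ?_⟩
  · have h1 := hh_pow ν hp 0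
    rw [rho_dvd hν hp h66 h, zero_add, pow_one, if_pos h, pow_zero, rho_one, sub_self,
      mul_zero] at h1
    exact h1
  · obtain ⟨i, rfl⟩ : ∃ i, j = i + 1 := ⟨j - 1, by omega⟩
    have h1 : rho ν (p ^ (i + 1)) ≤ p ^ i := by
      rw [rho_dvd hν hp h66 h]
      split_ifs <;> simp
    have h2 : (rho ν (p ^ (i + 1)) : ℝ) ≤ (p : ℝ) ^ i := by exact_mod_cast h1
    have h3 : (rho ν (p ^ i) : ℝ) ≤ (p : ℝ) ^ i := by exact_mod_cast rho_le ν (p ^ i)
    have h4 : (0 : ℝ) ≤ rho ν (p ^ (i + 1)) := Nat.cast_nonneg _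
    have h5 : (0 : ℝ) ≤ rho ν (p ^ i) := Nat.cast_nonneg _
    refine (abs_hh ν hp i (B := (p : ℝ) ^ i) (abs_le.2 ⟨by linarith, by linarith⟩)).trans_eq ?_
    field_simp
    ring
  · obtain ⟨i, rfl⟩ : ∃ i, j = i + 3 + 1 + 1 := ⟨j - 5, by omega⟩
    rw [hh_pow ν hp, rho_dvd hν hp h66 h, rho_dvd hν hp h66 h,
      if_neg fun h1 => hν p hp ((pow_dvd_pow _ (by omega)).trans h1),
      if_neg fun h1 => hν p hp ((pow_dvd_pow _ (by omega)).trans h1), sub_self, mul_zero]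

theorem hh_three {ν : ℕ} (hν : Free ν) : (∀ j, |hh ν (3 ^ j)| ≤ 1) ∧
    (∀ j, 5 ≤ j → hh ν (3 ^ j) = 0) ∧ 2 / 3 ≤ ∑ j ∈ range 5, hh ν (3 ^ j) := by
  refine ⟨fun j => ?_, fun j hj => ?_, ?_⟩
  · rcases j with _ | i
    · rw [pow_zero, hh_one, abs_one]
    · have h2 : (rho ν (3 ^ (i + 1)) : ℝ) ≤ ((3 : ℕ) : ℝ) ^ (i + 1) := by
        exact_mod_cast rho_le ν (3 ^ (i + 1))
      have h3 : (rho ν (3 ^ i) : ℝ) ≤ ((3 : ℕ) : ℝ) ^ (i + 1) := by
        exact_mod_cast (rho_le ν (3 ^ i)).trans (Nat.pow_le_pow_right (by norm_num) (by omega))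
      have h4 : (0 : ℝ) ≤ rho ν (3 ^ (i + 1)) := Nat.cast_nonneg _
      have h5 : (0 : ℝ) ≤ rho ν (3 ^ i) := Nat.cast_nonneg _
      refine (abs_hh ν Nat.prime_three i (B := ((3 : ℕ) : ℝ) ^ (i + 1))
        (abs_le.2 ⟨by linarith, by linarith⟩)).trans_eq (div_self (by positivity))
  · obtain ⟨i, rfl⟩ : ∃ i, j = i + 1 := ⟨j - 1, by omega⟩
    rw [hh_pow ν Nat.prime_three, rho_three_zero hν (by omega), rho_three_zero hν (by omega),
      sub_self, mul_zero]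
  · have e0 := hh_pow ν Nat.prime_three 0
    have e1 := hh_pow ν Nat.prime_three 1
    have e2 := hh_pow ν Nat.prime_three 2
    have e3 := hh_pow ν Nat.prime_three 3
    rw [rho_three_zero hν (j := 3 + 1) le_rfl] at e3
    rw [rho_three ν (j := 0 + 1) (by norm_num), pow_zero, rho_one] at e0
    rw [rho_three ν (j := 1 + 1) (by norm_num), rho_three ν (j := 1) (by norm_num)] at e1
    rw [rho_three ν (j := 2 + 1) (by norm_num), rho_three ν (j := 2) (by norm_num)] at e2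
    rw [rho_three ν (j := 3) (by norm_num)] at e3
    simp only [sum_range_succ, range_zero, sum_empty, pow_zero, hh_one]
    rw [chi_three] at e0 e1 e2 e3
    norm_num at e0 e1 e2 e3 ⊢
    rw [e0, e1, e2, e3]
    split_ifs with h1 h2 h3 h3 h2 h3 h3 <;> first | (exfalso; omega) | norm_num

end Pool.Agent.MP_b9bf0c_nt

end
end

section

/-!
Odd integers as x^2 + 2 y^2 + 3 z^2 with x + y + z a square: collisions and the large sieve.
-/

set_option autoImplicit false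

open Finset Complex
open scoped Real ArithmeticFunction.Moebius

noncomputable section

namespace Pool.Agent.MP_b9bf0c_nt

open Pool.Agent.MP_2a1f0e_nt (ex)
open Pool.Agent.MP_c903c4_nt (Red cc)

namespace LS

theorem harm (L : ℕ) : ∑ m ∈ range L, 1 / ((m : ℝ) + 1) ≤ 1 + Real.log L := by
  have h := harmonic_le_one_add_log L
  unfold harmonic at h
  push_cast at h
  simpa only [one_div] using h

theorem harm' (a L : ℕ) : ∑ q ∈ Ioc a L, 1 / (q : ℝ) ≤ 1 + Real.log L := by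
  have h := harmonic_le_one_add_log L
  rw [harmonic_eq_sum_Icc] at h
  push_cast at h
  refine le_trans ?_ h
  simp only [one_div]
  refine sum_le_sum_of_subset_of_nonneg (fun q hq => ?_) fun _ _ _ => by positivity
  rw [mem_Ioc] at hq
  rw [mem_Icc]
  omega

theorem divcount {τ : ℝ} {L : ℕ} (hτ : Dv τ (33 ^ 4 * L ^ 4)) {s t : ℕ} (hs : s < L) (ht : t < L)
    (hst : s ≠ t) (B : Finset ℕ) :
    ((B.filter fun q : ℕ => (q : ℤ) ∣ PP s - PP t).card : ℝ) ≤ τ := by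
  have h0 : (PP s - PP t).natAbs ≠ 0 := fun h =>
    hst (PP_inj (sub_eq_zero.1 (Int.natAbs_eq_zero.1 h)))
  have h1 : (PP s - PP t).natAbs ≤ 33 ^ 4 * L ^ 4 := by
    have a1 := PP_le hs
    have a2 := PP_le ht
    have a3 := PP_pos s
    have a4 := PP_pos t
    zify
    rw [abs_le]
    constructor <;> linarith
  refine le_trans ?_ (hτ _ h0 h1)
  exact_mod_cast card_le_card fun q hq =>
    Nat.mem_divisors.2 ⟨Int.natCast_dvd.1 (mem_filter.1 hq).2, h0⟩

theorem col_eq (T q : ℕ) : (col T q : ℝ) =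
    ∑ s ∈ range T, ∑ t ∈ range T, if (q : ℤ) ∣ PP s - PP t then (1 : ℝ) else 0 := by
  unfold col cc
  rw [card_filter, ← sum_product']
  push_cast
  rfl

theorem col_mono {r T : ℕ} (h : r ≤ T) (q : ℕ) : col r q ≤ col T q :=
  card_le_card (filter_subset_filter _
    (product_subset_product (range_subset_range.2 h) (range_subset_range.2 h)))

/-- one pair off the diagonal -/
theorem pair {τ : ℝ} {L : ℕ} (hτ : Dv τ (33 ^ 4 * L ^ 4)) {s t : ℕ} (hs : s < L) (ht : t < L)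
    (hst : s ≠ t) (B : Finset ℕ) (w : ℕ → ℝ) {M : ℝ} (hM : 0 ≤ M) (hw : ∀ q ∈ B, w q ≤ M) :
    ∑ q ∈ B, (if (q : ℤ) ∣ PP s - PP t then w q else 0) ≤ τ * M := by
  rw [← sum_filter]
  refine (sum_le_card_nsmul _ _ M fun q hq => hw q (mem_filter.1 hq).1).trans ?_
  rw [nsmul_eq_mul]
  exact mul_le_mul_of_nonneg_right (divcount hτ hs ht hst B) hM

theorem sum_max (L : ℕ) :
    ∑ s ∈ range L, ∑ t ∈ range L, 1 / (((max s t : ℕ) : ℝ) + 1) ^ 2 ≤
      2 * ∑ m ∈ range L, 1 / ((m : ℝ) + 1) := by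
  induction L with
  | zero => simp
  | succ L ih =>
    simp only [sum_range_succ, sum_add_distrib, max_self]
    have h1 : ∑ s ∈ range L, 1 / (((max s L : ℕ) : ℝ) + 1) ^ 2 = L * (1 / ((L : ℝ) + 1) ^ 2) := by
      rw [sum_congr rfl fun s hs => by rw [max_eq_right (mem_range.1 hs).le]]
      simp
    have h2 : ∑ s ∈ range L, 1 / (((max L s : ℕ) : ℝ) + 1) ^ 2 = L * (1 / ((L : ℝ) + 1) ^ 2) := by
      rw [sum_congr rfl fun s hs => by rw [max_eq_left (mem_range.1 hs).le]]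
      simp
    have h3 : 2 * (L * (1 / ((L : ℝ) + 1) ^ 2)) + 1 / ((L : ℝ) + 1) ^ 2 ≤ 2 * (1 / ((L : ℝ) + 1)) := by
      have : 2 * (1 / ((L : ℝ) + 1)) - (2 * (L * (1 / ((L : ℝ) + 1) ^ 2)) + 1 / ((L : ℝ) + 1) ^ 2)
          = 1 / ((L : ℝ) + 1) ^ 2 := by
        field_simp
        ring
      have h4 : 0 ≤ 1 / ((L : ℝ) + 1) ^ 2 := by positivity
      linarith
    rw [h1, h2]
    linarith

theorem GT_add {q : ℕ} (hq : 0 < q) (a n : ℕ) :
    GT (q + n) ((a : ℝ) / q) = GT q ((a : ℝ) / q) + GT n ((a : ℝ) / q) := by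
  unfold GT
  rw [sum_range_add]
  congr 1
  refine sum_congr rfl fun i _ => ?_
  obtain ⟨k, hk⟩ := PP_dvd q ((q + i : ℕ) : ℤ) i ⟨1, by push_cast; ring⟩
  have hq' : (q : ℝ) ≠ 0 := by positivity
  have e : -((a : ℝ) / q * (PP ((q + i : ℕ) : ℤ) : ℝ)) =
      -((a : ℝ) / q * (PP i : ℝ)) + ((-(a * k) : ℤ) : ℝ) := by
    have : (PP ((q + i : ℕ) : ℤ) : ℝ) = PP i + q * k := by
      exact_mod_cast (by linear_combination hk : PP ((q + i : ℕ) : ℤ) = PP i + q * k)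
    rw [this]
    push_cast
    field_simp
    ring
  rw [e, Pool.Agent.MP_2a1f0e_nt.ex_add, Pool.Agent.MP_2a1f0e_nt.ex_int, mul_one]

theorem GT_mul {q : ℕ} (hq : 0 < q) (a r m : ℕ) :
    GT (q * m + r) ((a : ℝ) / q) = m * GT q ((a : ℝ) / q) + GT r ((a : ℝ) / q) := by
  induction m with
  | zero => simp
  | succ m ih =>
    rw [show q * (m + 1) + r = q + (q * m + r) by ring, GT_add hq, ih]
    push_cast
    ring

theorem GT_parseval (T : ℕ) {q : ℕ} (hq : 0 < q) :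
    ∑ a ∈ Red q, ‖GT T ((a : ℝ) / q)‖ ^ 2 ≤ q * (col T q : ℝ) := by
  have h := Pool.Agent.MP_c903c4_nt.parseval (range T) (fun s : ℕ => -PP s) hq
  have e : cc (range T) (fun s : ℕ => -PP s) q = col T q := by
    unfold col cc
    congr 1
    refine filter_congr fun x _ => ?_
    rw [show -PP x.1 - -PP x.2 = -(PP x.1 - PP x.2) by ring, dvd_neg]
  rw [e] at h
  refine le_trans (le_of_eq (sum_congr rfl fun a _ => ?_)) h
  unfold GT
  congr 2
  refine sum_congr rfl fun s _ => ?_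
  congr 1
  push_cast
  ring

theorem gg_sq {q a : ℕ} (hq : 0 < q) (ha : a ∈ Red q) : ‖gg q a‖ ^ 2 ≤ 1 / (q : ℝ) ^ 2 := by
  have h := norm_gg_le hq
    (Nat.isCoprime_iff_coprime.2 (Pool.Agent.MP_c903c4_nt.Four_memRed.1 ha).2)
  calc ‖gg q a‖ ^ 2 ≤ (1 / (q : ℝ)) ^ 2 := pow_le_pow_left₀ (norm_nonneg _) h 2
    _ = 1 / (q : ℝ) ^ 2 := by rw [one_div_pow]

theorem ls' (Q : ℕ) {N : ℕ} (hN : 1 ≤ N) (u : ℕ → ℕ → ℂ) :
    ∑ ν ∈ Ioc 0 N, ‖∑ q ∈ Ioc 0 Q, ∑ a ∈ Red q, u q a * ex ((a : ℝ) * ν / q)‖ ^ 2 ≤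
      24 * (2 * N + (Q : ℝ) ^ 2) * ∑ q ∈ Ioc 0 Q, ∑ a ∈ Red q, ‖u q a‖ ^ 2 := by
  have h := Pool.Agent.MP_c903c4_nt.ls 1 Q 0 N hN (Ioc 0 Q)
    (fun q hq => mem_filter.2 ⟨hq, Nat.coprime_one_right q⟩) u
  simpa only [zero_add, Nat.cast_one, one_mul] using h

theorem small_term {T q : ℕ} (hq : 0 < q) (hqT : q ≤ T) :
    ∑ a ∈ Red q, ‖gg q a * (GT T ((a : ℝ) / q) - T * (GT q ((a : ℝ) / q) / q))‖ ^ 2 ≤
      4 * T * ((col q q : ℝ) / (q : ℝ) ^ 2) := by
  have hq' : (0 : ℝ) < q := by exact_mod_cast hq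
  have hr : T % q < q := Nat.mod_lt _ hq
  have h1 : ∀ a ∈ Red q, ‖gg q a * (GT T ((a : ℝ) / q) - T * (GT q ((a : ℝ) / q) / q))‖ ^ 2 ≤
      1 / (q : ℝ) ^ 2 * (2 * ‖GT (T % q) ((a : ℝ) / q)‖ ^ 2 + 2 * ‖GT q ((a : ℝ) / q)‖ ^ 2) := by
    intro a ha
    rw [norm_mul, mul_pow]
    refine mul_le_mul (gg_sq hq ha) ?_ (by positivity) (by positivity)
    have e : GT T ((a : ℝ) / q) - T * (GT q ((a : ℝ) / q) / q) =
        GT (T % q) ((a : ℝ) / q) - (((T % q : ℕ) : ℂ) / q) * GT q ((a : ℝ) / q) := by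
      have e1 := GT_mul hq a (T % q) (T / q)
      rw [Nat.div_add_mod] at e1
      have e2 : (T : ℂ) = q * (T / q : ℕ) + (T % q : ℕ) := by
        exact_mod_cast (Nat.div_add_mod T q).symm
      have hq0 : (q : ℂ) ≠ 0 := by exact_mod_cast hq.ne'
      rw [e1, e2]
      field_simp
      ring
    have h2 : ‖(((T % q : ℕ) : ℂ) / q) * GT q ((a : ℝ) / q)‖ ≤ ‖GT q ((a : ℝ) / q)‖ := by
      rw [norm_mul, norm_div, Complex.norm_natCast, Complex.norm_natCast]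
      refine mul_le_of_le_one_left (norm_nonneg _) ?_
      rw [div_le_one hq']
      exact_mod_cast hr.le
    have h3 := norm_sub_le (GT (T % q) ((a : ℝ) / q))
      ((((T % q : ℕ) : ℂ) / q) * GT q ((a : ℝ) / q))
    rw [e]
    have h4 := pow_le_pow_left₀ (norm_nonneg _) (h3.trans (add_le_add le_rfl h2)) 2
    nlinarith [sq_nonneg (‖GT (T % q) ((a : ℝ) / q)‖ - ‖GT q ((a : ℝ) / q)‖)]
  refine (sum_le_sum h1).trans ?_
  rw [← mul_sum, sum_add_distrib, ← mul_sum, ← mul_sum]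
  have h2 := GT_parseval (T % q) hq
  have h3 := GT_parseval q hq
  have h4 : (col (T % q) q : ℝ) ≤ col q q := by exact_mod_cast col_mono hr.le q
  have h5 : (q : ℝ) ≤ T := by exact_mod_cast hqT
  have h6 : (0 : ℝ) ≤ col q q := by positivity
  have h7 : 2 * ∑ a ∈ Red q, ‖GT (T % q) ((a : ℝ) / q)‖ ^ 2 +
      2 * ∑ a ∈ Red q, ‖GT q ((a : ℝ) / q)‖ ^ 2 ≤ 4 * T * (col q q : ℝ) := by
    nlinarith [mul_le_mul_of_nonneg_left h4 hq'.le, mul_le_mul_of_nonneg_right h5 h6]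
  calc _ ≤ 1 / (q : ℝ) ^ 2 * (4 * T * (col q q : ℝ)) :=
        mul_le_mul_of_nonneg_left h7 (by positivity)
    _ = _ := by ring

theorem big_term (T : ℕ) {q : ℕ} (hq : 0 < q) :
    ∑ a ∈ Red q, ‖gg q a * GT T ((a : ℝ) / q)‖ ^ 2 ≤ (col T q : ℝ) / q := by
  have hq' : (0 : ℝ) < q := by exact_mod_cast hq
  have h1 : ∀ a ∈ Red q, ‖gg q a * GT T ((a : ℝ) / q)‖ ^ 2 ≤
      1 / (q : ℝ) ^ 2 * ‖GT T ((a : ℝ) / q)‖ ^ 2 := by
    intro a ha
    rw [norm_mul, mul_pow]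
    exact mul_le_mul_of_nonneg_right (gg_sq hq ha) (by positivity)
  refine (sum_le_sum h1).trans ?_
  rw [← mul_sum]
  calc _ ≤ 1 / (q : ℝ) ^ 2 * (q * (col T q : ℝ)) :=
        mul_le_mul_of_nonneg_left (GT_parseval T hq) (by positivity)
    _ = _ := by field_simp

end LS

theorem col_small {τ : ℝ} {L : ℕ} (hτ : Dv τ (33 ^ 4 * L ^ 4)) (hL : 1 ≤ L) :
    ∑ q ∈ Ioc 0 L, (col q q : ℝ) / (q : ℝ) ^ 2 ≤ 3 * τ * (1 + Real.log L) := by
  have hτ1 : 1 ≤ τ := hτ.one_le (Nat.one_le_iff_ne_zero.2 (by positivity))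
  have h1 : ∀ q ∈ Ioc 0 L, (col q q : ℝ) / (q : ℝ) ^ 2 ≤ 1 / (q : ℝ) +
      ∑ s ∈ range L, ∑ t ∈ range L, if s = t then 0 else
        (if (q : ℤ) ∣ PP s - PP t then (if max s t < q then 1 / (q : ℝ) ^ 2 else 0) else 0) := by
    intro q hq
    rw [mem_Ioc] at hq
    have hq' : (0 : ℝ) < q := by exact_mod_cast hq.1
    have e : 1 / (q : ℝ) = ∑ s ∈ range q, ∑ t ∈ range q, if s = t then 1 / (q : ℝ) ^ 2 else 0 := by
      rw [sum_congr rfl fun s hs => by rw [sum_ite_eq, if_pos hs]]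
      simp only [sum_const, card_range, nsmul_eq_mul]
      field_simp
    have h2 : ∀ s t : ℕ, (0 : ℝ) ≤ if s = t then 0 else
        (if (q : ℤ) ∣ PP s - PP t then (if max s t < q then 1 / (q : ℝ) ^ 2 else 0) else 0) := by
      intro s t
      split_ifs <;> positivity
    refine le_trans ?_ (add_le_add le_rfl (sum_le_sum_of_subset_of_nonneg
      (range_subset_range.2 hq.2) fun s _ _ => sum_nonneg fun t _ => h2 s t))
    refine le_trans ?_ (add_le_add le_rfl (sum_le_sum fun s _ => sum_le_sum_of_subset_of_nonneg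
      (range_subset_range.2 hq.2) fun t _ _ => h2 s t))
    rw [e, LS.col_eq, ← sum_add_distrib, sum_div]
    refine sum_le_sum fun s hs => ?_
    rw [← sum_add_distrib, sum_div]
    refine sum_le_sum fun t ht => ?_
    have h3 : max s t < q := max_lt (mem_range.1 hs) (mem_range.1 ht)
    rw [if_pos h3]
    split_ifs <;> simp
  refine (sum_le_sum h1).trans ?_
  rw [sum_add_distrib, sum_comm]
  have h2 : ∑ s ∈ range L, ∑ q ∈ Ioc 0 L, ∑ t ∈ range L, (if s = t then 0 else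
      (if (q : ℤ) ∣ PP s - PP t then (if max s t < q then 1 / (q : ℝ) ^ 2 else 0) else 0)) ≤
      ∑ s ∈ range L, ∑ t ∈ range L, τ * (1 / (((max s t : ℕ) : ℝ) + 1) ^ 2) := by
    refine sum_le_sum fun s hs => ?_
    rw [sum_comm]
    refine sum_le_sum fun t ht => ?_
    by_cases hst : s = t
    · simp only [if_pos hst, sum_const_zero]
      positivity
    · simp only [if_neg hst]
      refine LS.pair hτ (mem_range.1 hs) (mem_range.1 ht) hst _ _ (by positivity) fun q _ => ?_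
      split_ifs with h
      · refine one_div_le_one_div_of_le (by positivity) (pow_le_pow_left₀ (by positivity) ?_ 2)
        exact_mod_cast h
      · positivity
  simp only [← mul_sum] at h2
  have h3 := LS.sum_max L
  have h4 := LS.harm L
  have h5 := LS.harm' 0 L
  have h6 : 0 ≤ Real.log L := Real.log_natCast_nonneg L
  have h7 := mul_le_mul_of_nonneg_left (h3.trans (mul_le_mul_of_nonneg_left h4 zero_le_two))
    (zero_le_one.trans hτ1)
  nlinarith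

theorem col_big {τ : ℝ} {T : ℕ} (hτ : Dv τ (33 ^ 4 * T ^ 4)) (hT : 1 ≤ T) {Q : ℕ} (hQ : 1 ≤ Q) :
    ∑ q ∈ Ioc T Q, (col T q : ℝ) / q ≤ 2 * τ * T * (1 + Real.log Q) := by
  have hτ1 : 1 ≤ τ := hτ.one_le (Nat.one_le_iff_ne_zero.2 (by positivity))
  have hT' : (0 : ℝ) < T := by exact_mod_cast hT
  have h6 : 0 ≤ Real.log Q := Real.log_natCast_nonneg Q
  simp only [LS.col_eq, sum_div]
  rw [sum_comm]
  have h2 : ∀ s ∈ range T, ∑ q ∈ Ioc T Q, ∑ t ∈ range T,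
      (if (q : ℤ) ∣ PP s - PP t then (1 : ℝ) else 0) / q ≤ (1 + Real.log Q) + τ := by
    intro s hs
    rw [sum_comm]
    have h3 : ∀ t ∈ range T, ∑ q ∈ Ioc T Q, (if (q : ℤ) ∣ PP s - PP t then (1 : ℝ) else 0) / q ≤
        (if s = t then 1 + Real.log Q else 0) + τ * (1 / T) := by
      intro t ht
      by_cases hst : s = t
      · rw [if_pos hst]
        refine le_add_of_le_of_nonneg (le_trans (sum_le_sum fun q _ => ?_) (LS.harm' T Q))
          (by positivity)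
        split_ifs
        · exact le_rfl
        · simp
      · rw [if_neg hst, zero_add]
        simp only [ite_div, zero_div]
        refine LS.pair hτ (mem_range.1 hs) (mem_range.1 ht) hst _ _ (by positivity) fun q hq => ?_
        refine one_div_le_one_div_of_le hT' ?_
        exact_mod_cast (mem_Ioc.1 hq).1.le
    refine (sum_le_sum h3).trans (le_of_eq ?_)
    rw [sum_add_distrib, sum_ite_eq, if_pos hs, sum_const, card_range, nsmul_eq_mul]
    field_simp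
  refine (sum_le_sum h2).trans ?_
  rw [sum_const, card_range, nsmul_eq_mul]
  nlinarith [mul_nonneg hT'.le (mul_nonneg (sub_nonneg.2 hτ1) h6),
    mul_nonneg hT'.le (mul_nonneg (zero_le_one.trans hτ1) h6),
    mul_nonneg hT'.le (sub_nonneg.2 hτ1)]

theorem JJ_approx {τ : ℝ} {T Q N : ℕ} (hτ : Dv τ (33 ^ 4 * T ^ 4)) (hT : 1 ≤ T) (hQ : T ≤ Q)
    (hN : 1 ≤ N) : ∑ ν ∈ Ioc 0 N, ‖JJ Q T ν - (T : ℂ) * (HH T ν : ℂ)‖ ^ 2 ≤
      1000 * (2 * N + (Q : ℝ) ^ 2) * τ * T * (1 + Real.log Q) := by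
  have hτ1 : 1 ≤ τ := hτ.one_le (Nat.one_le_iff_ne_zero.2 (by positivity))
  set u : ℕ → ℕ → ℂ := fun q a => gg q a * (GT T ((a : ℝ) / q) -
    if q ≤ T then T * (GT q ((a : ℝ) / q) / q) else 0) with hu
  have e : ∀ ν : ℕ, JJ Q T ν - (T : ℂ) * (HH T ν : ℂ) =
      ∑ q ∈ Ioc 0 Q, ∑ a ∈ Red q, u q a * ex ((a : ℝ) * ν / q) := by
    intro ν
    have e1 : Ioc 0 T = (Ioc 0 Q).filter fun q => q ≤ T := by
      ext q
      simp only [mem_Ioc, mem_filter]
      omega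
    unfold JJ HH
    rw [Complex.ofReal_sum, e1, sum_filter, mul_sum, ← sum_sub_distrib]
    refine sum_congr rfl fun q hq => ?_
    by_cases h : q ≤ T
    · simp only [hu, if_pos h]
      rw [hh_eq ν (mem_Ioc.1 hq).1, mul_sum, ← sum_sub_distrib]
      exact sum_congr rfl fun a _ => by ring
    · simp only [hu, if_neg h, mul_zero, sub_zero]
  simp only [e]
  refine (LS.ls' Q hN u).trans ?_
  have h1 : ∑ q ∈ Ioc 0 T, ∑ a ∈ Red q, ‖u q a‖ ^ 2 ≤ 4 * T * (3 * τ * (1 + Real.log T)) := by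
    refine le_trans ?_ (mul_le_mul_of_nonneg_left (col_small hτ hT) (by positivity))
    rw [mul_sum]
    refine sum_le_sum fun q hq => ?_
    rw [mem_Ioc] at hq
    simp only [hu, if_pos hq.2]
    exact LS.small_term hq.1 hq.2
  have h2 : ∑ q ∈ Ioc T Q, ∑ a ∈ Red q, ‖u q a‖ ^ 2 ≤ 2 * τ * T * (1 + Real.log Q) := by
    refine le_trans (sum_le_sum fun q hq => ?_) (col_big hτ hT (hT.trans hQ))
    rw [mem_Ioc] at hq
    simp only [hu, if_neg (not_le.2 hq.1), sub_zero]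
    exact LS.big_term T (by omega)
  have hT' : (0 : ℝ) < T := by exact_mod_cast hT
  have h3 : Real.log T ≤ Real.log Q := Real.log_le_log hT' (by exact_mod_cast hQ)
  have h4 : 0 ≤ Real.log T := Real.log_natCast_nonneg T
  rw [← sum_Ioc_consecutive _ (Nat.zero_le T) hQ]
  have h5 : 0 ≤ τ * T := by positivity
  have h6 : ∑ q ∈ Ioc 0 T, ∑ a ∈ Red q, ‖u q a‖ ^ 2 + ∑ q ∈ Ioc T Q, ∑ a ∈ Red q, ‖u q a‖ ^ 2 ≤
      14 * (τ * T * (1 + Real.log Q)) := by
    nlinarith [mul_le_mul_of_nonneg_left h3 h5]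
  have h7 : 0 ≤ (2 * N + (Q : ℝ) ^ 2) * (τ * T * (1 + Real.log Q)) := by
    have : 0 ≤ 1 + Real.log Q := by linarith
    positivity
  have h8 := mul_le_mul_of_nonneg_left h6 (by positivity : 0 ≤ 24 * (2 * N + (Q : ℝ) ^ 2))
  nlinarith

theorem hh_ls {τ σ R : ℝ} {L N : ℕ} (hτ : Dv τ (33 ^ 4 * L ^ 4)) (hL : 1 ≤ L) (hN : 1 ≤ N)
    (hR : 0 < R) (c : ℕ → ℝ) (hc : ∀ l ∈ Ioc 0 L, |c l| ≤ σ) (hc0 : ∀ l : ℕ, (l : ℝ) ≤ R → c l = 0) :
    ∑ ν ∈ Ioc 0 N, (∑ l ∈ Ioc 0 L, c l * hh ν l) ^ 2 ≤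
      72 * (2 * N + (L : ℝ) ^ 2) * σ ^ 2 * τ * (1 + Real.log L) / R := by
  set u : ℕ → ℕ → ℂ := fun l a => ((c l / l : ℝ) : ℂ) * (gg l a * GT l ((a : ℝ) / l)) with hu
  have e : ∀ ν : ℕ, (∑ l ∈ Ioc 0 L, c l * hh ν l) ^ 2 =
      ‖∑ q ∈ Ioc 0 L, ∑ a ∈ Red q, u q a * ex ((a : ℝ) * ν / q)‖ ^ 2 := by
    intro ν
    rw [← sq_abs, ← Real.norm_eq_abs, ← Complex.norm_real, Complex.ofReal_sum]
    congr 2
    refine sum_congr rfl fun q hq => ?_
    rw [Complex.ofReal_mul, hh_eq ν (mem_Ioc.1 hq).1, mul_sum]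
    refine sum_congr rfl fun a _ => ?_
    simp only [hu]
    push_cast
    ring
  simp only [e]
  refine (LS.ls' L hN u).trans ?_
  have h1 : ∑ q ∈ Ioc 0 L, ∑ a ∈ Red q, ‖u q a‖ ^ 2 ≤ σ ^ 2 / R * (3 * τ * (1 + Real.log L)) := by
    refine le_trans ?_ (mul_le_mul_of_nonneg_left (col_small hτ hL) (by positivity))
    rw [mul_sum]
    refine sum_le_sum fun q hq => ?_
    have hq0 := (mem_Ioc.1 hq).1
    have hq' : (0 : ℝ) < q := by exact_mod_cast hq0
    simp only [hu, norm_mul (((c q / q : ℝ) : ℂ)), mul_pow, ← mul_sum, Complex.norm_real,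
      Real.norm_eq_abs, sq_abs]
    refine (mul_le_mul_of_nonneg_left (LS.big_term q hq0) (by positivity)).trans ?_
    by_cases h : (q : ℝ) ≤ R
    · rw [hc0 q h]
      simp only [zero_div, ne_eq, OfNat.ofNat_ne_zero, not_false_eq_true, zero_pow, zero_mul]
      positivity
    · have h2 : c q ^ 2 ≤ σ ^ 2 := by
        rw [← sq_abs]
        exact pow_le_pow_left₀ (abs_nonneg _) (hc q hq) 2
      have h3 : c q ^ 2 / q ≤ σ ^ 2 / R :=
        div_le_div₀ (by positivity) h2 hR (not_le.1 h).le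
      calc (c q / q) ^ 2 * ((col q q : ℝ) / q) = c q ^ 2 / q * ((col q q : ℝ) / (q : ℝ) ^ 2) := by
            field_simp
        _ ≤ _ := mul_le_mul_of_nonneg_right h3 (by positivity)
  calc _ ≤ 24 * (2 * N + (L : ℝ) ^ 2) * (σ ^ 2 / R * (3 * τ * (1 + Real.log L))) :=
        mul_le_mul_of_nonneg_left h1 (by positivity)
    _ = _ := by ring

end Pool.Agent.MP_b9bf0c_nt

end
end

section

/-!
Odd integers as x^2 + 2 y^2 + 3 z^2 with x + y + z a square: the mollifier.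
-/

set_option autoImplicit false

open Finset Complex
open scoped Real ArithmeticFunction.Moebius

noncomputable section

namespace Pool.Agent.MP_b9bf0c_nt

open Pool.Agent.MP_2a1f0e_nt (ex)
open Pool.Agent.MP_c903c4_nt (Red cc)

namespace Moll

theorem sqf_of_uu {ν e : ℕ} (h : uu ν e ≠ 0) : Squarefree e ∧ ¬ 3 ∣ e ∧ hh ν e ≠ 0 := by
  unfold uu at h
  split_ifs at h with h3
  · exact absurd rfl h
  · refine ⟨ArithmeticFunction.moebius_ne_zero_iff_squarefree.1 fun h0 => h ?_, h3, fun h0 => h ?_⟩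
    · rw [h0, Int.cast_zero, zero_mul]
    · rw [h0, mul_zero]

theorem abs_uu {ν e : ℕ} (h : uu ν e ≠ 0) : |uu ν e| = |hh ν e| := by
  obtain ⟨h1, h2, _⟩ := sqf_of_uu h
  have h4 : |(μ e : ℝ)| = 1 := by
    exact_mod_cast ArithmeticFunction.abs_moebius_eq_one_of_squarefree h1
  rw [uu, if_neg h2, abs_mul, h4, one_mul]

theorem good_of_uu {ν p : ℕ} (hν : Free ν) (hp : p.Prime) (h : uu ν p ≠ 0) :
    ¬ p ∣ 66 * (2 * ν + 1) := by
  obtain ⟨_, h2, h3⟩ := sqf_of_uu h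
  have h66 : ¬ p ∣ 66 := by
    intro h1
    have h5 : p ∣ 2 * 3 * 11 := h1
    rcases (Nat.Prime.dvd_mul hp).1 h5 with h6 | h6
    · rcases (Nat.Prime.dvd_mul hp).1 h6 with h7 | h7
      · have := hh_bad ν (Or.inl ((Nat.prime_dvd_prime_iff_eq hp Nat.prime_two).1 h7)) 0
        exact h3 (by simpa using this)
      · exact h2 ((Nat.prime_dvd_prime_iff_eq hp Nat.prime_three).1 h7 ▸ dvd_rfl)
    · have := hh_bad ν (Or.inr ((Nat.prime_dvd_prime_iff_eq hp (by norm_num)).1 h6)) 0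
      exact h3 (by simpa using this)
  intro h1
  rcases (Nat.Prime.dvd_mul hp).1 h1 with h6 | h6
  · exact h66 h6
  · exact h3 (hh_dvd hν hp h66 h6).1

theorem abs_uu_le {ν : ℕ} (hν : Free ν) (e : ℕ) : |uu ν e| ≤ (e.divisors.card : ℝ) ^ 2 / e := by
  induction e using Nat.recOnPosPrimePosCoprime with
  | prime_pow p k hp hk =>
    by_cases h : uu ν (p ^ k) = 0
    · rw [h, abs_zero]
      positivity
    · obtain rfl : k = 1 := ((Nat.squarefree_pow_iff hp.ne_one hk.ne').1 (sqf_of_uu h).1).2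
      rw [pow_one] at h ⊢
      rw [abs_uu h, hp.divisors, card_pair hp.ne_one.symm]
      refine (hh_good hp (good_of_uu hν hp h)).1.trans ?_
      gcongr
      norm_num
  | zero => simp [uu]
  | one => simp [uu_one]
  | coprime a b _ _ hab iha ihb =>
    rw [uu_mul ν hab, abs_mul, hab.card_divisors_mul]
    push_cast
    rw [mul_pow, mul_div_mul_comm]
    exact mul_le_mul iha ihb (abs_nonneg _) (by positivity)

/-- The weight of the common divisor. -/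
def wt (ν g : ℕ) : ℝ := hh ν g * uu ν g

theorem abs_wt_le {τ : ℝ} {ν g : ℕ} (hν : Free ν) (hτ : (g.divisors.card : ℝ) ≤ τ) :
    |wt ν g| ≤ τ ^ 4 / (g : ℝ) ^ 2 := by
  have h0 : (0 : ℝ) ≤ g.divisors.card := Nat.cast_nonneg _
  have h1 : |uu ν g| ≤ τ ^ 2 / g := (abs_uu_le hν g).trans (by gcongr)
  by_cases h : uu ν g = 0
  · rw [wt, h, mul_zero, abs_zero]
    positivity
  · rw [wt, abs_mul, ← abs_uu h]
    calc |uu ν g| * |uu ν g| ≤ τ ^ 2 / g * (τ ^ 2 / g) :=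
          mul_le_mul h1 h1 (abs_nonneg _) (by positivity)
      _ = τ ^ 4 / (g : ℝ) ^ 2 := by ring

/-- The sign attached to a factorisation. -/
def sg (g q e : ℕ) : ℝ := if g.Coprime q ∧ g.Coprime e ∧ ¬ 3 ∣ e then (μ e : ℝ) else 0

theorem abs_sg_le (g q e : ℕ) : |sg g q e| ≤ 1 := by
  unfold sg
  split_ifs
  · exact_mod_cast ArithmeticFunction.abs_moebius_le_one
  · simp

theorem term_eq {ν g q e : ℕ} (hν : Free ν) (hg : g ≠ 0) (hq : q ≠ 0) (hqe : q.Coprime e) :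
    hh ν (g * q) * uu ν (g * e) = wt ν g * (sg g q e * hh ν (q * e)) := by
  by_cases h : g.Coprime q ∧ g.Coprime e
  · rw [hh_mul ν h.1, uu_mul ν h.2, hh_mul ν hqe, wt, sg, show uu ν e =
      if 3 ∣ e then 0 else (μ e : ℝ) * hh ν e from rfl]
    by_cases h3 : 3 ∣ e
    · rw [if_pos h3, if_neg fun h4 => h4.2.2 h3]
      ring
    · rw [if_neg h3, if_pos ⟨h.1, h.2, h3⟩]
      ring
  · rw [sg, if_neg fun h4 => h ⟨h4.1, h4.2.1⟩, zero_mul, mul_zero]
    by_contra h1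
    have h2 : uu ν (g * e) ≠ 0 := right_ne_zero_of_mul h1
    have h3 : hh ν (g * q) ≠ 0 := left_ne_zero_of_mul h1
    have hs := (sqf_of_uu h2).1
    have h4 : g.Coprime e := (Nat.squarefree_mul_iff.1 hs).1
    have h5 : ¬ g.Coprime q := fun h5 => h ⟨h5, h4⟩
    obtain ⟨p, hp, hpg, hpq⟩ := Nat.Prime.not_coprime_iff_dvd.1 h5
    obtain ⟨c, hc⟩ : p ∣ g * e := hpg.mul_right e
    rw [hc] at hs h2
    rw [uu_mul ν (Nat.squarefree_mul_iff.1 hs).1] at h2
    have h6 := (hh_good hp (good_of_uu hν hp (left_ne_zero_of_mul h2))).2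
    obtain ⟨j, m, hm, hjm⟩ := Nat.exists_eq_pow_mul_and_not_dvd (mul_ne_zero hg hq) p hp.ne_one
    have hcop : (p ^ j).Coprime m := ((Nat.Prime.coprime_iff_not_dvd hp).2 hm).pow_left j
    have h7 : p ^ 2 ∣ p ^ j * m := by
      rw [← hjm, sq]
      exact mul_dvd_mul hpg hpq
    have h8 : p ^ 2 ∣ p ^ j :=
      (((Nat.Prime.coprime_iff_not_dvd hp).2 hm).pow_left 2).dvd_of_dvd_mul_right h7
    rw [hjm, hh_mul ν hcop, h6 j ((Nat.pow_dvd_pow_iff_le_right hp.one_lt).1 h8), zero_mul] at h3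
    exact h3 rfl

/-- The pairs with a large product. -/
def PR (D : ℕ) : Finset (ℕ × ℕ) := (Ioc 0 D ×ˢ Ioc 0 D).filter fun x => D < x.1 * x.2

/-- The pairs with given greatest common divisor and given reduced product. -/
def FB (D g l : ℕ) : Finset (ℕ × ℕ) :=
  ((PR D).filter fun x => x.1.gcd x.2 = g).filter fun x => x.1 / g * (x.2 / g) = l

/-- The coefficients of the inner sums. -/
def cf (D g l : ℕ) : ℝ := ∑ x ∈ FB D g l, sg g (x.1 / g) (x.2 / g)

theorem RR_pairs (D ν : ℕ) : RR D ν = ∑ x ∈ PR D, hh ν x.1 * uu ν x.2 := by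
  have h1 : ∑ l ∈ Ioc 0 D, kk ν l =
      ∑ x ∈ Ioc 0 D ×ˢ Ioc 0 D with x.1 * x.2 ≤ D, hh ν x.1 * uu ν x.2 := by
    trans ∑ n ∈ Ioc 0 D, ∑ x ∈ Ioc 0 D ×ˢ Ioc 0 D with x.1 * x.2 = n, hh ν x.1 * uu ν x.2
    · refine sum_congr rfl fun n hn => ?_
      rw [mem_Ioc] at hn
      rw [kk, Nat.divisorsAntidiagonal_eq_prod_filter_of_le hn.1.ne' hn.2]
    · simp_rw [sum_filter]
      rw [sum_comm]
      exact sum_congr rfl fun _ _ => (by simp_all)
  rw [RR, HH, Mo, sum_mul_sum, ← sum_product', h1,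
    ← sum_filter_add_sum_filter_not _ fun x : ℕ × ℕ => x.1 * x.2 ≤ D, add_sub_cancel_left]
  simp only [PR, not_le]

theorem mem_PR {D : ℕ} {x : ℕ × ℕ} (h : x ∈ PR D) :
    0 < x.1 ∧ x.1 ≤ D ∧ 0 < x.2 ∧ x.2 ≤ D ∧ D < x.1 * x.2 := by
  simp only [PR, mem_filter, mem_product, mem_Ioc] at h
  exact ⟨h.1.1.1, h.1.1.2, h.1.2.1, h.1.2.2, h.2⟩

theorem RR_eq {ν : ℕ} (hν : Free ν) (D : ℕ) :
    RR D ν = ∑ g ∈ Ioc 0 D, wt ν g * ∑ l ∈ Ioc 0 (D ^ 2), cf D g l * hh ν l := by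
  rw [RR_pairs, ← sum_fiberwise_of_maps_to (g := fun x : ℕ × ℕ => x.1.gcd x.2) (t := Ioc 0 D)]
  · refine sum_congr rfl fun g hg => ?_
    have hg0 : 0 < g := (mem_Ioc.1 hg).1
    rw [← sum_fiberwise_of_maps_to (g := fun x : ℕ × ℕ => x.1 / g * (x.2 / g)) (t := Ioc 0 (D ^ 2)),
      mul_sum]
    · refine sum_congr rfl fun l _ => ?_
      rw [cf, sum_mul, mul_sum]
      refine sum_congr rfl fun x hx => ?_
      obtain ⟨hx1, rfl⟩ := mem_filter.1 hx
      obtain ⟨hx2, hx3⟩ := mem_filter.1 hx1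
      obtain ⟨h1, -⟩ := mem_PR hx2
      have d1 : g ∣ x.1 := hx3 ▸ Nat.gcd_dvd_left _ _
      have d2 : g ∣ x.2 := hx3 ▸ Nat.gcd_dvd_right _ _
      have hc : (x.1 / g).Coprime (x.2 / g) := hx3 ▸ Nat.coprime_div_gcd_div_gcd (hx3 ▸ hg0)
      rw [← term_eq hν hg0.ne' (Nat.div_pos (Nat.le_of_dvd h1 d1) hg0).ne' hc,
        Nat.mul_div_cancel' d1, Nat.mul_div_cancel' d2]
    · intro x hx
      obtain ⟨hx2, hx3⟩ := mem_filter.1 hx
      obtain ⟨h1, h2, h3, h4, -⟩ := mem_PR hx2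
      have d1 : g ∣ x.1 := hx3 ▸ Nat.gcd_dvd_left _ _
      have d2 : g ∣ x.2 := hx3 ▸ Nat.gcd_dvd_right _ _
      refine mem_Ioc.2 ⟨Nat.mul_pos (Nat.div_pos (Nat.le_of_dvd h1 d1) hg0)
        (Nat.div_pos (Nat.le_of_dvd h3 d2) hg0), ?_⟩
      rw [sq]
      exact Nat.mul_le_mul ((Nat.div_le_self _ _).trans h2) ((Nat.div_le_self _ _).trans h4)
  · intro x hx
    obtain ⟨h1, h2, -⟩ := mem_PR hx
    exact mem_Ioc.2 ⟨Nat.gcd_pos_of_pos_left _ h1, (Nat.gcd_le_left _ h1).trans h2⟩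

theorem mem_FB {D g l : ℕ} {x : ℕ × ℕ} (h : x ∈ FB D g l) :
    g * (x.1 / g) = x.1 ∧ g * (x.2 / g) = x.2 ∧ x.1 / g * (x.2 / g) = l ∧ D < x.1 * x.2 := by
  obtain ⟨hx1, h1⟩ := mem_filter.1 h
  obtain ⟨hx2, hx3⟩ := mem_filter.1 hx1
  exact ⟨Nat.mul_div_cancel' (hx3 ▸ Nat.gcd_dvd_left _ _),
    Nat.mul_div_cancel' (hx3 ▸ Nat.gcd_dvd_right _ _), h1, (mem_PR hx2).2.2.2.2⟩

theorem abs_cf_le (D g : ℕ) {l : ℕ} (hl : l ≠ 0) : |cf D g l| ≤ (l.divisors.card : ℝ) := by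
  refine (abs_sum_le_sum_abs _ _).trans ((sum_le_card_nsmul _ _ 1 fun x _ => abs_sg_le _ _ _).trans ?_)
  rw [nsmul_eq_mul, mul_one, Nat.cast_le]
  refine card_le_card_of_injOn (fun x => x.1 / g) (fun x hx => ?_) fun x hx y hy hxy => ?_
  · exact mem_coe.2 (Nat.mem_divisors.2 ⟨⟨_, (mem_FB (mem_coe.1 hx)).2.2.1.symm⟩, hl⟩)
  · obtain ⟨a1, a2, a3, -⟩ := mem_FB (mem_coe.1 hx)
    obtain ⟨b1, b2, b3, -⟩ := mem_FB (mem_coe.1 hy)
    have h1 : x.1 / g = y.1 / g := hxy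
    have h2 : x.2 / g = y.2 / g := by
      refine Nat.eq_of_mul_eq_mul_left (Nat.pos_of_ne_zero (left_ne_zero_of_mul (a3 ▸ hl))) ?_
      rw [a3, h1, b3]
    exact Prod.ext (by rw [← a1, h1, b1]) (by rw [← a2, h2, b2])

theorem cf_zero {D g l : ℕ} (hg : 0 < g) (h : (l : ℝ) ≤ D / (g : ℝ) ^ 2) : cf D g l = 0 := by
  refine sum_eq_zero fun x hx => ?_
  obtain ⟨a1, a2, a3, a4⟩ := mem_FB hx
  have h1 : (0 : ℝ) < g := by exact_mod_cast hg
  rw [le_div_iff₀ (by positivity)] at h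
  have h2 : l * g ^ 2 ≤ D := by exact_mod_cast h
  have h3 : x.1 * x.2 = l * g ^ 2 := by
    rw [← a3]
    nth_rewrite 1 [← a1, ← a2]
    ring
  omega

end Moll

open Moll

theorem abs_Mo_le {τ : ℝ} {ν D : ℕ} (hν : Free ν) (hτ : Dv τ D) (hD : 1 ≤ D) :
    |Mo D ν| ≤ τ ^ 2 * (1 + Real.log D) := by
  have h0 := hτ.one_le hD
  refine (abs_sum_le_sum_abs _ _).trans ?_
  calc ∑ e ∈ Ioc 0 D, |uu ν e| ≤ ∑ e ∈ Ioc 0 D, τ ^ 2 * (1 / (e : ℝ)) := by
        refine sum_le_sum fun e he => (abs_uu_le hν e).trans ?_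
        have h1 := hτ e (mem_Ioc.1 he).1.ne' (mem_Ioc.1 he).2
        rw [mul_one_div]
        gcongr
    _ ≤ _ := by
        rw [← mul_sum]
        exact mul_le_mul_of_nonneg_left (LS.harm' 0 D) (by positivity)

theorem RR_sq {τ : ℝ} {D N : ℕ} (hτ : Dv τ (33 ^ 4 * D ^ 8)) (hD : 1 ≤ D) (hN : 1 ≤ N)
    (E : Finset ℕ) (hE : ∀ ν ∈ E, Free ν ∧ 0 < ν ∧ ν ≤ N) :
    ∑ ν ∈ E, RR D ν ^ 2 ≤ 200 * (2 * N + (D : ℝ) ^ 4) * τ ^ 11 * (1 + Real.log D) ^ 3 / D := by
  have hD2 : D ^ 2 ≤ 33 ^ 4 * D ^ 8 :=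
    (Nat.pow_le_pow_right hD (by norm_num)).trans (Nat.le_mul_of_pos_left _ (by norm_num))
  have hD1 : D ≤ D ^ 2 := Nat.le_self_pow (by norm_num) D
  have h1 : 1 ≤ τ := (hτ.mono hD2).one_le (hD.trans hD1)
  have hDr : (1 : ℝ) ≤ D := by exact_mod_cast hD
  have hlog : 0 ≤ Real.log D := Real.log_nonneg hDr
  set X : ℕ → ℕ → ℝ := fun g ν => ∑ l ∈ Ioc 0 (D ^ 2), cf D g l * hh ν l with hX
  set K : ℝ := 144 * (2 * N + (D : ℝ) ^ 4) * τ ^ 3 * (1 + Real.log D) / D with hK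
  have hK0 : 0 ≤ K := by positivity
  have a1 : ∀ ν ∈ E, RR D ν ^ 2 ≤
      (1 + Real.log D) * ∑ g ∈ Ioc 0 D, τ ^ 8 / (g : ℝ) ^ 3 * X g ν ^ 2 := by
    intro ν hν
    rw [RR_eq (hE ν hν).1]
    refine (sum_sq_le_sum_mul_sum_of_sq_le_mul (f := fun g : ℕ => 1 / (g : ℝ))
      (g := fun g : ℕ => τ ^ 8 / (g : ℝ) ^ 3 * X g ν ^ 2) _ (fun g _ => by positivity)
      (fun g _ => by positivity) fun g hg => ?_).trans ?_
    · have hg0 : (0 : ℝ) < g := by exact_mod_cast (mem_Ioc.1 hg).1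
      have h2 := abs_wt_le (hE ν hν).1
        (hτ g (mem_Ioc.1 hg).1.ne' ((mem_Ioc.1 hg).2.trans (hD1.trans hD2)))
      have h3 : wt ν g ^ 2 ≤ (τ ^ 4 / (g : ℝ) ^ 2) ^ 2 := by
        rw [← sq_abs]
        exact pow_le_pow_left₀ (abs_nonneg _) h2 2
      calc (wt ν g * X g ν) ^ 2 = wt ν g ^ 2 * X g ν ^ 2 := mul_pow _ _ _
        _ ≤ (τ ^ 4 / (g : ℝ) ^ 2) ^ 2 * X g ν ^ 2 := by gcongr
        _ = _ := by field_simp
    · exact mul_le_mul_of_nonneg_right (LS.harm' 0 D) (sum_nonneg fun g _ => by positivity)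
  have a2 : ∀ g ∈ Ioc 0 D, ∑ ν ∈ E, X g ν ^ 2 ≤ K * (g : ℝ) ^ 2 := by
    intro g hg
    have hg0 : (0 : ℝ) < g := by exact_mod_cast (mem_Ioc.1 hg).1
    have h2 := hh_ls (τ := τ) (σ := τ) (R := D / (g : ℝ) ^ 2) (L := D ^ 2) (N := N)
      (by rwa [← pow_mul]) (hD.trans hD1) hN (by positivity) (cf D g)
      (fun l hl => (abs_cf_le D g (mem_Ioc.1 hl).1.ne').trans
        (hτ l (mem_Ioc.1 hl).1.ne' ((mem_Ioc.1 hl).2.trans hD2)))
      fun l hl => cf_zero (mem_Ioc.1 hg).1 hl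
    refine (sum_le_sum_of_subset_of_nonneg (fun ν hν => mem_Ioc.2 (hE ν hν).2)
      fun _ _ _ => sq_nonneg _).trans (h2.trans ?_)
    push_cast
    rw [Real.log_pow, hK]
    calc _ ≤ 72 * (2 * N + ((D : ℝ) ^ 2) ^ 2) * τ ^ 2 * τ * (2 * (1 + Real.log D)) /
          (D / (g : ℝ) ^ 2) := by
          gcongr
          push_cast
          linarith
      _ = _ := by
          field_simp
          ring
  calc ∑ ν ∈ E, RR D ν ^ 2
      ≤ ∑ ν ∈ E, (1 + Real.log D) * ∑ g ∈ Ioc 0 D, τ ^ 8 / (g : ℝ) ^ 3 * X g ν ^ 2 := sum_le_sum a1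
    _ = (1 + Real.log D) * ∑ g ∈ Ioc 0 D, τ ^ 8 / (g : ℝ) ^ 3 * ∑ ν ∈ E, X g ν ^ 2 := by
        rw [← mul_sum, sum_comm]
        simp only [mul_sum]
    _ ≤ (1 + Real.log D) * ∑ g ∈ Ioc 0 D, τ ^ 8 * K * (1 / (g : ℝ)) := by
        refine mul_le_mul_of_nonneg_left (sum_le_sum fun g hg => ?_) (by positivity)
        have hg0 : (0 : ℝ) < g := by exact_mod_cast (mem_Ioc.1 hg).1
        calc _ ≤ τ ^ 8 / (g : ℝ) ^ 3 * (K * (g : ℝ) ^ 2) :=
              mul_le_mul_of_nonneg_left (a2 g hg) (by positivity)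
          _ = _ := by field_simp
    _ ≤ (1 + Real.log D) * (τ ^ 8 * K * (1 + Real.log D)) := by
        rw [← mul_sum]
        have := LS.harm' 0 D
        gcongr
    _ = 144 * ((2 * N + (D : ℝ) ^ 4) * τ ^ 11 * (1 + Real.log D) ^ 3 / D) := by
        rw [hK]
        ring
    _ ≤ 200 * ((2 * N + (D : ℝ) ^ 4) * τ ^ 11 * (1 + Real.log D) ^ 3 / D) := by
        gcongr
        norm_num
    _ = _ := by ring

end Pool.Agent.MP_b9bf0c_nt

end
end
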